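import Mathlib

-- merged part: Pool.Agent.Work.MP_58debc_an.B1
section
open Set Real MeasureTheory Laplacian InnerProductSpace Filter
open scoped Topology RealInnerProductSpace

namespace Pool.Agent.Work.MP_58debc_an.Ball

/-- Euclidean space -/
abbrev E (n : ℕ) := EuclideanSpace ℝ (Fin n)

variable {n : ℕ}

/-- the standard basis -/
noncomputable abbrev bb (n : ℕ) : OrthonormalBasis (Fin n) ℝ (E n) :=
  EuclideanSpace.basisFun (Fin n) ℝ

lemma lap_eq (b : OrthonormalBasis (Fin n) ℝ (E n)) (φ : E n → ℝ) (x : E n) :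
    Δ φ x = ∑ i, fderiv ℝ (fderiv ℝ φ) x (b i) (b i) := by
  rw [laplacian_eq_iteratedFDeriv_orthonormalBasis φ b]
  simp [iteratedFDeriv_two_apply]

lemma ev_diff {F : Type*} [NormedAddCommGroup F] [NormedSpace ℝ F] {G : Type*}
    [NormedAddCommGroup G] [NormedSpace ℝ G] {f : F → G} {x : F} (h : ContDiffAt ℝ 2 f x) :
    ∀ᶠ y in 𝓝 x, DifferentiableAt ℝ f y :=
  (h.eventually (by simp)).mono fun _ hy => hy.differentiableAt (by simp)

lemma diff_fderiv {F : Type*} [NormedAddCommGroup F] [NormedSpace ℝ F] {G : Type*}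
    [NormedAddCommGroup G] [NormedSpace ℝ G] {f : F → G} {x : F} (h : ContDiffAt ℝ 2 f x) :
    HasFDerivAt (fderiv ℝ f) (fderiv ℝ (fderiv ℝ f) x) x :=
  ((h.fderiv_right (m := 1) (by norm_num)).differentiableAt (by simp)).hasFDerivAt

lemma d2_comp {N : E n → E n} {P : E n → ℝ} {x : E n} (hN : ContDiffAt ℝ 2 N x)
    (hP : ContDiffAt ℝ 2 P (N x)) (v w : E n) :
    fderiv ℝ (fderiv ℝ fun y => P (N y)) x v w =
      fderiv ℝ (fderiv ℝ P) (N x) (fderiv ℝ N x v) (fderiv ℝ N x w) +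
        fderiv ℝ P (N x) (fderiv ℝ (fderiv ℝ N) x v w) := by
  have e : (fderiv ℝ fun y => P (N y)) =ᶠ[𝓝 x] fun y => (fderiv ℝ P (N y)).comp (fderiv ℝ N y) := by
    filter_upwards [ev_diff hN, hN.continuousAt.eventually (ev_diff hP)] with y h1 h2
    exact fderiv_comp y h2 h1
  have dN := (hN.differentiableAt (by simp)).hasFDerivAt
  have h := ((diff_fderiv hP).comp x dN).clm_comp (diff_fderiv hN)
  rw [e.fderiv_eq]
  erw [h.fderiv]
  simp [add_comm]

lemma d2_mul {a g : E n → ℝ} {x : E n} (ha : ContDiffAt ℝ 2 a x) (hg : ContDiffAt ℝ 2 g x)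
    (v : E n) :
    fderiv ℝ (fderiv ℝ fun y => a y * g y) x v v =
      a x * fderiv ℝ (fderiv ℝ g) x v v + 2 * (fderiv ℝ a x v * fderiv ℝ g x v) +
        g x * fderiv ℝ (fderiv ℝ a) x v v := by
  have e : (fderiv ℝ fun y => a y * g y) =ᶠ[𝓝 x]
      fun y => a y • fderiv ℝ g y + g y • fderiv ℝ a y := by
    filter_upwards [ev_diff ha, ev_diff hg] with y h1 h2
    exact fderiv_fun_mul h1 h2
  have da := (ha.differentiableAt (by simp)).hasFDerivAt
  have dg := (hg.differentiableAt (by simp)).hasFDerivAt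
  have h := (da.smul (diff_fderiv hg)).add (dg.smul (diff_fderiv ha))
  rw [e.fderiv_eq]
  erw [h.fderiv]
  simp
  ring

lemma d2_scal {F F1 : ℝ → ℝ} {F2 : ℝ} {s : E n → ℝ} {x : E n} (hs : ContDiffAt ℝ 2 s x)
    (hF : ∀ᶠ r in 𝓝 (s x), HasDerivAt F (F1 r) r) (hF1 : HasDerivAt F1 F2 (s x)) (v : E n) :
    fderiv ℝ (fderiv ℝ fun y => F (s y)) x v v =
      F2 * fderiv ℝ s x v ^ 2 + F1 (s x) * fderiv ℝ (fderiv ℝ s) x v v := by
  have e : (fderiv ℝ fun y => F (s y)) =ᶠ[𝓝 x] fun y => F1 (s y) • fderiv ℝ s y := by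
    filter_upwards [ev_diff hs, hs.continuousAt.eventually hF] with y h1 h2
    exact (h2.comp_hasFDerivAt y h1.hasFDerivAt).fderiv
  have ds := (hs.differentiableAt (by simp)).hasFDerivAt
  have h := (hF1.comp_hasFDerivAt x ds).smul (diff_fderiv hs)
  rw [e.fderiv_eq]
  erw [h.fderiv]
  simp
  ring

lemma d1_scal {F : ℝ → ℝ} {F1 : ℝ} {s : E n → ℝ} {x : E n} (hs : DifferentiableAt ℝ s x)
    (hF : HasDerivAt F F1 (s x)) (v : E n) :
    fderiv ℝ (fun y => F (s y)) x v = F1 * fderiv ℝ s x v := by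
  have := (hF.comp_hasFDerivAt x hs.hasFDerivAt).fderiv
  erw [this]
  simp

/-- pairing of gradients -/
noncomputable def gp (a g : E n → ℝ) (x : E n) : ℝ :=
  ∑ i, fderiv ℝ a x (bb n i) * fderiv ℝ g x (bb n i)

lemma lap_mul {a g : E n → ℝ} {x : E n} (ha : ContDiffAt ℝ 2 a x) (hg : ContDiffAt ℝ 2 g x) :
    Δ (fun y => a y * g y) x = a x * Δ g x + 2 * gp a g x + g x * Δ a x := by
  simp only [lap_eq (bb n), d2_mul ha hg, gp, Finset.sum_add_distrib, Finset.mul_sum]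

lemma lap_scal {F F1 : ℝ → ℝ} {F2 : ℝ} {s : E n → ℝ} {x : E n} (hs : ContDiffAt ℝ 2 s x)
    (hF : ∀ᶠ r in 𝓝 (s x), HasDerivAt F (F1 r) r) (hF1 : HasDerivAt F1 F2 (s x)) :
    Δ (fun y => F (s y)) x = F2 * gp s s x + F1 (s x) * Δ s x := by
  simp only [lap_eq (bb n), d2_scal hs hF hF1, gp, Finset.sum_add_distrib, Finset.mul_sum, sq]

lemma gp_scal {F : ℝ → ℝ} {F1 : ℝ} {s g : E n → ℝ} {x : E n} (hs : DifferentiableAt ℝ s x)
    (hF : HasDerivAt F F1 (s x)) : gp (fun y => F (s y)) g x = F1 * gp s g x := by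
  simp only [gp, d1_scal hs hF, Finset.mul_sum, mul_assoc]

lemma sum_inner_mul (L : E n →L[ℝ] ℝ) (p : E n) : ∑ i, ⟪p, bb n i⟫ * L (bb n i) = L p := by
  conv_rhs => rw [← (bb n).sum_repr' p]
  simp only [map_sum, map_smul, smul_eq_mul, real_inner_comm]

lemma gp_inner {a g : E n → ℝ} {x p : E n} (h : ∀ v, fderiv ℝ a x v = ⟪p, v⟫) :
    gp a g x = fderiv ℝ g x p := by
  simp only [gp, h, sum_inner_mul]

lemma continuous_lap {φ : E n → ℝ} (hφ : ContDiff ℝ (⊤ : ℕ∞) φ) : Continuous (Δ φ) := by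
  have h1 : ContDiff ℝ (⊤ : ℕ∞) (fderiv ℝ φ) := hφ.fderiv_right (by simp)
  have h2 : Continuous (fderiv ℝ (fderiv ℝ φ)) := h1.continuous_fderiv (by simp)
  have : Δ φ = fun z => ∑ i, fderiv ℝ (fderiv ℝ φ) z (bb n i) (bb n i) := funext (lap_eq (bb n) φ)
  rw [this]
  fun_prop

lemma contDiff_lap {φ : E n → ℝ} (hφ : ContDiff ℝ (⊤ : ℕ∞) φ) : ContDiff ℝ (⊤ : ℕ∞) (Δ φ) := by
  have h1 : ContDiff ℝ (⊤ : ℕ∞) (fderiv ℝ φ) := hφ.fderiv_right (by simp)
  have h2 : ContDiff ℝ (⊤ : ℕ∞) (fderiv ℝ (fderiv ℝ φ)) := h1.fderiv_right (by simp)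
  have : Δ φ = fun z => ∑ i, fderiv ℝ (fderiv ℝ φ) z (bb n i) (bb n i) := funext (lap_eq (bb n) φ)
  rw [this]
  fun_prop

lemma two_le_top : (2 : WithTop ℕ∞) ≤ ((⊤ : ℕ∞) : WithTop ℕ∞) :=
  WithTop.coe_le_coe.2 (le_top : (2 : ℕ∞) ≤ ⊤)

lemma cd2 {F : Type*} [NormedAddCommGroup F] [NormedSpace ℝ F] {G : Type*}
    [NormedAddCommGroup G] [NormedSpace ℝ G] {f : F → G} (h : ContDiff ℝ (⊤ : ℕ∞) f) (x : F) :
    ContDiffAt ℝ 2 f x := (h.of_le two_le_top).contDiffAt

/-- squared distance to `c` -/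
noncomputable def sd (c x : E n) : ℝ := ‖x - c‖ ^ 2

lemma sd_nonneg (c x : E n) : 0 ≤ sd c x := sq_nonneg _

lemma sd_pos {c x : E n} (h : x ≠ c) : 0 < sd c x := pow_pos (norm_pos_iff.2 (sub_ne_zero.2 h)) 2

lemma contDiff_sd (c : E n) {m : WithTop ℕ∞} : ContDiff ℝ m (sd c) :=
  (contDiff_id.sub contDiff_const).norm_sq ℝ

lemma hasFDerivAt_sd (c x : E n) : HasFDerivAt (sd c) ((2 : ℝ) • innerSL ℝ (x - c)) x := by
  refine (((hasFDerivAt_id x).sub_const c).norm_sq).congr_fderiv ?_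
  ext v
  simp

lemma fderiv_sd (c x v : E n) : fderiv ℝ (sd c) x v = ⟪(2 : ℝ) • (x - c), v⟫ := by
  rw [(hasFDerivAt_sd c x).fderiv, real_inner_smul_left]
  rfl

lemma d2_sd (c x v w : E n) : fderiv ℝ (fderiv ℝ (sd c)) x v w = 2 * ⟪v, w⟫ := by
  have e : fderiv ℝ (sd c) = fun y => (2 : ℝ) • innerSL ℝ (y - c) :=
    funext fun y => (hasFDerivAt_sd c y).fderiv
  have h := (((innerSL ℝ (E := E n)).hasFDerivAt (x := x - c)).comp x
      ((hasFDerivAt_id x).sub_const c)).const_smul (2 : ℝ)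
  rw [e]
  erw [h.fderiv]
  rfl

lemma lap_sd (c x : E n) : Δ (sd c) x = 2 * n := by
  simp only [lap_eq (bb n), d2_sd, real_inner_self_eq_norm_sq, (bb n).orthonormal.1]
  simp [mul_comm]

lemma gp_sd (c x : E n) (g : E n → ℝ) : gp (sd c) g x = 2 * fderiv ℝ g x (x - c) := by
  rw [gp_inner (fderiv_sd c x)]
  simp

end Pool.Agent.Work.MP_58debc_an.Ball
end

-- merged part: Pool.Agent.Work.MP_58debc_an.Energy
section
open Set Real MeasureTheory
open scoped Topology InnerProductSpace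

namespace Pool.Agent.Work.MP_58debc_an

lemma exists_riesz {V H : Type*} [AddCommGroup V] [Module ℝ V] [NormedAddCommGroup H]
    [InnerProductSpace ℝ H] [CompleteSpace H] (A : V →ₗ[ℝ] H) (l : V →ₗ[ℝ] ℝ) (C : ℝ)
    (h : ∀ v, |l v| ≤ C * ‖A v‖) : ∃ W : H, ∀ v, ⟪W, A v⟫_ℝ = l v := by
  have hker : LinearMap.ker A ≤ LinearMap.ker l := by
    intro v hv
    have := h v
    rw [LinearMap.mem_ker.1 hv, norm_zero, mul_zero, abs_nonpos_iff] at this
    exact this
  let g : LinearMap.range A →ₗ[ℝ] ℝ :=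
    ((LinearMap.ker A).liftQ l hker).comp (LinearMap.quotKerEquivRange A).symm.toLinearMap
  have hg : ∀ v, g ⟨A v, LinearMap.mem_range_self A v⟩ = l v := by
    intro v
    simp [g, LinearMap.quotKerEquivRange_symm_apply_image]
  let g' : StrongDual ℝ (LinearMap.range A) := g.mkContinuous C (by
    rintro ⟨_, v, rfl⟩
    rw [hg]; exact h v)
  obtain ⟨G, hG, -⟩ := exists_extension_norm_eq (LinearMap.range A) g'
  refine ⟨(InnerProductSpace.toDual ℝ H).symm G, fun v => ?_⟩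
  rw [InnerProductSpace.toDual_symm_apply]
  have := hG ⟨A v, LinearMap.mem_range_self A v⟩
  rw [← hg v]
  exact this

/-- Lebesgue measure on the coordinate rectangle -/
noncomputable def μQ : Measure (ℝ × ℝ) :=
  (volume.restrict (Ioo (-(π / 2)) (π / 2))).prod (volume.restrict (Ioo 0 π))

instance : IsFiniteMeasure μQ := by unfold μQ; infer_instance

lemma μQ_eq : μQ = volume.restrict (Ioo (-(π / 2)) (π / 2) ×ˢ Ioo 0 π) := by
  unfold μQ
  rw [Measure.prod_restrict]; rfl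

lemma ae_μQ : ∀ᵐ p ∂μQ, p ∈ Ioo (-(π / 2)) (π / 2) ×ˢ Ioo 0 π := by
  rw [μQ_eq]; exact ae_restrict_mem (measurableSet_Ioo.prod measurableSet_Ioo)

lemma bdd_μQ {G : ℝ × ℝ → ℝ} (hG : Continuous G) : ∃ C, ∀ᵐ p ∂μQ, ‖G p‖ ≤ C := by
  obtain ⟨C, hC⟩ := (isCompact_Icc.prod isCompact_Icc :
    IsCompact (Icc (-(π / 2)) (π / 2) ×ˢ Icc 0 π)).exists_bound_of_continuousOn hG.continuousOn
  refine ⟨C, ?_⟩
  filter_upwards [ae_μQ] with p hp
  exact hC p ⟨Ioo_subset_Icc_self hp.1, Ioo_subset_Icc_self hp.2⟩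

lemma memLp_μQ {G : ℝ × ℝ → ℝ} (hG : Continuous G) (p : ENNReal) : MemLp G p μQ := by
  obtain ⟨C, hC⟩ := bdd_μQ hG
  exact MemLp.of_bound hG.aestronglyMeasurable C hC

lemma int_μQ {G : ℝ × ℝ → ℝ} (hG : Continuous G) : Integrable G μQ :=
  memLp_one_iff_integrable.1 (memLp_μQ hG 1)

lemma int_mul_μQ {W G : ℝ × ℝ → ℝ} (hW : Integrable W μQ) (hG : Continuous G) :
    Integrable (fun p => W p * G p) μQ := by
  obtain ⟨C, hC⟩ := bdd_μQ hG
  exact hW.mul_bdd hG.aestronglyMeasurable hC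

lemma integral_μQ_left {G : ℝ × ℝ → ℝ} (hG : Continuous G) :
    ∫ p, G p ∂μQ = ∫ y in (0 : ℝ)..π, ∫ x in (-(π / 2))..(π / 2), G (x, y) := by
  have h := int_μQ hG
  unfold μQ at h ⊢
  rw [integral_prod_symm _ h, intervalIntegral.integral_of_le pi_pos.le,
    integral_Ioc_eq_integral_Ioo]
  congr 1
  ext y
  rw [intervalIntegral.integral_of_le (by linarith [pi_pos]), integral_Ioc_eq_integral_Ioo]

lemma integral_μQ_right {G : ℝ × ℝ → ℝ} (hG : Continuous G) :
    ∫ p, G p ∂μQ = ∫ x in (-(π / 2))..(π / 2), ∫ y in (0 : ℝ)..π, G (x, y) := by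
  have h := int_μQ hG
  unfold μQ at h ⊢
  rw [integral_prod _ h, intervalIntegral.integral_of_le (by linarith [pi_pos]),
    integral_Ioc_eq_integral_Ioo]
  congr 1
  ext y
  rw [intervalIntegral.integral_of_le pi_pos.le, integral_Ioc_eq_integral_Ioo]

/-- admissible test functions on the rectangle, with their partial derivatives -/
structure IsTest (Φ Φ1 Φ2 Φ11 Φ22 : ℝ × ℝ → ℝ) : Prop where
  c : Continuous Φ
  c1 : Continuous Φ1
  c2 : Continuous Φ2
  c11 : Continuous Φ11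
  c22 : Continuous Φ22
  d1 : ∀ x y, HasDerivAt (fun s => Φ (s, y)) (Φ1 (x, y)) x
  d11 : ∀ x y, HasDerivAt (fun s => Φ1 (s, y)) (Φ11 (x, y)) x
  d2 : ∀ x y, HasDerivAt (fun s => Φ (x, s)) (Φ2 (x, y)) y
  d22 : ∀ x y, HasDerivAt (fun s => Φ2 (x, s)) (Φ22 (x, y)) y
  bl : ∀ y, Φ (-(π / 2), y) = 0
  br : ∀ y, Φ (π / 2, y) = 0
  e0 : ∀ x, Φ (-x, 0) = Φ (x, 0)
  o0 : ∀ x, Φ2 (-x, 0) = -Φ2 (x, 0)
  eπ : ∀ x, Φ (-x, π) = Φ (x, π)
  oπ : ∀ x, Φ2 (-x, π) = -Φ2 (x, π)

lemma odd_integral (f : ℝ → ℝ) (a : ℝ) (h : ∀ x, f (-x) = -f x) : ∫ x in (-a)..a, f x = 0 := by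
  have h1 := intervalIntegral.integral_comp_neg (a := -a) (b := a) f
  simp only [h, neg_neg, intervalIntegral.integral_neg] at h1
  linarith

lemma IsTest.energy {Φ Φ1 Φ2 Φ11 Φ22 : ℝ × ℝ → ℝ} (h : IsTest Φ Φ1 Φ2 Φ11 Φ22) (B : ℝ → ℝ)
    (hB : Continuous B) (hB0 : ∀ t, 0 ≤ B t) :
    (1 / 16) * ∫ p, Φ p ^ 2 ∂μQ ≤ -∫ p, Φ p * (Φ11 p + Φ22 p - B p.2 * Φ p) ∂μQ := by
  have hc := h.c
  have hc1 := h.c1
  have hc2 := h.c2
  have hc11 := h.c11
  have hc22 := h.c22
  have i1 : ∫ p, (Φ1 p ^ 2 + Φ p * Φ11 p + (1 / 8) * (Φ p ^ 2 + 2 * p.1 * Φ p * Φ1 p)) ∂μQ = 0 := by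
    rw [integral_μQ_left (by fun_prop)]
    have : ∀ y, ∫ x in (-(π / 2))..(π / 2), (Φ1 (x, y) ^ 2 + Φ (x, y) * Φ11 (x, y) +
        (1 / 8) * (Φ (x, y) ^ 2 + 2 * x * Φ (x, y) * Φ1 (x, y))) = 0 := by
      intro y
      rw [intervalIntegral.integral_eq_sub_of_hasDerivAt
        (f := fun x => Φ (x, y) * Φ1 (x, y) + (1 / 8) * (x * (Φ (x, y) * Φ (x, y))))]
      · simp [h.bl, h.br]
      · intro x _
        refine HasDerivAt.congr_deriv (((h.d1 x y).mul (h.d11 x y)).add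
          (((hasDerivAt_id x).mul ((h.d1 x y).mul (h.d1 x y))).const_mul (1 / 8))) ?_
        simp only [id, Pi.mul_apply]
        ring
      · exact Continuous.intervalIntegrable (by fun_prop) _ _
    simp only [this]
    simp
  have i2 : ∫ p, (Φ2 p ^ 2 + Φ p * Φ22 p) ∂μQ = 0 := by
    rw [integral_μQ_right (by fun_prop)]
    have : ∀ x, ∫ y in (0 : ℝ)..π, (Φ2 (x, y) ^ 2 + Φ (x, y) * Φ22 (x, y)) =
        Φ (x, π) * Φ2 (x, π) - Φ (x, 0) * Φ2 (x, 0) := by
      intro x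
      rw [intervalIntegral.integral_eq_sub_of_hasDerivAt
        (f := fun y => Φ (x, y) * Φ2 (x, y))]
      · intro y _
        refine HasDerivAt.congr_deriv ((h.d2 x y).mul (h.d22 x y)) ?_
        ring
      · exact Continuous.intervalIntegrable (by fun_prop) _ _
    simp only [this]
    refine odd_integral _ _ fun x => ?_
    rw [h.e0, h.o0, h.eπ, h.oπ]; ring
  have i3 : ∫ p, ((1 / 16) * Φ p ^ 2 + Φ p * (Φ11 p + Φ22 p - B p.2 * Φ p)) ∂μQ ≤
      ∫ p, ((Φ1 p ^ 2 + Φ p * Φ11 p + (1 / 8) * (Φ p ^ 2 + 2 * p.1 * Φ p * Φ1 p)) +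
        (Φ2 p ^ 2 + Φ p * Φ22 p)) ∂μQ := by
    refine integral_mono_ae (int_μQ (by fun_prop)) (int_μQ (by fun_prop)) ?_
    filter_upwards [ae_μQ] with p hp
    have hx : p.1 ^ 2 ≤ 4 := by
      have := hp.1.1
      have := hp.1.2
      have := pi_le_four
      nlinarith
    have := hB0 p.2
    nlinarith [sq_nonneg (Φ1 p + p.1 * Φ p / 8), sq_nonneg (Φ2 p), sq_nonneg (Φ p),
      mul_nonneg this (sq_nonneg (Φ p)), mul_nonneg (sub_nonneg.2 hx) (sq_nonneg (Φ p))]
  rw [integral_add (int_μQ (by fun_prop)) (int_μQ (by fun_prop)),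
    integral_add (int_μQ (by fun_prop)) (int_μQ (by fun_prop)), i1, i2, integral_const_mul] at i3
  linarith

lemma inner_toLp {f g : ℝ × ℝ → ℝ} (hf : MemLp f 2 μQ) (hg : MemLp g 2 μQ) :
    ⟪hf.toLp f, hg.toLp g⟫_ℝ = ∫ p, f p * g p ∂μQ := by
  rw [L2.inner_def]
  refine integral_congr_ae ?_
  filter_upwards [hf.coeFn_toLp, hg.coeFn_toLp] with p h1 h2
  rw [h1, h2]
  simp [mul_comm]

/-- the space of test data -/
def testSpace : Submodule ℝ (Fin 5 → ℝ × ℝ → ℝ) where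
  carrier := {v | IsTest (v 0) (v 1) (v 2) (v 3) (v 4)}
  add_mem' := by
    intro a b ha hb
    exact ⟨ha.c.add hb.c, ha.c1.add hb.c1, ha.c2.add hb.c2, ha.c11.add hb.c11, ha.c22.add hb.c22,
      fun x y => (ha.d1 x y).add (hb.d1 x y), fun x y => (ha.d11 x y).add (hb.d11 x y),
      fun x y => (ha.d2 x y).add (hb.d2 x y), fun x y => (ha.d22 x y).add (hb.d22 x y),
      fun y => by simp [ha.bl, hb.bl], fun y => by simp [ha.br, hb.br],
      fun x => by simp [ha.e0, hb.e0], fun x => by simp [ha.o0, hb.o0, add_comm],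
      fun x => by simp [ha.eπ, hb.eπ], fun x => by simp [ha.oπ, hb.oπ, add_comm]⟩
  zero_mem' :=
    ⟨continuous_const, continuous_const, continuous_const, continuous_const, continuous_const,
      fun x _ => hasDerivAt_const x _, fun x _ => hasDerivAt_const x _,
      fun _ y => hasDerivAt_const y _, fun _ y => hasDerivAt_const y _,
      fun _ => rfl, fun _ => rfl, fun _ => rfl, fun _ => by simp, fun _ => rfl, fun _ => by simp⟩
  smul_mem' := by
    intro c a ha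
    exact ⟨ha.c.const_smul c, ha.c1.const_smul c, ha.c2.const_smul c, ha.c11.const_smul c,
      ha.c22.const_smul c,
      fun x y => (ha.d1 x y).const_smul c, fun x y => (ha.d11 x y).const_smul c,
      fun x y => (ha.d2 x y).const_smul c, fun x y => (ha.d22 x y).const_smul c,
      fun y => by simp [ha.bl], fun y => by simp [ha.br],
      fun x => by simp [ha.e0], fun x => by simp [ha.o0],
      fun x => by simp [ha.eπ], fun x => by simp [ha.oπ]⟩

/-- weak solvability of the Dirichlet problem on the rectangle -/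
lemma exists_weak (B : ℝ → ℝ) (hB : Continuous B) (hB0 : ∀ t, 0 ≤ B t) (F : ℝ × ℝ → ℝ)
    (hF : MemLp F 2 μQ) :
    ∃ W : ℝ × ℝ → ℝ, Measurable W ∧ MemLp W 2 μQ ∧ ∀ Φ Φ1 Φ2 Φ11 Φ22 : ℝ × ℝ → ℝ,
      IsTest Φ Φ1 Φ2 Φ11 Φ22 →
      ∫ p, W p * (Φ11 p + Φ22 p - B p.2 * Φ p) ∂μQ = ∫ p, F p * Φ p ∂μQ := by
  have hL : ∀ v : testSpace, Continuous fun p : ℝ × ℝ => v.1 3 p + v.1 4 p - B p.2 * v.1 0 p := by
    intro v
    have h : IsTest (v.1 0) (v.1 1) (v.1 2) (v.1 3) (v.1 4) := v.2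
    exact (h.c11.add h.c22).sub ((hB.comp continuous_snd).mul h.c)
  have h0 : ∀ v : testSpace, Continuous (v.1 0) := fun v =>
    (show IsTest (v.1 0) (v.1 1) (v.1 2) (v.1 3) (v.1 4) from v.2).c
  let A : testSpace →ₗ[ℝ] Lp ℝ 2 μQ :=
    { toFun := fun v => (memLp_μQ (hL v) 2).toLp _
      map_add' := fun v w => by
        rw [← MemLp.toLp_add]
        refine MemLp.toLp_congr _ _ (Filter.Eventually.of_forall fun p => ?_)
        simp; ring
      map_smul' := fun c v => by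
        rw [RingHom.id_apply, ← MemLp.toLp_const_smul]
        refine MemLp.toLp_congr _ _ (Filter.Eventually.of_forall fun p => ?_)
        simp; ring }
  let A0 : testSpace →ₗ[ℝ] Lp ℝ 2 μQ :=
    { toFun := fun v => (memLp_μQ (h0 v) 2).toLp _
      map_add' := fun v w => by
        rw [← MemLp.toLp_add]
        rfl
      map_smul' := fun c v => by
        rw [RingHom.id_apply, ← MemLp.toLp_const_smul]
        rfl }
  let l : testSpace →ₗ[ℝ] ℝ := (innerₗ (Lp ℝ 2 μQ) (hF.toLp F)).comp A0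
  have hl : ∀ v, l v = ∫ p, F p * v.1 0 p ∂μQ := fun v => inner_toLp hF (memLp_μQ (h0 v) 2)
  have hA : ∀ v, ‖A0 v‖ ≤ 16 * ‖A v‖ := by
    intro v
    have e := IsTest.energy (show IsTest (v.1 0) (v.1 1) (v.1 2) (v.1 3) (v.1 4) from v.2) B hB hB0
    have e1 : ⟪A0 v, A0 v⟫_ℝ = ∫ p, v.1 0 p ^ 2 ∂μQ := by
      simp_rw [sq]
      exact inner_toLp (memLp_μQ (h0 v) 2) (memLp_μQ (h0 v) 2)
    have e2 : ⟪A0 v, A v⟫_ℝ = ∫ p, v.1 0 p * (v.1 3 p + v.1 4 p - B p.2 * v.1 0 p) ∂μQ :=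
      inner_toLp (memLp_μQ (h0 v) 2) (memLp_μQ (hL v) 2)
    rw [← e1, ← e2, real_inner_self_eq_norm_sq] at e
    have e3 := neg_le_of_abs_le (abs_real_inner_le_norm (A0 v) (A v))
    rcases eq_or_lt_of_le (norm_nonneg (A0 v)) with h | h
    · rw [← h]; positivity
    · nlinarith
  obtain ⟨W, hW⟩ := exists_riesz A l (‖hF.toLp F‖ * 16) fun v => by
    refine (abs_real_inner_le_norm (hF.toLp F) (A0 v)).trans ?_
    rw [mul_assoc]
    exact mul_le_mul_of_nonneg_left (hA v) (norm_nonneg _)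
  have hm := Lp.aestronglyMeasurable W
  refine ⟨hm.mk W, hm.stronglyMeasurable_mk.measurable, (Lp.memLp W).ae_eq hm.ae_eq_mk,
    fun Φ Φ1 Φ2 Φ11 Φ22 h => ?_⟩
  let v : testSpace := ⟨![Φ, Φ1, Φ2, Φ11, Φ22], h⟩
  have e := hW v
  rw [hl, L2.inner_def] at e
  refine Eq.trans (integral_congr_ae ?_) e
  filter_upwards [hm.ae_eq_mk, (memLp_μQ (hL v) 2).coeFn_toLp] with p h1 h2
  rw [← h1]
  have : (A v) p = Φ11 p + Φ22 p - B p.2 * Φ p := h2
  rw [this]
  simp [mul_comm]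

end Pool.Agent.Work.MP_58debc_an
end

-- merged part: Pool.Agent.Work.MP_58debc_an.B4
section
open Set Real MeasureTheory Laplacian InnerProductSpace Filter Metric Asymptotics
open scoped Topology RealInnerProductSpace

namespace Pool.Agent.Work.MP_58debc_an.Ball

variable {n : ℕ}

/-- Lebesgue measure on the unit ball -/
noncomputable abbrev mB (n : ℕ) : Measure (E n) := volume.restrict (ball (0 : E n) 1)

instance : IsFiniteMeasure (mB n) := isFiniteMeasure_restrict.2 measure_ball_lt_top.ne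

lemma ae_mB : ∀ᵐ x ∂mB n, x ∈ ball (0 : E n) 1 := ae_restrict_mem measurableSet_ball

lemma bdd_mB {G : E n → ℝ} (hG : Continuous G) : ∃ C, ∀ᵐ x ∂mB n, ‖G x‖ ≤ C := by
  obtain ⟨C, hC⟩ := (isCompact_closedBall (0 : E n) 1).exists_bound_of_continuousOn hG.continuousOn
  exact ⟨C, ae_mB.mono fun x hx => hC x (ball_subset_closedBall hx)⟩

lemma memLp_mB {G : E n → ℝ} (hG : Continuous G) (p : ENNReal) : MemLp G p (mB n) := by
  obtain ⟨C, hC⟩ := bdd_mB hG
  exact MemLp.of_bound hG.aestronglyMeasurable C hC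

lemma int_mB {G : E n → ℝ} (hG : Continuous G) : Integrable G (mB n) :=
  memLp_one_iff_integrable.1 (memLp_mB hG 1)

lemma int_mul_mB {W G : E n → ℝ} (hW : Integrable W (mB n)) (hG : Continuous G) :
    Integrable (fun x => W x * G x) (mB n) := by
  obtain ⟨C, hC⟩ := bdd_mB hG
  exact hW.mul_bdd hG.aestronglyMeasurable hC

lemma div_zero {a g : E n → ℝ} (ha : ContDiff ℝ (⊤ : ℕ∞) a) (hg : ContDiff ℝ (⊤ : ℕ∞) g)
    (a0 : ∀ x ∈ sphere (0 : E n) 1, a x = 0) (g0 : ∀ x ∈ sphere (0 : E n) 1, g x = 0) (v : E n) :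
    ∫ x, fderiv ℝ (fun y => a y * g y) x v ∂mB n = 0 := by
  have hs : ContDiff ℝ (⊤ : ℕ∞) fun y => a y * g y := ha.mul hg
  have hd : ∀ x, HasFDerivAt ((ball (0 : E n) 1).indicator fun y => a y * g y)
      ((ball (0 : E n) 1).indicator (fderiv ℝ fun y => a y * g y) x) x := by
    intro x
    rcases lt_trichotomy ‖x‖ 1 with h | h | h
    · have hx : x ∈ ball (0 : E n) 1 := mem_ball_zero_iff.2 h
      rw [indicator_of_mem hx]
      refine (hs.differentiable (by simp) x).hasFDerivAt.congr_of_eventuallyEq ?_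
      filter_upwards [isOpen_ball.mem_nhds hx] with y hy
      exact indicator_of_mem hy _
    · have hx : x ∉ ball (0 : E n) 1 := by simp [h]
      have hx' : x ∈ sphere (0 : E n) 1 := mem_sphere_zero_iff_norm.2 h
      rw [indicator_of_notMem hx]
      have d := (ha.differentiable (by simp) x).hasFDerivAt.mul
        (hg.differentiable (by simp) x).hasFDerivAt
      rw [a0 x hx', g0 x hx', zero_smul, zero_smul, add_zero] at d
      rw [hasFDerivAt_iff_isLittleO] at d ⊢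
      refine (IsBigO.of_norm_le fun y => ?_).trans_isLittleO d.norm_left
      simp only [indicator_of_notMem hx, Pi.mul_apply, a0 x hx', zero_mul, sub_zero, zero_apply]
      exact norm_indicator_le_norm_self _ _
    · have hx : x ∉ ball (0 : E n) 1 := by simp [h.le]
      rw [indicator_of_notMem hx]
      refine (hasFDerivAt_const (0 : ℝ) x).congr_of_eventuallyEq ?_
      filter_upwards [(isOpen_lt continuous_const continuous_norm).mem_nhds h] with y hy
      exact indicator_of_notMem (by simpa using le_of_lt hy) _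
  have c1 : Continuous fun x => fderiv ℝ (fun y => a y * g y) x v :=
    (hs.continuous_fderiv (by simp)).clm_apply continuous_const
  have e : ∀ x, (ball (0 : E n) 1).indicator (fderiv ℝ fun y => a y * g y) x v =
      (ball (0 : E n) 1).indicator (fun x => fderiv ℝ (fun y => a y * g y) x v) x := by
    intro x
    by_cases hx : x ∈ ball (0 : E n) 1
    · simp [hx]
    · simp [hx]
  have key := integral_bilinear_hasFDerivAt_right_eq_neg_left_of_integrable (μ := volume)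
    (f := fun _ : E n => (1 : ℝ)) (f' := fun _ => 0)
    (g := (ball (0 : E n) 1).indicator fun y => a y * g y)
    (g' := (ball (0 : E n) 1).indicator (fderiv ℝ fun y => a y * g y)) (v := v)
    (B := ContinuousLinearMap.mul ℝ ℝ) (by simp)
    (by simpa [e] using (integrable_indicator_iff measurableSet_ball).2 (int_mB c1))
    (by simpa using (integrable_indicator_iff measurableSet_ball).2 (int_mB hs.continuous))
    (fun x _ => hasFDerivAt_const _ _) (fun x _ => hd x)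
  simpa [e, integral_indicator measurableSet_ball] using key

lemma energy (hn : 0 < n) {φ q : E n → ℝ} (hφ : ContDiff ℝ (⊤ : ℕ∞) φ)
    (h0 : ∀ x ∈ sphere (0 : E n) 1, φ x = 0) (hq : Continuous q) (hq0 : ∀ x, 0 ≤ q x) :
    ∫ x, φ x * φ x ∂mB n ≤ ∫ x, (Δ φ x - q x * φ x) * (Δ φ x - q x * φ x) ∂mB n := by
  have hD : ContDiff ℝ (⊤ : ℕ∞) (fderiv ℝ φ) := hφ.fderiv_right (by simp)
  have hr : ContDiff ℝ (⊤ : ℕ∞) fun y : E n => 1 - sd 0 y := contDiff_const.sub (contDiff_sd 0)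
  have r0 : ∀ x ∈ sphere (0 : E n) 1, 1 - sd 0 x = 0 := fun x hx => by
    simp [sd, mem_sphere_zero_iff_norm.1 hx]
  have hA : ∀ i, ContDiff ℝ (⊤ : ℕ∞) fun y => φ y * fderiv ℝ φ y (bb n i) := fun i =>
    hφ.mul (hD.clm_apply contDiff_const)
  have hB : ∀ i, ContDiff ℝ (⊤ : ℕ∞) fun y => ⟪bb n i, y⟫ * φ y := fun i =>
    (contDiff_const.inner ℝ contDiff_id).mul hφ
  have pt : ∀ x, ∑ i, (fderiv ℝ (fun y => (1 - sd 0 y) * (φ y * fderiv ℝ φ y (bb n i))) x (bb n i)
      + fderiv ℝ (fun y => φ y * (⟪bb n i, y⟫ * φ y)) x (bb n i)) =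
      (1 - sd 0 x) * (φ x * Δ φ x) + (1 - sd 0 x) * gp φ φ x + n * (φ x * φ x) := by
    intro x
    have d0 := (hφ.differentiable (by simp) x).hasFDerivAt
    have d1 := (hasFDerivAt_sd 0 x).const_sub 1
    rw [lap_eq (bb n), gp, Finset.mul_sum, Finset.mul_sum, Finset.mul_sum,
      show (n : ℝ) * (φ x * φ x) = ∑ _i : Fin n, φ x * φ x by simp, ← Finset.sum_add_distrib,
      ← Finset.sum_add_distrib]
    refine Finset.sum_congr rfl fun i _ => ?_
    have d2 := (diff_fderiv (cd2 hφ x)).clm_apply (hasFDerivAt_const (bb n i) x)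
    have d3 := (innerSL ℝ (bb n i)).hasFDerivAt (x := x)
    have e1 := (d1.mul (d0.mul d2)).fderiv
    have e2 := (d0.mul (d3.mul d0)).fderiv
    erw [e1, e2]
    have o : ⟪bb n i, bb n i⟫ = 1 := by
      rw [real_inner_self_eq_norm_sq, (bb n).orthonormal.1]; simp
    simp only [add_apply, smul_apply, smul_eq_mul, Pi.mul_apply, neg_apply, innerSL_apply_apply,
      sub_zero, o, ContinuousLinearMap.comp_zero, zero_add, ContinuousLinearMap.flip_apply,
      real_inner_comm x (bb n i)]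
    ring
  have c1 : ∀ i, Continuous fun x => fderiv ℝ (fun y => (1 - sd 0 y) *
      (φ y * fderiv ℝ φ y (bb n i))) x (bb n i) := fun i =>
    ((hr.mul (hA i)).continuous_fderiv (by simp)).clm_apply continuous_const
  have c2 : ∀ i, Continuous fun x => fderiv ℝ (fun y => φ y * (⟪bb n i, y⟫ * φ y)) x (bb n i) :=
    fun i => ((hφ.mul (hB i)).continuous_fderiv (by simp)).clm_apply continuous_const
  have tot : ∫ x, ((1 - sd 0 x) * (φ x * Δ φ x) + (1 - sd 0 x) * gp φ φ x + n * (φ x * φ x))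
      ∂mB n = 0 := by
    simp only [← pt]
    rw [integral_finsetSum _ fun i _ => int_mB (by fun_prop)]
    refine Finset.sum_eq_zero fun i _ => ?_
    rw [integral_add (int_mB (c1 i)) (int_mB (c2 i)),
      div_zero hr (hA i) r0 (fun x hx => by simp [h0 x hx]),
      div_zero hφ (hB i) h0 (fun x hx => by simp [h0 x hx]), add_zero]
  have cL := continuous_lap hφ
  have cφ := hφ.continuous
  have cT : Continuous fun x => (1 - sd 0 x) * (φ x * Δ φ x) + (1 - sd 0 x) * gp φ φ x +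
      n * (φ x * φ x) := by
    simp only [← pt]
    exact continuous_finsetSum _ fun i _ => (c1 i).add (c2 i)
  have le : ∫ x, φ x * φ x ∂mB n ≤ ∫ x, ((Δ φ x - q x * φ x) * (Δ φ x - q x * φ x) +
      2 * ((1 - sd 0 x) * (φ x * Δ φ x) + (1 - sd 0 x) * gp φ φ x + n * (φ x * φ x))) ∂mB n := by
    refine integral_mono_ae (int_mB (by fun_prop)) (int_mB (by fun_prop)) ?_
    filter_upwards [ae_mB] with x hx
    have r1 : 0 ≤ 1 - sd 0 x := by
      have := mem_ball_zero_iff.1 hx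
      rw [sd, sub_zero]
      nlinarith [norm_nonneg x]
    have r2 := sd_nonneg 0 x
    have g1 : 0 ≤ gp φ φ x := Finset.sum_nonneg fun i _ => mul_self_nonneg _
    have n1 : (1 : ℝ) ≤ n := by exact_mod_cast hn
    set r := 1 - sd 0 x
    set L := Δ φ x - q x * φ x with hL
    have e : Δ φ x = L + q x * φ x := by rw [hL]; ring
    rw [e]
    have a1 := mul_nonneg r1 g1
    have a2 := mul_nonneg r1 (mul_nonneg (hq0 x) (mul_self_nonneg (φ x)))
    have a3 := mul_nonneg (sub_nonneg.2 n1) (mul_self_nonneg (φ x))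
    have a4 : 0 ≤ (1 - r * r) * (φ x * φ x) :=
      mul_nonneg (by nlinarith) (mul_self_nonneg _)
    nlinarith [mul_self_nonneg (L + r * φ x)]
  rwa [integral_add (int_mB (by fun_prop)) (int_mB (by fun_prop)), integral_const_mul, tot,
    mul_zero, add_zero] at le

lemma inner_toLp {f g : E n → ℝ} (hf : MemLp f 2 (mB n)) (hg : MemLp g 2 (mB n)) :
    ⟪hf.toLp f, hg.toLp g⟫ = ∫ x, f x * g x ∂mB n := by
  rw [L2.inner_def]
  refine integral_congr_ae ?_
  filter_upwards [hf.coeFn_toLp, hg.coeFn_toLp] with p h1 h2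
  rw [h1, h2]
  simp [mul_comm]

/-- smooth functions vanishing on the sphere -/
def test0 (n : ℕ) : Submodule ℝ (E n → ℝ) where
  carrier := {φ | ContDiff ℝ (⊤ : ℕ∞) φ ∧ ∀ x ∈ sphere (0 : E n) 1, φ x = 0}
  add_mem' := fun h1 h2 => ⟨h1.1.add h2.1, fun x hx => by simp [h1.2 x hx, h2.2 x hx]⟩
  zero_mem' := ⟨contDiff_const, fun _ _ => rfl⟩
  smul_mem' := fun c _ h => ⟨contDiff_const.smul h.1, fun x hx => by simp [h.2 x hx]⟩

/-- very weak solvability of the Dirichlet problem in the ball -/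
lemma exists_weak (hn : 0 < n) {q : E n → ℝ} (hq : Continuous q) (hq0 : ∀ x, 0 ≤ q x)
    {F : E n → ℝ} (hF : MemLp F 2 (mB n)) :
    ∃ W : E n → ℝ, MemLp W 2 (mB n) ∧ ∀ φ : E n → ℝ, ContDiff ℝ (⊤ : ℕ∞) φ →
      (∀ x ∈ sphere (0 : E n) 1, φ x = 0) →
      ∫ x, W x * (Δ φ x - q x * φ x) ∂mB n = ∫ x, F x * φ x ∂mB n := by
  have hL : ∀ v : test0 n, Continuous fun x => Δ v.1 x - q x * v.1 x := fun v =>
    (continuous_lap v.2.1).sub (hq.mul v.2.1.continuous)
  have h0 : ∀ v : test0 n, Continuous v.1 := fun v => v.2.1.continuous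
  let A : test0 n →ₗ[ℝ] Lp ℝ 2 (mB n) :=
    { toFun := fun v => (memLp_mB (hL v) 2).toLp _
      map_add' := fun v w => by
        rw [← MemLp.toLp_add]
        refine MemLp.toLp_congr _ _ (Eventually.of_forall fun p => ?_)
        have := (cd2 v.2.1 p).laplacian_add (cd2 w.2.1 p)
        simp only [Submodule.coe_add, this, Pi.add_apply]
        ring
      map_smul' := fun c v => by
        rw [RingHom.id_apply, ← MemLp.toLp_const_smul]
        refine MemLp.toLp_congr _ _ (Eventually.of_forall fun p => ?_)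
        have := laplacian_smul c (cd2 v.2.1 p)
        simp only [Submodule.coe_smul, this, Pi.smul_apply, smul_eq_mul]
        ring }
  let A0 : test0 n →ₗ[ℝ] Lp ℝ 2 (mB n) :=
    { toFun := fun v => (memLp_mB (h0 v) 2).toLp _
      map_add' := fun v w => by
        rw [← MemLp.toLp_add]
        rfl
      map_smul' := fun c v => by
        rw [RingHom.id_apply, ← MemLp.toLp_const_smul]
        rfl }
  let l : test0 n →ₗ[ℝ] ℝ := (innerₗ (Lp ℝ 2 (mB n)) (hF.toLp F)).comp A0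
  have hl : ∀ v, l v = ∫ p, F p * v.1 p ∂mB n := fun v => inner_toLp hF (memLp_mB (h0 v) 2)
  have hA : ∀ v, ‖A0 v‖ ≤ ‖A v‖ := by
    intro v
    have e := energy hn v.2.1 v.2.2 hq hq0
    have e1 : ⟪A0 v, A0 v⟫ = _ := inner_toLp (memLp_mB (h0 v) 2) (memLp_mB (h0 v) 2)
    have e2 : ⟪A v, A v⟫ = _ := inner_toLp (memLp_mB (hL v) 2) (memLp_mB (hL v) 2)
    rw [← e1, ← e2, real_inner_self_eq_norm_sq, real_inner_self_eq_norm_sq] at e
    exact (pow_le_pow_iff_left₀ (norm_nonneg _) (norm_nonneg _) two_ne_zero).1 e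
  obtain ⟨W, hW⟩ := exists_riesz A l ‖hF.toLp F‖ fun v =>
    (abs_real_inner_le_norm (hF.toLp F) (A0 v)).trans
      (mul_le_mul_of_nonneg_left (hA v) (norm_nonneg _))
  refine ⟨W, Lp.memLp W, fun φ h1 h2 => ?_⟩
  let v : test0 n := ⟨φ, h1, h2⟩
  have e := hW v
  rw [hl, L2.inner_def] at e
  refine Eq.trans (integral_congr_ae ?_) e
  filter_upwards [(memLp_mB (hL v) 2).coeFn_toLp] with p h2
  have : (A v) p = Δ φ p - q p * φ p := h2
  rw [this]
  simp [mul_comm]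

end Pool.Agent.Work.MP_58debc_an.Ball
end

-- merged part: Pool.Agent.Work.MP_58debc_an.B2
section
open Set Real MeasureTheory Laplacian InnerProductSpace Filter
open scoped Topology RealInnerProductSpace

namespace Pool.Agent.Work.MP_58debc_an.Ball

variable {n : ℕ}

/-- reflection in the hyperplane orthogonal to `e` -/
noncomputable def rf (e : E n) : E n ≃ₗᵢ[ℝ] E n := (ℝ ∙ e)ᗮ.reflection

lemma rf_apply {e : E n} (he : ‖e‖ = 1) (y : E n) : rf e y = y - (2 * ⟪e, y⟫) • e := by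
  unfold rf
  rw [Submodule.reflection_orthogonal_apply, Submodule.reflection_singleton_apply, he]
  simp [two_smul, two_mul, add_smul]

lemma rf_rf (e y : E n) : rf e (rf e y) = y := Submodule.reflection_reflection _ y

/-- smooth and homogeneous of degree `k` -/
structure Hom (k : ℕ) (P : E n → ℝ) : Prop where
  sm : ContDiff ℝ (⊤ : ℕ∞) P
  hm : ∀ (t : ℝ) (y : E n), P (t • y) = t ^ k * P y

/-- odd under the reflection -/
def Od (e : E n) (P : E n → ℝ) : Prop := ∀ y, P (rf e y) = -P y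

lemma Hom.euler {k : ℕ} {P : E n → ℝ} (h : Hom k P) (y : E n) : fderiv ℝ P y y = k * P y := by
  have d : HasFDerivAt P (fderiv ℝ P y) ((1 : ℝ) • y) := by
    rw [one_smul]; exact (h.sm.differentiable (by simp) y).hasFDerivAt
  have h1 := d.comp_hasDerivAt (1 : ℝ) ((hasDerivAt_id (1 : ℝ)).smul_const y)
  have h2 := (hasDerivAt_pow k (1 : ℝ)).mul_const (P y)
  have e : (P ∘ fun t : ℝ => id t • y) = fun t : ℝ => t ^ k * P y := funext fun t => h.hm t y
  rw [e] at h1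
  simpa using h1.unique h2

lemma Hom.euler2 {k : ℕ} {P : E n → ℝ} (h : Hom k P) (y v : E n) :
    fderiv ℝ (fderiv ℝ P) y v y = (k - 1) * fderiv ℝ P y v := by
  have h1 := (diff_fderiv (cd2 h.sm y)).clm_apply (hasFDerivAt_id y)
  have h2 := (h.sm.differentiable (by simp) y).hasFDerivAt.const_mul (k : ℝ)
  have e : (fun z => fderiv ℝ P z (id z)) = fun z => (k : ℝ) * P z := funext fun z => h.euler z
  rw [e] at h1
  have := congrArg (fun L => L v) (h1.unique h2)
  simp at this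
  linarith

lemma d2_clm (L : E n →L[ℝ] E n) (x : E n) : fderiv ℝ (fderiv ℝ L) x = 0 := by
  have : fderiv ℝ L = fun _ => L := funext fun y => L.fderiv
  rw [this]
  simp

lemma lap_dil {P : E n → ℝ} (h : ContDiff ℝ (⊤ : ℕ∞) P) (t : ℝ) (y : E n) :
    Δ (fun z => P (t • z)) y = t ^ 2 * Δ P (t • y) := by
  let L : E n →L[ℝ] E n := t • ContinuousLinearMap.id ℝ (E n)
  have e : (fun z => P (t • z)) = fun z => P (L z) := rfl
  rw [e, lap_eq (bb n), lap_eq (bb n), Finset.mul_sum]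
  refine Finset.sum_congr rfl fun i _ => ?_
  rw [d2_comp L.contDiff.contDiffAt (cd2 h _), d2_clm, L.fderiv]
  simp [L]
  ring

lemma lap_rf {P : E n → ℝ} (h : ContDiff ℝ (⊤ : ℕ∞) P) (e y : E n) :
    Δ (fun z => P (rf e z)) y = Δ P (rf e y) := by
  let L : E n →L[ℝ] E n := (rf e).toContinuousLinearEquiv
  have e1 : (fun z => P (rf e z)) = fun z => P (L z) := rfl
  rw [e1, lap_eq (bb n), lap_eq ((bb n).map (rf e))]
  refine Finset.sum_congr rfl fun i _ => ?_
  rw [d2_comp L.contDiff.contDiffAt (cd2 h _), d2_clm, L.fderiv]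
  simp [L]

lemma Hom.lap_scale {k : ℕ} {P : E n → ℝ} (h : Hom k P) (t : ℝ) (y : E n) :
    t ^ 2 * Δ P (t • y) = t ^ k * Δ P y := by
  rw [← lap_dil h.sm]
  have e : (fun z => P (t • z)) = (t ^ k) • P := funext fun z => h.hm t z
  rw [e, laplacian_smul _ (cd2 h.sm y)]
  rfl

lemma ext_ne_zero {f g : ℝ → ℝ} (hf : Continuous f) (hg : Continuous g)
    (h : ∀ t, t ≠ 0 → f t = g t) (t : ℝ) : f t = g t :=
  congrFun (Continuous.ext_on (dense_compl_singleton (0 : ℝ)) hf hg fun s hs => h s hs) t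

lemma Hom.lap {k : ℕ} {P : E n → ℝ} (h : Hom (k + 2) P) : Hom k (Δ P) := by
  refine ⟨contDiff_lap h.sm, fun t y => ?_⟩
  have c := continuous_lap h.sm
  refine ext_ne_zero (f := fun t => Δ P (t • y)) (g := fun t => t ^ k * Δ P y) (by fun_prop)
    (by fun_prop) (fun s hs => ?_) t
  have := h.lap_scale s y
  refine mul_left_cancel₀ (pow_ne_zero 2 hs) ?_
  rw [this]; ring

lemma Hom.lap_zero {P : E n → ℝ} (h : Hom 0 P) (y : E n) : Δ P y = 0 := by
  simpa using (h.lap_scale 0 y).symm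

lemma Hom.lap_one {P : E n → ℝ} (h : Hom 1 P) (y : E n) : Δ P y = 0 := by
  have c := continuous_lap h.sm
  have := ext_ne_zero (f := fun t => t * Δ P (t • y)) (g := fun _ => Δ P y) (by fun_prop)
    (by fun_prop) (fun s hs => by
      have := h.lap_scale s y
      refine mul_left_cancel₀ hs ?_
      linear_combination this) 0
  simpa using this.symm

lemma Od.lap {e : E n} {P : E n → ℝ} (hs : ContDiff ℝ (⊤ : ℕ∞) P) (h : Od e P) : Od e (Δ P) := by
  intro y
  rw [← lap_rf hs]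
  have e1 : (fun z => P (rf e z)) = -P := funext h
  rw [e1, laplacian_neg]
  rfl

lemma sd_zero (y : E n) : sd 0 y = ‖y‖ ^ 2 := by simp [sd]

lemma lap_pow_mul {k : ℕ} {P : E n → ℝ} (h : Hom k P) (hz : ∀ y, Δ P y = 0) (j : ℕ) (y : E n) :
    Δ (fun z => sd 0 z ^ (j + 1) * P z) y =
      2 * (j + 1) * (n + 2 * k + 2 * j) * (sd 0 y ^ j * P y) := by
  have hs : ContDiffAt ℝ 2 (sd (0 : E n)) y := (contDiff_sd 0).contDiffAt
  have d1 : ∀ r : ℝ, HasDerivAt (fun r : ℝ => r ^ (j + 1)) ((j + 1) * r ^ j) r := fun r => by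
    simpa using hasDerivAt_pow (j + 1) r
  have d2 := (hasDerivAt_pow j (sd 0 y)).const_mul ((j : ℝ) + 1)
  rw [lap_mul (hs.pow _) (cd2 h.sm y), hz,
    lap_scal (F := fun r => r ^ (j + 1)) hs (Eventually.of_forall d1) d2,
    gp_scal (F := fun r => r ^ (j + 1)) (hs.differentiableAt (by simp)) (d1 _), gp_sd, gp_sd,
    lap_sd, fderiv_sd, sub_zero, h.euler, real_inner_smul_left, real_inner_self_eq_norm_sq,
    ← sd_zero]
  rcases j with _ | j
  · simp; ring
  · simp; ring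

lemma Hom.pow_mul {k : ℕ} {P : E n → ℝ} (h : Hom k P) (j : ℕ) :
    Hom (k + 2 * j) fun z => sd 0 z ^ j * P z := by
  refine ⟨((contDiff_sd 0).pow j).mul h.sm, fun t y => ?_⟩
  rw [h.hm, sd_zero, sd_zero, norm_smul, mul_pow, Real.norm_eq_abs, sq_abs]
  ring

lemma Od.pow_mul {e : E n} {P : E n → ℝ} (h : Od e P) (j : ℕ) :
    Od e fun z => sd 0 z ^ j * P z := by
  intro y
  simp only [h y, sd_zero, (rf e).norm_map]
  ring

/-- generators of the Fischer decomposition -/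
def Gen (e : E n) (m : ℕ) : Set (E n → ℝ) :=
  {g | ∃ j k P, k + 2 * j = m ∧ Hom k P ∧ Od e P ∧ (∀ y, Δ P y = 0) ∧
    g = fun z => sd 0 z ^ j * P z}

lemma solve_span (hn : 0 < n) {e : E n} {m : ℕ} {g : E n → ℝ}
    (hg : g ∈ Submodule.span ℝ (Gen e m)) :
    ∃ G ∈ Submodule.span ℝ (Gen e (m + 2)), Hom (m + 2) G ∧ Od e G ∧ ∀ y, Δ G y = g y := by
  induction hg using Submodule.span_induction with
  | mem g hg =>
    obtain ⟨j, k, P, rfl, hP, ho, hz, rfl⟩ := hg
    have hc : (2 * ((j : ℝ) + 1) * (n + 2 * k + 2 * j)) ≠ 0 := by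
      have : (0 : ℝ) < n := by exact_mod_cast hn
      positivity
    have hH := hP.pow_mul (j + 1)
    refine ⟨(2 * ((j : ℝ) + 1) * (n + 2 * k + 2 * j))⁻¹ • fun z => sd 0 z ^ (j + 1) * P z,
      Submodule.smul_mem _ _ (Submodule.subset_span ⟨j + 1, k, P, by ring, hP, ho, hz, rfl⟩),
      ⟨contDiff_const.smul hH.sm, fun t y => ?_⟩, fun y => ?_, fun y => ?_⟩
    · have := hH.hm t y
      simp only [Pi.smul_apply, smul_eq_mul] at this ⊢
      rw [this]; ring
    · have := ho.pow_mul (j + 1) y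
      simp only [Pi.smul_apply, smul_eq_mul] at this ⊢
      rw [this]; ring
    · rw [laplacian_smul _ (cd2 hH.sm y), lap_pow_mul hP hz, smul_eq_mul]
      field_simp
  | zero => exact ⟨0, Submodule.zero_mem _, ⟨contDiff_const, by simp⟩, fun y => by simp,
      fun y => congrFun (laplacian_const (E := E n) (c := (0 : ℝ))) y⟩
  | add g1 g2 _ _ h1 h2 =>
    obtain ⟨G1, m1, a1, o1, z1⟩ := h1
    obtain ⟨G2, m2, a2, o2, z2⟩ := h2
    refine ⟨G1 + G2, Submodule.add_mem _ m1 m2, ⟨a1.sm.add a2.sm, fun t y => ?_⟩, fun y => ?_,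
      fun y => ?_⟩
    · simp only [Pi.add_apply, a1.hm, a2.hm]; ring
    · simp only [Pi.add_apply, o1 y, o2 y]; ring
    · rw [(cd2 a1.sm y).laplacian_add (cd2 a2.sm y), z1, z2]; rfl
  | smul c g _ h1 =>
    obtain ⟨G, m1, a1, o1, z1⟩ := h1
    refine ⟨c • G, Submodule.smul_mem _ _ m1, ⟨contDiff_const.smul a1.sm, fun t y => ?_⟩,
      fun y => ?_, fun y => ?_⟩
    · simp only [Pi.smul_apply, smul_eq_mul, a1.hm]; ring
    · simp only [Pi.smul_apply, smul_eq_mul, o1 y]; ring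
    · rw [laplacian_smul _ (cd2 a1.sm y), z1]; rfl

lemma harm_mem {e : E n} {m : ℕ} {P : E n → ℝ} (h : Hom m P) (ho : Od e P)
    (hz : ∀ y, Δ P y = 0) : P ∈ Submodule.span ℝ (Gen e m) :=
  Submodule.subset_span ⟨0, m, P, rfl, h, ho, hz, by simp⟩

lemma fischer (hn : 0 < n) (e : E n) :
    ∀ (m : ℕ) (P : E n → ℝ), Hom m P → Od e P → P ∈ Submodule.span ℝ (Gen e m)
  | 0, _, h, ho => harm_mem h ho h.lap_zero
  | 1, _, h, ho => harm_mem h ho h.lap_one
  | m + 2, P, h, ho => by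
    obtain ⟨G, hG, a, o, z⟩ := solve_span hn (fischer hn e m _ h.lap (ho.lap h.sm))
    have : P - G ∈ Submodule.span ℝ (Gen e (m + 2)) := by
      refine harm_mem ⟨h.sm.sub a.sm, fun t y => ?_⟩ (fun y => ?_) fun y => ?_
      · simp only [Pi.sub_apply, h.hm, a.hm]; ring
      · simp only [Pi.sub_apply, ho y, o y]; ring
      · rw [(cd2 h.sm y).laplacian_sub (cd2 a.sm y), z, sub_self]
    simpa using Submodule.add_mem _ this hG

lemma Hom.zero_of_od {e : E n} {P : E n → ℝ} (h : Hom 0 P) (ho : Od e P) (y : E n) : P y = 0 := by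
  have a := h.hm 0 y
  have b := ho 0
  simp at a b
  linarith

lemma Od.zero {e : E n} (he : ‖e‖ = 1) {P : E n → ℝ} (ho : Od e P) {y : E n} (hy : ⟪e, y⟫ = 0) :
    P y = 0 := by
  have := ho y
  rw [rf_apply he, hy] at this
  simp at this
  linarith

end Pool.Agent.Work.MP_58debc_an.Ball
end
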