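import Mathlib

open Set MeasureTheory Laplacian

namespace Pool.Agent.Work.MP_58debc_an.Data

/-- Green's pairing `∫_Ω u (Δφ - qφ)`. When `Δu = qu` in `Ω` it is `∫_Ω (u Δφ - φ Δu)`, the
boundary term `⟨u, ∂_ν φ⟩ - ⟨∂_ν u, φ⟩` that defines the traces of elements of `H_Δ(Ω)`. -/
noncomputable def green {n : ℕ} (Ω : Set (EuclideanSpace ℝ (Fin n)))
    (q u : EuclideanSpace ℝ (Fin n) → ℂ) (φ : EuclideanSpace ℝ (Fin n) → ℝ) : ℂ :=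
  ∫ x in Ω, u x * (((Δ φ x : ℝ) : ℂ) - q x * (φ x : ℂ))

/-- `u ∈ L²(Ω)` solves `(-Δ + q) u = 0` in the sense of distributions in `Ω`
(so `Δu = qu ∈ L²(Ω)` and `u ∈ H_Δ(Ω)` when `q` is bounded). -/
def IsSolution {n : ℕ} (Ω : Set (EuclideanSpace ℝ (Fin n)))
    (q u : EuclideanSpace ℝ (Fin n) → ℂ) : Prop :=
  MemLp u 2 (volume.restrict Ω) ∧ ∀ φ : EuclideanSpace ℝ (Fin n) → ℝ, ContDiff ℝ (⊤ : ℕ∞) φ →
    HasCompactSupport φ → tsupport φ ⊆ Ω → green Ω q u φ = 0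

/-- Smooth `φ` with `φ = 0` on `∂Ω` and `∂_ν φ|∂Ω` supported in `V`. For such `φ` the Dirichlet
trace acts by `⟨u|∂Ω, ∂_ν φ⟩ = green Ω q u φ`. -/
def dirTest {n : ℕ} (Ω : Set (EuclideanSpace ℝ (Fin n)))
    (ν : EuclideanSpace ℝ (Fin n) → EuclideanSpace ℝ (Fin n))
    (V : Set (EuclideanSpace ℝ (Fin n))) : Set (EuclideanSpace ℝ (Fin n) → ℝ) :=
  {φ | ContDiff ℝ (⊤ : ℕ∞) φ ∧ (∀ x ∈ frontier Ω, φ x = 0) ∧
    closure {x | x ∈ frontier Ω ∧ fderiv ℝ φ x (ν x) ≠ 0} ⊆ V}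

/-- Smooth `φ` with `∂_ν φ = 0` on `∂Ω` and `φ|∂Ω` supported in `V`. For such `φ` the Neumann
trace acts by `⟨∂_ν u|∂Ω, φ⟩ = - green Ω q u φ`. -/
def neuTest {n : ℕ} (Ω : Set (EuclideanSpace ℝ (Fin n)))
    (ν : EuclideanSpace ℝ (Fin n) → EuclideanSpace ℝ (Fin n))
    (V : Set (EuclideanSpace ℝ (Fin n))) : Set (EuclideanSpace ℝ (Fin n) → ℝ) :=
  {φ | ContDiff ℝ (⊤ : ℕ∞) φ ∧ (∀ x ∈ frontier Ω, fderiv ℝ φ x (ν x) = 0) ∧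
    closure {x | x ∈ frontier Ω ∧ φ x ≠ 0} ⊆ V}

/-- The support of the distribution `u|∂Ω` lies in `Γ`: the trace vanishes near every boundary
point outside `Γ`. -/
def TraceSupportedIn {n : ℕ} (Ω : Set (EuclideanSpace ℝ (Fin n)))
    (ν : EuclideanSpace ℝ (Fin n) → EuclideanSpace ℝ (Fin n))
    (q u : EuclideanSpace ℝ (Fin n) → ℂ) (Γ : Set (EuclideanSpace ℝ (Fin n))) : Prop :=
  ∀ x ∈ frontier Ω, x ∉ Γ → ∃ V, IsOpen V ∧ x ∈ V ∧ ∀ φ ∈ dirTest Ω ν V, green Ω q u φ = 0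

/-- The Cauchy data set: the pairs (`u|Γ_D`, `∂_ν u|Γ_N`) of distributions, over all solutions
`u` whose Dirichlet trace is supported in `Γ_D`. -/
def cauchyData {n : ℕ} (Ω : Set (EuclideanSpace ℝ (Fin n)))
    (ν : EuclideanSpace ℝ (Fin n) → EuclideanSpace ℝ (Fin n))
    (q : EuclideanSpace ℝ (Fin n) → ℂ) (ΓD ΓN : Set (EuclideanSpace ℝ (Fin n))) :
    Set ((dirTest Ω ν ΓD → ℂ) × (neuTest Ω ν ΓN → ℂ)) :=
  {p | ∃ u, IsSolution Ω q u ∧ TraceSupportedIn Ω ν q u ΓD ∧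
    p = (fun φ : dirTest Ω ν ΓD => green Ω q u φ, fun φ : neuTest Ω ν ΓN => -green Ω q u φ)}

/-- Green's pairing `∫_Ω (w Δφ - φ q u)` for the linearised equation `Δw = q u`: it is the
boundary term `⟨w, ∂_ν φ⟩ - ⟨∂_ν w, φ⟩`. -/
noncomputable def linGreen {n : ℕ} (Ω : Set (EuclideanSpace ℝ (Fin n)))
    (q u w : EuclideanSpace ℝ (Fin n) → ℂ) (φ : EuclideanSpace ℝ (Fin n) → ℝ) : ℂ :=
  ∫ x in Ω, (w x * ((Δ φ x : ℝ) : ℂ) - q x * u x * (φ x : ℂ))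

/-- `w ∈ L²(Ω)` solves `Δw = q u` in `Ω` with zero Dirichlet trace: it is the derivative at `s = 0`
of the solution of `(-Δ + s q) u_s = 0` with the boundary values of `u`. -/
def IsLinResponse {n : ℕ} (Ω : Set (EuclideanSpace ℝ (Fin n)))
    (q u w : EuclideanSpace ℝ (Fin n) → ℂ) : Prop :=
  MemLp w 2 (volume.restrict Ω) ∧ ∀ φ : EuclideanSpace ℝ (Fin n) → ℝ, ContDiff ℝ (⊤ : ℕ∞) φ →
    (∀ x ∈ frontier Ω, φ x = 0) → linGreen Ω q u w φ = 0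

end Pool.Agent.Work.MP_58debc_an.Data
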