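import Pool.Agent.Work.MP_58debc_an.B2
import Mathlib
import Pool.Agent.Work.MP_58debc_an.BDefs

-- merged part: Pool.Agent.Work.MP_58debc_an.B3
section
open Set Real MeasureTheory Laplacian InnerProductSpace Filter
open scoped Topology RealInnerProductSpace

namespace Pool.Agent.Work.MP_58debc_an.Ball

variable {n : ℕ}

/-- polynomial form of the inversion with centre `c` -/
noncomputable def NN (c x : E n) : E n := (2 : ℝ) • (x - c) + sd c x • c

lemma contDiff_NN (c : E n) {m : WithTop ℕ∞} : ContDiff ℝ m (NN c) :=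
  ((contDiff_id.sub contDiff_const).const_smul (2 : ℝ)).add ((contDiff_sd c).smul contDiff_const)

lemma hasFDerivAt_NN (c x : E n) : HasFDerivAt (NN c)
    ((2 : ℝ) • ContinuousLinearMap.id ℝ (E n) + (fderiv ℝ (sd c) x).smulRight c) x :=
  (((hasFDerivAt_id x).sub_const c).const_smul (2 : ℝ)).add
    ((((contDiff_sd c (m := 1)).differentiable (by simp) x).hasFDerivAt).smul_const c)

lemma fderiv_NN (c x v : E n) :
    fderiv ℝ (NN c) x v = (2 : ℝ) • v + (2 * ⟪x - c, v⟫) • c := by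
  rw [(hasFDerivAt_NN c x).fderiv]
  simp [fderiv_sd, real_inner_smul_left]

lemma d2_NN (c x v w : E n) : fderiv ℝ (fderiv ℝ (NN c)) x v w = (2 * ⟪v, w⟫) • c := by
  have e : fderiv ℝ (NN c) = fun y => (2 : ℝ) • ContinuousLinearMap.id ℝ (E n) +
      ContinuousLinearMap.smulRightL ℝ (E n) (E n) (fderiv ℝ (sd c) y) c :=
    funext fun y => (hasFDerivAt_NN c y).fderiv
  have h0 := diff_fderiv ((contDiff_sd c (m := 2)).contDiffAt (x := x))
  have h := ((((ContinuousLinearMap.smulRightL ℝ (E n) (E n)).flip c).hasFDerivAt).comp x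
    h0).const_add ((2 : ℝ) • ContinuousLinearMap.id ℝ (E n))
  rw [e]
  erw [h.fderiv]
  simp [d2_sd]

lemma bil_sum (D : E n →L[ℝ] E n →L[ℝ] ℝ) (p c : E n) :
    ∑ i, D ((2 : ℝ) • bb n i + (2 * ⟪p, bb n i⟫) • c) ((2 : ℝ) • bb n i + (2 * ⟪p, bb n i⟫) • c) =
      4 * (∑ i, D (bb n i) (bb n i) + D p c + D c p + ‖p‖ ^ 2 * D c c) := by
  have a1 := sum_inner_mul (D.flip c) p
  have a2 := sum_inner_mul (D c) p
  have a3 := sum_inner_mul (innerSL ℝ p) p
  simp only [ContinuousLinearMap.flip_apply, innerSL_apply_apply] at a1 a3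
  rw [real_inner_self_eq_norm_sq] at a3
  rw [← a1, ← a2, ← a3, Finset.sum_mul, ← Finset.sum_add_distrib, ← Finset.sum_add_distrib,
    ← Finset.sum_add_distrib, Finset.mul_sum]
  refine Finset.sum_congr rfl fun i _ => ?_
  simp only [map_add, map_smul, add_apply, smul_apply, smul_eq_mul]
  ring

/-- the exponent of the mode of degree `k` -/
noncomputable def mu (n k : ℕ) : ℝ := k + n / 2 - 1

lemma lap_PN {k : ℕ} {P : E n → ℝ} (h : Hom k P) (hz : ∀ y, Δ P y = 0) (c x : E n) :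
    Δ (fun y => P (NN c y)) x = 4 * mu n k * fderiv ℝ P (NN c x) c := by
  have hs := (cd2 h.sm (NN c x)).isSymmSndFDerivAt (by simp)
  have e2 := h.euler2 (NN c x) c
  have z := hz (NN c x)
  rw [lap_eq (bb n)] at z
  simp only [lap_eq (bb n), d2_comp (contDiff_NN c).contDiffAt (cd2 h.sm _), fderiv_NN, d2_NN,
    Finset.sum_add_distrib, bil_sum, z, real_inner_self_eq_norm_sq, (bb n).orthonormal.1]
  rw [hs.eq (x - c) c]
  have e3 : fderiv ℝ (fderiv ℝ P) (NN c x) c (NN c x) =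
      2 * fderiv ℝ (fderiv ℝ P) (NN c x) c (x - c) +
        ‖x - c‖ ^ 2 * fderiv ℝ (fderiv ℝ P) (NN c x) c c := by
    generalize fderiv ℝ (fderiv ℝ P) (NN c x) c = L
    simp only [NN, map_add, map_smul, smul_eq_mul, sd]
  rw [e3] at e2
  simp only [map_smul, smul_eq_mul, Finset.sum_const, Finset.card_univ, Fintype.card_fin,
    nsmul_eq_mul, mu]
  linear_combination 4 * e2

lemma d1_PN {k : ℕ} {P : E n → ℝ} (h : Hom k P) (c x : E n) :
    fderiv ℝ (fun y => P (NN c y)) x (x - c) =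
      k * P (NN c x) + sd c x * fderiv ℝ P (NN c x) c := by
  have d := ((h.sm.differentiable (by simp) (NN c x)).hasFDerivAt.comp x
    ((contDiff_NN c (m := 1)).differentiable (by simp) x).hasFDerivAt).fderiv
  erw [d]
  rw [← h.euler]
  generalize fderiv ℝ P (NN c x) = L
  simp only [ContinuousLinearMap.comp_apply, fderiv_NN, NN, map_add, map_smul, smul_eq_mul, sd,
    real_inner_self_eq_norm_sq]
  ring

lemma harm {k : ℕ} {P : E n → ℝ} (h : Hom k P) (hz : ∀ y, Δ P y = 0) {c x : E n} (hx : x ≠ c) :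
    Δ (fun y => exp (-mu n k * log (sd c y)) * P (NN c y)) x = 0 := by
  have hp := sd_pos hx
  have hs : ContDiffAt ℝ 2 (sd c) x := (contDiff_sd c).contDiffAt
  set m := mu n k with hm
  have d1 : ∀ r : ℝ, r ≠ 0 → HasDerivAt (fun r : ℝ => exp (-m * log r))
      (exp (-m * log r) * (-m * r⁻¹)) r := fun r hr => ((hasDerivAt_log hr).const_mul (-m)).exp
  have d2 := (d1 _ hp.ne').mul ((hasDerivAt_inv hp.ne').const_mul (-m))
  have ha : ContDiffAt ℝ 2 (fun y => exp (-m * log (sd c y))) x :=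
    (contDiffAt_const.mul (hs.log hp.ne')).exp
  have hb : ContDiffAt ℝ 2 (fun y => P (NN c y)) x := cd2 (h.sm.comp (contDiff_NN c)) x
  rw [lap_mul ha hb, lap_PN h hz,
    lap_scal (F := fun r => exp (-m * log r)) hs
      ((eventually_ne_nhds hp.ne').mono fun r hr => d1 r hr) d2,
    gp_scal (F := fun r => exp (-m * log r)) (hs.differentiableAt (by simp)) (d1 _ hp.ne'),
    gp_sd, gp_sd, lap_sd, fderiv_sd, d1_PN h, real_inner_smul_left, real_inner_self_eq_norm_sq]
  have e : ‖x - c‖ ^ 2 = sd c x := rfl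
  have e2 : (n : ℝ) = 2 * (m - k + 1) := by rw [hm, mu]; ring
  rw [e, ← hm, e2]
  field_simp
  ring

variable (e : E n)

/-- the bipolar coordinate `log (|x - e| / |x + e|)` -/
noncomputable def tt (x : E n) : ℝ := (log (sd e x) - log (sd (-e) x)) / 2

/-- its squared gradient -/
noncomputable def JJ (x : E n) : ℝ := 4 / (sd e x * sd (-e) x)

/-- angular factor of a mode -/
noncomputable def kk (m : ℝ) (P : E n → ℝ) (x : E n) : ℝ :=
  exp (-m * ((log (sd e x) + log (sd (-e) x)) / 2)) * P (NN (-e) x)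

variable {e}

lemma contDiffAt_tt {x : E n} (h1 : x ≠ e) (h2 : x ≠ -e) {m : WithTop ℕ∞} :
    ContDiffAt ℝ m (tt e) x :=
  (((contDiff_sd e).contDiffAt.log (sd_pos h1).ne').sub
    ((contDiff_sd (-e)).contDiffAt.log (sd_pos h2).ne')).div_const 2

lemma contDiffAt_kk {x : E n} (h1 : x ≠ e) (h2 : x ≠ -e) (m : ℝ) {P : E n → ℝ}
    (hP : ContDiff ℝ (⊤ : ℕ∞) P) : ContDiffAt ℝ (⊤ : ℕ∞) (kk e m P) x :=
  (contDiffAt_const.mul ((((contDiff_sd e).contDiffAt.log (sd_pos h1).ne').add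
    ((contDiff_sd (-e)).contDiffAt.log (sd_pos h2).ne')).div_const 2)).exp.mul
    (hP.comp (contDiff_NN (-e))).contDiffAt

lemma contDiffAt_JJ {x : E n} (h1 : x ≠ e) (h2 : x ≠ -e) {m : WithTop ℕ∞} :
    ContDiffAt ℝ m (JJ e) x :=
  contDiffAt_const.div ((contDiff_sd e).mul (contDiff_sd (-e))).contDiffAt
    (mul_pos (sd_pos h1) (sd_pos h2)).ne'

lemma JJ_nonneg (x : E n) : 0 ≤ JJ e x :=
  div_nonneg (by norm_num) (mul_nonneg (sd_nonneg _ _) (sd_nonneg _ _))

lemma JJ_pos {x : E n} (h1 : x ≠ e) (h2 : x ≠ -e) : 0 < JJ e x :=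
  div_pos (by norm_num) (mul_pos (sd_pos h1) (sd_pos h2))

lemma sd_eq (he : ‖e‖ = 1) (x : E n) : sd e x = ‖x‖ ^ 2 - 2 * ⟪e, x⟫ + 1 := by
  rw [sd, norm_sub_sq_real, he, real_inner_comm]; ring

lemma sd_neg_eq (he : ‖e‖ = 1) (x : E n) : sd (-e) x = ‖x‖ ^ 2 + 2 * ⟪e, x⟫ + 1 := by
  rw [sd, sub_neg_eq_add, norm_add_sq_real, he, real_inner_comm]; ring

lemma gp_tt (he : ‖e‖ = 1) {x : E n} (h1 : x ≠ e) (h2 : x ≠ -e) : gp (tt e) (tt e) x = JJ e x := by
  have p1 := sd_pos h1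
  have p2 := sd_pos h2
  have d := (((hasFDerivAt_sd e x).log p1.ne').sub
    ((hasFDerivAt_sd (-e) x).log p2.ne')).mul_const (2⁻¹ : ℝ)
  have hd : ∀ v, fderiv ℝ (tt e) x v =
      ⟪(sd e x)⁻¹ • (x - e) - (sd (-e) x)⁻¹ • (x - -e), v⟫ := by
    intro v
    have e0 : tt e = fun y => (log (sd e y) - log (sd (-e) y)) * 2⁻¹ :=
      funext fun y => div_eq_mul_inv _ _
    rw [e0]
    erw [d.fderiv]
    rw [inner_sub_left, real_inner_smul_left, real_inner_smul_left]
    simp only [smul_apply, sub_apply, smul_eq_mul, innerSL_apply_apply]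
    ring
  rw [gp_inner hd, hd, real_inner_self_eq_norm_sq, norm_sub_sq_real, norm_smul, norm_smul,
    real_inner_smul_left, real_inner_smul_right, mul_pow, mul_pow, Real.norm_eq_abs,
    Real.norm_eq_abs, sq_abs, sq_abs]
  have a : ⟪x - e, x - -e⟫ = ‖x‖ ^ 2 - 1 := by
    rw [sub_neg_eq_add, inner_sub_left, inner_add_right, inner_add_right,
      real_inner_self_eq_norm_sq, real_inner_self_eq_norm_sq, he, real_inner_comm]
    ring
  have b1 : ‖x - e‖ ^ 2 = sd e x := rfl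
  have b2 : ‖x - -e‖ ^ 2 = sd (-e) x := rfl
  have c : ‖x‖ ^ 2 - 1 = (sd e x + sd (-e) x - 4) / 2 := by rw [sd_eq he, sd_neg_eq he]; ring
  rw [a, b1, b2, c, JJ]
  field_simp
  ring

lemma inner_NN (he : ‖e‖ = 1) (x : E n) : ⟪e, NN (-e) x⟫ = 1 - ‖x‖ ^ 2 := by
  rw [NN, sd_neg_eq he, inner_add_right, real_inner_smul_right, real_inner_smul_right,
    sub_neg_eq_add, inner_add_right, inner_neg_right, real_inner_self_eq_norm_sq, he]
  ring

lemma rf_NN (he : ‖e‖ = 1) (x : E n) : rf e (NN e x) = NN (-e) x := by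
  have : NN e x = rf e (NN (-e) x) := by
    rw [rf_apply he, inner_NN he, NN, NN, sd_eq he, sd_neg_eq he]
    module
  rw [this, rf_rf]

lemma kk_plus (m : ℝ) (P : E n → ℝ) (x : E n) :
    exp (m * tt e x) * kk e m P x = exp (-m * log (sd (-e) x)) * P (NN (-e) x) := by
  rw [kk, ← mul_assoc, ← exp_add, tt]
  congr 2
  ring

lemma kk_minus (m : ℝ) (P : E n → ℝ) (x : E n) :
    exp (-m * tt e x) * kk e m P x = exp (-m * log (sd e x)) * P (NN (-e) x) := by
  rw [kk, ← mul_assoc, ← exp_add, tt]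
  congr 2
  ring

/-- the Laplacian of a separated function -/
lemma lap_mode (he : ‖e‖ = 1) {k : ℕ} (hk : mu n k ≠ 0) {P : E n → ℝ} (h : Hom k P) (ho : Od e P)
    (hz : ∀ y, Δ P y = 0) {x : E n} (h1 : x ≠ e) (h2 : x ≠ -e) {F F1 F2 : ℝ → ℝ}
    (hF : ContDiff ℝ (⊤ : ℕ∞) F)
    (d1 : ∀ t, HasDerivAt F (F1 t) t) (d2 : ∀ t, HasDerivAt F1 (F2 t) t) :
    Δ (fun y => F (tt e y) * kk e (mu n k) P y) x =
      (F2 (tt e x) - mu n k ^ 2 * F (tt e x)) * JJ e x * kk e (mu n k) P x := by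
  set m := mu n k with hm
  have ht : ContDiffAt ℝ 2 (tt e) x := contDiffAt_tt h1 h2
  have hk2 : ContDiffAt ℝ 2 (kk e m P) x := (contDiffAt_kk h1 h2 m h.sm).of_le two_le_top
  have gen : ∀ {F F1 F2 : ℝ → ℝ}, (∀ t, HasDerivAt F (F1 t) t) → (∀ t, HasDerivAt F1 (F2 t) t) →
      ContDiffAt ℝ 2 (fun y => F (tt e y)) x →
      Δ (fun y => F (tt e y) * kk e m P y) x = F (tt e x) * Δ (kk e m P) x +
        F1 (tt e x) * (2 * gp (tt e) (kk e m P) x + kk e m P x * Δ (tt e) x) +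
        F2 (tt e x) * JJ e x * kk e m P x := by
    intro F F1 F2 d1 d2 hF
    rw [lap_mul hF hk2, lap_scal ht (Eventually.of_forall d1) (d2 _),
      gp_scal (ht.differentiableAt (by simp)) (d1 _), gp_tt he h1 h2]
    ring
  have ex : ∀ s t : ℝ, HasDerivAt (fun t => exp (s * t)) (s * exp (s * t)) t := fun s t => by
    simpa [mul_comm] using ((hasDerivAt_id t).const_mul s).exp
  have g1 := gen (ex m) (fun t => (ex m t).const_mul m) (contDiffAt_const.mul ht).exp
  have g2 := gen (ex (-m)) (fun t => (ex (-m) t).const_mul (-m)) (contDiffAt_const.mul ht).exp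
  simp only [kk_plus] at g1
  simp only [kk_minus] at g2
  rw [harm h hz h2] at g1
  have hneg : Hom k fun y => -P y := ⟨h.sm.neg, fun t y => by rw [h.hm]; ring⟩
  have g3 := harm hneg (fun y => by
    have := congrFun (laplacian_neg (f := P)) y
    erw [this]
    simp [hz]) h1
  have e3 : ∀ y, -P (NN e y) = P (NN (-e) y) := fun y => by rw [← rf_NN he, ho]
  simp only [e3] at g3
  rw [g3] at g2
  have p1 := exp_pos (m * tt e x)
  have p2 := exp_pos (-m * tt e x)
  have q1 : Δ (kk e m P) x + m * (2 * gp (tt e) (kk e m P) x + kk e m P x * Δ (tt e) x) +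
      m ^ 2 * JJ e x * kk e m P x = 0 :=
    mul_left_cancel₀ p1.ne' (by linear_combination -g1)
  have q2 : Δ (kk e m P) x - m * (2 * gp (tt e) (kk e m P) x + kk e m P x * Δ (tt e) x) +
      m ^ 2 * JJ e x * kk e m P x = 0 :=
    mul_left_cancel₀ p2.ne' (by linear_combination -g2)
  have q3 : 2 * gp (tt e) (kk e m P) x + kk e m P x * Δ (tt e) x = 0 :=
    mul_left_cancel₀ hk (by linear_combination (q1 - q2) / 2)
  rw [gen d1 d2 ((cd2 hF _).comp x ht), q3]
  linear_combination F (tt e x) * ((q1 + q2) / 2)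

end Pool.Agent.Work.MP_58debc_an.Ball
end

-- merged part: Pool.Agent.Work.MP_58debc_an.B8
section
-- merged part: Pool.Agent.Work.MP_58debc_an.ODE
section
open Set Real
open scoped NNReal Topology

namespace Pool.Agent.Work.MP_58debc_an

/-- clamp to `[-R, R]` -/
noncomputable def clampR (R y : ℝ) : ℝ := max (-R) (min R y)

lemma clampR_abs_le (R y : ℝ) (hR : 0 ≤ R) : |clampR R y| ≤ R := by
  unfold clampR
  rw [abs_le]
  constructor
  · exact le_max_left _ _
  · exact max_le (by linarith) (min_le_left _ _)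

lemma clampR_abs_le' (R y : ℝ) (hR : 0 ≤ R) : |clampR R y| ≤ |y| := by
  unfold clampR
  rw [abs_le]
  have h1 := neg_abs_le y
  have h2 := le_abs_self y
  have h3 := abs_nonneg y
  constructor
  · exact le_max_of_le_right (le_min (by linarith) h1)
  · exact max_le (by linarith) ((min_le_right _ _).trans h2)

lemma clampR_eq (R y : ℝ) (h : |y| ≤ R) : clampR R y = y := by
  unfold clampR
  rw [abs_le] at h
  rw [min_eq_right h.2, max_eq_right h.1]

lemma clampR_sub (R x y : ℝ) : |clampR R x - clampR R y| ≤ |x - y| := by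
  unfold clampR
  exact (abs_max_sub_max_le_max _ _ _ _).trans (by
    simp only [sub_self, abs_zero]
    refine max_le (abs_nonneg _) ((abs_min_sub_min_le_max _ _ _ _).trans ?_)
    simp)

/-- local existence for the linear second order equation on `[0, T]` -/
lemma exists_local (P : ℝ → ℝ) (hP : Continuous P) (T : ℝ) (hT : 0 ≤ T) (x0 : ℝ × ℝ) :
    ∃ α : ℝ → ℝ × ℝ, α 0 = x0 ∧ ∀ t ∈ Icc 0 T,
      HasDerivWithinAt α ((α t).2, P t * (α t).1) (Icc 0 T) t := by
  obtain ⟨M, hM⟩ := isCompact_Icc.exists_bound_of_continuousOn (hP.continuousOn (s := Icc 0 T))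
  set K : ℝ := max 1 M with hK
  have hK1 : 1 ≤ K := le_max_left _ _
  have hK0 : 0 ≤ K := by linarith
  have hPK : ∀ t ∈ Icc 0 T, |P t| ≤ K := fun t ht => (hM t ht).trans (le_max_right _ _)
  set R : ℝ := ‖x0‖ * exp (K * T) with hR
  have hR0 : 0 ≤ R := by positivity
  let v : ℝ → ℝ × ℝ → ℝ × ℝ := fun t x => (clampR R x.2, P t * clampR R x.1)
  have hpl : IsPicardLindelof v (⟨0, left_mem_Icc.2 hT⟩ : Icc (0 : ℝ) T) x0
      ⟨K * R * T, by positivity⟩ 0 ⟨K * R, by positivity⟩ ⟨K, hK0⟩ := by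
    refine ⟨fun t ht => ?_, fun x _ => ?_, fun t ht x _ => ?_, ?_⟩
    · refine LipschitzWith.lipschitzOnWith (LipschitzWith.of_dist_le_mul fun x y => ?_)
      have h1 : |x.1 - y.1| ≤ dist x y := by
        rw [Prod.dist_eq]; exact le_max_left _ _
      have h2 : |x.2 - y.2| ≤ dist x y := by
        rw [Prod.dist_eq]; exact le_max_right _ _
      have hd : 0 ≤ dist x y := dist_nonneg
      rw [Prod.dist_eq]
      refine max_le ?_ ?_
      · show |clampR R x.2 - clampR R y.2| ≤ K * dist x y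
        have := clampR_sub R x.2 y.2
        nlinarith
      · show |P t * clampR R x.1 - P t * clampR R y.1| ≤ K * dist x y
        rw [← mul_sub, abs_mul]
        exact mul_le_mul (hPK t ht) ((clampR_sub R x.1 y.1).trans h1) (abs_nonneg _) hK0
    · exact (continuous_const.prodMk (hP.mul continuous_const)).continuousOn
    · rw [Prod.norm_def]
      refine max_le ?_ ?_
      · show |clampR R x.2| ≤ K * R
        have := clampR_abs_le R x.2 hR0
        nlinarith
      · show |P t * clampR R x.1| ≤ K * R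
        rw [abs_mul]
        exact mul_le_mul (hPK t ht) (clampR_abs_le R x.1 hR0) (abs_nonneg _) hK0
    · show K * R * max (T - 0) (0 - 0) ≤ K * R * T - 0
      simp [hT]
  obtain ⟨α, hα0, hα⟩ := hpl.exists_eq_forall_mem_Icc_hasDerivWithinAt₀
  have hα0' : α 0 = x0 := hα0
  have hcont : ContinuousOn α (Icc 0 T) := fun t ht => (hα t ht).continuousWithinAt
  have hg := norm_le_gronwallBound_of_norm_deriv_right_le (f := α) (f' := fun t => v t (α t))
    (δ := ‖x0‖) (K := K) (ε := 0) (a := 0) (b := T) hcont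
    (fun t ht => (hα t (Ico_subset_Icc_self ht)).mono_of_mem_nhdsWithin
      (Icc_mem_nhdsGE_of_mem ht)) (by rw [hα0'])
    (fun t ht => by
      rw [add_zero, Prod.norm_def]
      have h1 : |(α t).1| ≤ ‖α t‖ := norm_fst_le (α t)
      have h2 : |(α t).2| ≤ ‖α t‖ := norm_snd_le (α t)
      have hn := norm_nonneg (α t)
      refine max_le ?_ ?_
      · show |clampR R (α t).2| ≤ K * ‖α t‖
        have := clampR_abs_le' R (α t).2 hR0
        nlinarith
      · show |P t * clampR R (α t).1| ≤ K * ‖α t‖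
        rw [abs_mul]
        exact mul_le_mul (hPK t (Ico_subset_Icc_self ht))
          ((clampR_abs_le' R (α t).1 hR0).trans h1) (abs_nonneg _) hK0)
  refine ⟨α, hα0', fun t ht => ?_⟩
  have hb : ‖α t‖ ≤ R := by
    have := hg t ht
    rw [gronwallBound_ε0] at this
    refine this.trans ?_
    rw [hR]
    gcongr
    linarith [ht.2]
  have h := hα t ht
  simp only [v] at h
  rwa [clampR_eq R _ ((norm_snd_le (α t)).trans hb),
    clampR_eq R _ ((norm_fst_le (α t)).trans hb)] at h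

lemma const_of_Ioo (a b : ℝ) (f : ℝ → ℝ) (hc : ContinuousOn f (Icc a b))
    (hd : ∀ t ∈ Ioo a b, HasDerivAt f 0 t) : ∀ t ∈ Icc a b, f t = f a := by
  intro t ht
  rcases eq_or_lt_of_le ht.1 with h | h
  · rw [← h]
  · obtain ⟨c, -, hc'⟩ := exists_hasDerivAt_eq_slope f (fun _ => (0 : ℝ)) h
      (hc.mono (Icc_subset_Icc_right ht.2))
      (fun x hx => hd x ⟨hx.1, hx.2.trans_le ht.2⟩)
    have : t - a ≠ 0 := by linarith
    field_simp at hc'
    linarith

/-- uniqueness for the free equation on an interval -/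
lemma free_unique (κ a b : ℝ) (hκ : 0 < κ) (h h' : ℝ → ℝ)
    (hc : ContinuousOn h (Icc a b)) (hc' : ContinuousOn h' (Icc a b))
    (hd : ∀ t ∈ Ioo a b, HasDerivAt h (h' t) t)
    (hd' : ∀ t ∈ Ioo a b, HasDerivAt h' (κ ^ 2 * h t) t)
    (c : ℝ) (hcm : c ∈ Icc a b) (h0 : h c = 0) (h0' : h' c = 0) :
    ∀ t ∈ Icc a b, h t = 0 ∧ h' t = 0 := by
  have key : ∀ σ : ℝ, σ ^ 2 = κ ^ 2 → ∀ t ∈ Icc a b, h' t - σ * h t = 0 := by
    intro σ hσ
    have hconst : ∀ t ∈ Icc a b,
        (h' t - σ * h t) * exp (σ * t) = (h' a - σ * h a) * exp (σ * a) := by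
      refine const_of_Ioo a b (fun t => (h' t - σ * h t) * exp (σ * t)) ?_ fun t ht => ?_
      · exact (hc'.sub (continuousOn_const.mul hc)).mul (by fun_prop)
      · have e : HasDerivAt (fun t => exp (σ * t)) (exp (σ * t) * (σ * 1)) t :=
          ((hasDerivAt_id t).const_mul σ).exp
        refine HasDerivAt.congr_deriv (((hd' t ht).sub ((hd t ht).const_mul σ)).mul e) ?_
        simp only [Pi.sub_apply]
        rw [← hσ]; ring
    intro t ht
    have e1 := hconst t ht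
    have e2 := hconst c hcm
    rw [h0, h0'] at e2
    rw [← e2] at e1
    simpa using e1
  intro t ht
  have e1 := key κ rfl t ht
  have e2 := key (-κ) (by ring) t ht
  have : κ * h t = 0 := by linarith
  have hh : h t = 0 := by
    rcases mul_eq_zero.1 this with h1 | h1
    · linarith
    · exact h1
  refine ⟨hh, ?_⟩
  rw [hh] at e1
  linarith

/-- `φ'' = (κ² + B) φ + g` on the whole line -/
def IsSol (κ : ℝ) (B g φ φ' : ℝ → ℝ) : Prop :=
  ∀ t, HasDerivAt φ (φ' t) t ∧ HasDerivAt φ' ((κ ^ 2 + B t) * φ t + g t) t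

lemma IsSol.cont {κ : ℝ} {B g φ φ' : ℝ → ℝ} (h : IsSol κ B g φ φ') : Continuous φ :=
  continuous_iff_continuousAt.2 fun t => (h t).1.continuousAt

lemma IsSol.cont' {κ : ℝ} {B g φ φ' : ℝ → ℝ} (h : IsSol κ B g φ φ') : Continuous φ' :=
  continuous_iff_continuousAt.2 fun t => (h t).2.continuousAt

lemma exists_free (κ : ℝ) (hκ : 0 < κ) (g : ℝ → ℝ) (hg : Continuous g) (x y : ℝ) :
    ∃ p p' : ℝ → ℝ, p 0 = x ∧ p' 0 = y ∧ IsSol κ (fun _ => 0) g p p' := by
  let I1 : ℝ → ℝ := fun t => ∫ s in (0 : ℝ)..t, exp (-κ * s) * g s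
  let I2 : ℝ → ℝ := fun t => ∫ s in (0 : ℝ)..t, exp (κ * s) * g s
  have h1 : ∀ t, HasDerivAt I1 (exp (-κ * t) * g t) t := fun t =>
    ((by fun_prop : Continuous fun s => exp (-κ * s) * g s).integral_hasStrictDerivAt
      0 t).hasDerivAt
  have h2 : ∀ t, HasDerivAt I2 (exp (κ * t) * g t) t := fun t =>
    ((by fun_prop : Continuous fun s => exp (κ * s) * g s).integral_hasStrictDerivAt
      0 t).hasDerivAt
  have e1 : ∀ t, HasDerivAt (fun t => exp (κ * t)) (exp (κ * t) * (κ * 1)) t := fun t =>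
    ((hasDerivAt_id t).const_mul κ).exp
  have e2 : ∀ t, HasDerivAt (fun t => exp (-κ * t)) (exp (-κ * t) * (-κ * 1)) t := fun t =>
    ((hasDerivAt_id t).const_mul (-κ)).exp
  have e3 : ∀ t, exp (κ * t) * exp (-κ * t) = 1 := fun t => by
    rw [← exp_add]; simp
  refine ⟨fun t => (exp (κ * t) * (y + κ * x + I1 t) - exp (-κ * t) * (y - κ * x + I2 t)) / (2 * κ),
    fun t => (exp (κ * t) * (y + κ * x + I1 t) + exp (-κ * t) * (y - κ * x + I2 t)) / 2,
    ?_, ?_, fun t => ⟨?_, ?_⟩⟩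
  · simp [I1, I2]; field_simp; ring
  · simp [I1, I2]
  · refine HasDerivAt.congr_deriv ((((e1 t).mul ((h1 t).const_add (y + κ * x))).sub
      ((e2 t).mul ((h2 t).const_add (y - κ * x)))).div_const (2 * κ)) ?_
    field_simp
    ring
  · refine HasDerivAt.congr_deriv ((((e1 t).mul ((h1 t).const_add (y + κ * x))).add
      ((e2 t).mul ((h2 t).const_add (y - κ * x)))).div_const 2) ?_
    have := e3 t
    have hk : κ ^ 2 * ((exp (κ * t) * (y + κ * x + I1 t) - exp (-κ * t) * (y - κ * x + I2 t))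
        / (2 * κ)) = κ * (exp (κ * t) * (y + κ * x + I1 t) -
          exp (-κ * t) * (y - κ * x + I2 t)) / 2 := by
      field_simp
    simp only [add_zero]
    rw [hk]
    linear_combination (g t) * this

/-- global solutions when `B` lives in `[0, 4]` -/
lemma exists_sol (κ : ℝ) (hκ : 0 < κ) (B : ℝ → ℝ) (hB : Continuous B)
    (hB0 : ∀ t, t ≤ 0 ∨ 4 ≤ t → B t = 0) (x y : ℝ) :
    ∃ φ φ' : ℝ → ℝ, φ 0 = x ∧ φ' 0 = y ∧ IsSol κ B (fun _ => 0) φ φ' := by
  obtain ⟨α, hα0, hα⟩ := exists_local (fun t => κ ^ 2 + B t) (by fun_prop) 4 (by norm_num) (x, y)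
  have hcont : ContinuousOn α (Icc 0 4) := fun t ht => (hα t ht).continuousWithinAt
  have h04 : (0 : ℝ) ≤ 4 := by norm_num
  let f : ℝ → ℝ := fun t => B t * (α (projIcc 0 4 h04 t)).1
  have hf : Continuous f := by
    refine hB.mul (continuous_fst.comp ?_)
    exact hcont.comp_continuous (continuous_subtype_val.comp continuous_projIcc)
      fun t => (projIcc 0 4 h04 t).2
  obtain ⟨p, p', hp0, hp0', hp⟩ := exists_free κ hκ f hf x y
  have hu := free_unique κ 0 4 hκ (fun t => p t - (α t).1) (fun t => p' t - (α t).2)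
    (hp.cont.continuousOn.sub (continuous_fst.comp_continuousOn hcont))
    (hp.cont'.continuousOn.sub (continuous_snd.comp_continuousOn hcont))
    (fun t ht => (hp t).1.sub
      ((hα t (Ioo_subset_Icc_self ht)).hasDerivAt (Icc_mem_nhds ht.1 ht.2)).fst)
    (fun t ht => by
      refine HasDerivAt.congr_deriv ((hp t).2.sub
        ((hα t (Ioo_subset_Icc_self ht)).hasDerivAt (Icc_mem_nhds ht.1 ht.2)).snd) ?_
      simp only [f, projIcc_of_mem h04 (Ioo_subset_Icc_self ht)]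
      ring)
    0 (left_mem_Icc.2 h04) (by simp [hp0, hα0]) (by simp [hp0', hα0])
  refine ⟨p, p', hp0, hp0', fun t => ⟨(hp t).1, ?_⟩⟩
  refine HasDerivAt.congr_deriv ((hp t).2) ?_
  by_cases ht : t ∈ Icc (0 : ℝ) 4
  · have := (hu t ht).1
    simp only [f, projIcc_of_mem h04 ht]
    have e : (α t).1 = p t := by linarith
    rw [e]; ring
  · have : B t = 0 := hB0 t (by
      simp only [mem_Icc, not_and_or, not_le] at ht
      rcases ht with h | h
      · exact Or.inl h.le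
      · exact Or.inr h.le)
    simp [f, this]

lemma IsSol.contDiff {κ : ℝ} {B φ φ' : ℝ → ℝ} (h : IsSol κ B (fun _ => 0) φ φ')
    (hB : ContDiff ℝ (⊤ : ℕ∞) B) : ContDiff ℝ (⊤ : ℕ∞) φ := by
  have key : ∀ n : ℕ, ContDiff ℝ n φ ∧ ContDiff ℝ n φ' := by
    intro n
    induction n with
    | zero => exact ⟨contDiff_zero.2 h.cont, contDiff_zero.2 h.cont'⟩
    | succ n ih =>
      have d1 : deriv φ = φ' := funext fun t => (h t).1.deriv
      have d2 : deriv φ' = fun t => (κ ^ 2 + B t) * φ t + 0 := funext fun t => (h t).2.deriv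
      have hBn : ContDiff ℝ n B := hB.of_le (by exact_mod_cast le_top)
      constructor
      · rw [show ((n + 1 : ℕ) : WithTop ℕ∞) = n + 1 by push_cast; rfl, contDiff_succ_iff_deriv]
        refine ⟨fun t => (h t).1.differentiableAt, by simp, ?_⟩
        rw [d1]; exact ih.2
      · rw [show ((n + 1 : ℕ) : WithTop ℕ∞) = n + 1 by push_cast; rfl, contDiff_succ_iff_deriv]
        refine ⟨fun t => (h t).2.differentiableAt, by simp, ?_⟩
        rw [d2]
        exact ((contDiff_const.add hBn).mul ih.1).add contDiff_const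
  exact contDiff_infty.2 fun n => (key n).1

/-- Wronskian identity between a solution and the reflection of a solution of the reflected
equation -/
lemma wronskian {κ : ℝ} {B φ φ' ψ ψ' : ℝ → ℝ} (h : IsSol κ B (fun _ => 0) φ φ')
    (h2 : IsSol κ (fun t => B (π - t)) (fun _ => 0) ψ ψ') :
    φ π * ψ' 0 + φ' π * ψ 0 = φ 0 * ψ' π + φ' 0 * ψ π := by
  have hd : ∀ t, HasDerivAt (fun t => φ t * ψ' (π - t) + φ' t * ψ (π - t)) 0 t := by
    intro t
    have r : HasDerivAt (fun t => π - t) (-1) t := by simpa using (hasDerivAt_id t).const_sub π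
    have a1 := (h2 (π - t)).1.comp t r
    have a2 := (h2 (π - t)).2.comp t r
    refine HasDerivAt.congr_deriv (((h t).1.mul a2).add ((h t).2.mul a1)) ?_
    simp only [Function.comp, sub_sub_cancel]
    ring
  have := const_of_Ioo 0 π _ (fun t _ => (hd t).continuousAt.continuousWithinAt)
    (fun t _ => hd t) π (right_mem_Icc.2 pi_pos.le)
  simpa using this

lemma IsSol.pos {κ : ℝ} (hκ : 0 < κ) {B φ φ' : ℝ → ℝ} (h : IsSol κ B (fun _ => 0) φ φ')
    (hB : ∀ t, 0 ≤ B t) (h0 : φ 0 * φ' 0 = 0) (h1 : φ 0 ≠ 0 ∨ φ' 0 ≠ 0) :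
    0 < φ π * φ' π := by
  have hd : ∀ t, HasDerivAt (fun t => φ t * φ' t) (φ' t ^ 2 + (κ ^ 2 + B t) * φ t ^ 2) t := by
    intro t
    refine HasDerivAt.congr_deriv ((h t).1.mul (h t).2) ?_
    ring
  have hmono : Monotone fun t => φ t * φ' t := by
    refine monotone_of_deriv_nonneg (fun t => (hd t).differentiableAt) fun t => ?_
    rw [(hd t).deriv]
    have := hB t
    positivity
  have hpos : 0 < φ' 0 ^ 2 + (κ ^ 2 + B 0) * φ 0 ^ 2 := by
    have := hB 0
    rcases h1 with h1 | h1 <;> positivity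
  by_contra hneg
  push Not at hneg
  have hz : ∀ t ∈ Icc (0 : ℝ) π, φ t * φ' t = 0 := by
    intro t ht
    have a1 := hmono ht.1
    have a2 := hmono ht.2
    simp only at a1 a2
    linarith
  have hw : HasDerivWithinAt (fun t => φ t * φ' t) 0 (Icc 0 π) 0 :=
    (hasDerivWithinAt_const (0 : ℝ) (Icc 0 π) (0 : ℝ)).congr hz (hz 0 (left_mem_Icc.2 pi_pos.le))
  have := (uniqueDiffOn_Icc pi_pos 0 (left_mem_Icc.2 pi_pos.le)).eq_deriv _
    (hd 0).hasDerivWithinAt hw
  linarith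

end Pool.Agent.Work.MP_58debc_an
end

-- merged part: Pool.Agent.Work.MP_58debc_an.B5
section
open Set Real MeasureTheory Laplacian InnerProductSpace Filter Metric
open scoped Topology RealInnerProductSpace

namespace Pool.Agent.Work.MP_58debc_an.Ball

variable {n : ℕ}

lemma sol_contDiff {κ : ℝ} {B g φ φ' : ℝ → ℝ} (h : IsSol κ B g φ φ')
    (hB : ContDiff ℝ (⊤ : ℕ∞) B) (hg : ContDiff ℝ (⊤ : ℕ∞) g) : ContDiff ℝ (⊤ : ℕ∞) φ := by
  have key : ∀ n : ℕ, ContDiff ℝ n φ ∧ ContDiff ℝ n φ' := by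
    intro n
    induction n with
    | zero => exact ⟨contDiff_zero.2 h.cont, contDiff_zero.2 h.cont'⟩
    | succ n ih =>
      have d1 : deriv φ = φ' := funext fun t => (h t).1.deriv
      have d2 : deriv φ' = fun t => (κ ^ 2 + B t) * φ t + g t := funext fun t => (h t).2.deriv
      have hBn : ContDiff ℝ n B := hB.of_le (by exact_mod_cast le_top)
      have hgn : ContDiff ℝ n g := hg.of_le (by exact_mod_cast le_top)
      constructor
      · rw [show ((n + 1 : ℕ) : WithTop ℕ∞) = n + 1 by push_cast; rfl, contDiff_succ_iff_deriv]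
        refine ⟨fun t => (h t).1.differentiableAt, by simp, ?_⟩
        rw [d1]; exact ih.2
      · rw [show ((n + 1 : ℕ) : WithTop ℕ∞) = n + 1 by push_cast; rfl, contDiff_succ_iff_deriv]
        refine ⟨fun t => (h t).2.differentiableAt, by simp, ?_⟩
        rw [d2]
        exact ((contDiff_const.add hBn).mul ih.1).add hgn
  exact contDiff_infty.2 fun n => (key n).1

lemma dexp (s t : ℝ) : HasDerivAt (fun t => exp (s * t)) (s * exp (s * t)) t := by
  simpa [mul_comm] using ((hasDerivAt_id t).const_mul s).exp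

lemma free_form {κ : ℝ} (hκ : 0 < κ) {B g φ φ' : ℝ → ℝ} (h : IsSol κ B g φ φ') {a b c A C : ℝ}
    (hc : c ∈ Icc a b) (h0 : ∀ t ∈ Ioo a b, B t * φ t + g t = 0)
    (e0 : φ c = A * exp (κ * c) + C * exp (-κ * c))
    (e1 : φ' c = κ * (A * exp (κ * c) - C * exp (-κ * c))) :
    ∀ t ∈ Icc a b, φ t = A * exp (κ * t) + C * exp (-κ * t) ∧
      φ' t = κ * (A * exp (κ * t) - C * exp (-κ * t)) := by
  intro t ht
  have c1 := h.cont
  have c2 := h.cont'
  have := free_unique κ a b hκ (fun t => φ t - (A * exp (κ * t) + C * exp (-κ * t)))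
    (fun t => φ' t - κ * (A * exp (κ * t) - C * exp (-κ * t))) (by fun_prop) (by fun_prop)
    (fun s _ => ((h s).1.sub (((dexp κ s).const_mul A).add
      ((dexp (-κ) s).const_mul C))).congr_deriv (by ring))
    (fun s hs => ((h s).2.sub ((((dexp κ s).const_mul A).sub
      ((dexp (-κ) s).const_mul C)).const_mul κ)).congr_deriv (by linear_combination h0 s hs))
    c hc (by rw [e0]; ring) (by rw [e1]; ring) t ht
  exact ⟨by linarith [this.1], by linarith [this.2]⟩

lemma free_right {κ : ℝ} (hκ : 0 < κ) {B g φ φ' : ℝ → ℝ} (h : IsSol κ B g φ φ') {c : ℝ}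
    (h0 : ∀ t, c < t → B t * φ t + g t = 0) :
    ∃ A C, ∀ t, c ≤ t → φ t = A * exp (κ * t) + C * exp (-κ * t) ∧
      φ' t = κ * (A * exp (κ * t) - C * exp (-κ * t)) := by
  have e : exp (κ * c) * exp (-κ * c) = 1 := by rw [← exp_add]; simp
  refine ⟨exp (-κ * c) * (φ c + φ' c / κ) / 2, exp (κ * c) * (φ c - φ' c / κ) / 2, fun t ht =>
    free_form hκ h (left_mem_Icc.2 ht) (fun s hs => h0 s hs.1) ?_ ?_ t (right_mem_Icc.2 ht)⟩
  · linear_combination -(φ c) * e
  · have : κ * (φ' c / κ) = φ' c := by field_simp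
    linear_combination -(φ' c) * e - (exp (κ * c) * exp (-κ * c)) * this

lemma free_left {κ : ℝ} (hκ : 0 < κ) {B g φ φ' : ℝ → ℝ} (h : IsSol κ B g φ φ') {c A : ℝ}
    (h0 : ∀ t, t < c → B t * φ t + g t = 0) (e0 : φ c = A * exp (κ * c))
    (e1 : φ' c = κ * (A * exp (κ * c))) (t : ℝ) (ht : t ≤ c) : φ t = A * exp (κ * t) := by
  simpa using (free_form (C := 0) hκ h (right_mem_Icc.2 ht) (fun s hs => h0 s hs.2) (by simpa)
    (by simpa) t (left_mem_Icc.2 ht)).1

lemma sol_shift {κ : ℝ} {B g φ φ' : ℝ → ℝ} (h : IsSol κ B g φ φ') (d c : ℝ) :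
    IsSol κ (fun t => B (t - d)) (fun t => c * g (t - d)) (fun t => c * φ (t - d))
      fun t => c * φ' (t - d) := by
  intro t
  have r : HasDerivAt (fun t => t - d) 1 t := (hasDerivAt_id t).sub_const d
  exact ⟨(((h (t - d)).1.comp t r).const_mul c).congr_deriv (by ring),
    (((h (t - d)).2.comp t r).const_mul c).congr_deriv (by ring)⟩

/-- the inhomogeneous free solution vanishing on the left -/
lemma exists_part {κ : ℝ} (hκ : 0 < κ) {g : ℝ → ℝ} (hg : Continuous g) {b b' : ℝ}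
    (h0 : ∀ t, t < b → g t = 0) (h1 : ∀ t, b' < t → g t = 0) :
    ∃ G G' A C, IsSol κ (fun _ => 0) g G G' ∧ (∀ t, t ≤ b → G t = 0) ∧
      (∀ t, b' ≤ t → G t = A * exp (κ * t) + C * exp (-κ * t)) ∧
      ((∫ t in b..b', exp (-κ * t) * g t) = 0 → A = 0) := by
  obtain ⟨p, p', a0, a1, hp⟩ := exists_free κ hκ (fun t => g (t + b)) (by fun_prop) 0 0
  have hs : IsSol κ (fun _ => 0) g (fun t => 1 * p (t - b)) fun t => 1 * p' (t - b) := by
    simpa using sol_shift hp b 1
  obtain ⟨A, C, hA⟩ := free_right hκ hs (c := b') fun t ht => by simp [h1 t ht]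
  refine ⟨_, _, A, C, hs, fun t ht => ?_, fun t ht => (hA t ht).1, fun hI => ?_⟩
  · simpa using free_left (A := 0) hκ hs (fun t ht => by simp [h0 t ht]) (by simp [a0])
      (by simp [a1]) t ht
  · have hd : ∀ t, HasDerivAt (fun t => exp (-κ * t) * (1 * p' (t - b) + κ * (1 * p (t - b))))
        (exp (-κ * t) * g t) t := fun t =>
      ((dexp (-κ) t).mul ((hs t).2.add ((hs t).1.const_mul κ))).congr_deriv (by
        simp only [Pi.add_apply]; ring)
    have := intervalIntegral.integral_eq_sub_of_hasDerivAt (a := b) (b := b') (fun t _ => hd t)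
      ((by fun_prop : Continuous fun t => exp (-κ * t) * g t).intervalIntegrable _ _)
    rw [hI, (hA b' le_rfl).1, (hA b' le_rfl).2] at this
    have e : exp (κ * b') * exp (-κ * b') = 1 := by rw [← exp_add]; simp
    simp only [sub_self, a0, a1, mul_zero, add_zero, sub_zero] at this
    have : κ * A = 0 := by linear_combination -this / 2 - κ * A * e
    exact (mul_eq_zero.1 this).resolve_left hκ.ne'

/-- the regular solution and its transmission coefficient -/
lemma exists_reg {κ : ℝ} (hκ : 0 < κ) {Q : ℝ → ℝ} (hQ : Continuous Q) (hQ0 : ∀ t, 0 ≤ Q t)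
    {l : ℝ} (hl0 : 0 ≤ l) (hl : l ≤ 4) (h0 : ∀ t, t ≤ 0 ∨ l ≤ t → Q t = 0) :
    ∃ A : ℝ, A ≠ 0 ∧ ∀ d : ℝ, ∃ F F' C, IsSol κ (fun t => Q (t - d)) (fun _ => 0) F F' ∧
      (∀ t, t ≤ d → F t = exp (κ * t)) ∧
      ∀ t, d + l ≤ t → F t = A * exp (κ * t) + C * exp (-κ * t) := by
  obtain ⟨φ, φ', a0, a1, h⟩ := exists_sol κ hκ Q hQ
    (fun t ht => h0 t (ht.imp id fun h => hl.trans h)) 1 κ
  obtain ⟨A, C, hA⟩ := free_right hκ h (c := l) fun t ht => by simp [h0 t (Or.inr ht.le)]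
  have hL := free_left (A := 1) hκ h (c := 0) (fun t ht => by simp [h0 t (Or.inl ht.le)])
    (by simp [a0]) (by simp [a1])
  refine ⟨A, fun hA0 => ?_, fun d => ⟨_, _, C * exp (2 * κ * d), by
    simpa using sol_shift h d (exp (κ * d)), fun t ht => ?_, fun t ht => ?_⟩⟩
  · have hd : ∀ t, HasDerivAt (fun t => φ t * φ' t) (φ' t ^ 2 + (κ ^ 2 + Q t) * φ t ^ 2) t :=
      fun t => ((h t).1.mul (h t).2).congr_deriv (by ring)
    have hmono : Monotone fun t => φ t * φ' t := by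
      refine monotone_of_deriv_nonneg (fun t => (hd t).differentiableAt) fun t => ?_
      rw [(hd t).deriv]
      have := hQ0 t
      positivity
    have := hmono hl0
    simp only [a0, a1, (hA l le_rfl).1, (hA l le_rfl).2, hA0] at this
    nlinarith [mul_nonneg hκ.le (mul_self_nonneg (C * exp (-κ * l)))]
  · rw [hL (t - d) (by linarith), one_mul, ← exp_add]
    congr 1; ring
  · rw [(hA (t - d) (by linarith)).1]
    have e1 : exp (κ * d) * exp (κ * (t - d)) = exp (κ * t) := by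
      rw [← exp_add]; congr 1; ring
    have e2 : exp (κ * d) * exp (-κ * (t - d)) = exp (2 * κ * d) * exp (-κ * t) := by
      rw [← exp_add, ← exp_add]; congr 1; ring
    linear_combination A * e1 + C * e2

variable {e : E n}

lemma sd_self (c : E n) : sd c c = 0 := by simp [sd]

lemma sd_tt {x : E n} (h1 : x ≠ e) (h2 : x ≠ -e) : sd e x = exp (2 * tt e x) * sd (-e) x := by
  have : 2 * tt e x = log (sd e x) - log (sd (-e) x) := by rw [tt]; ring
  rw [this, exp_sub, exp_log (sd_pos h1), exp_log (sd_pos h2), div_mul_cancel₀ _ (sd_pos h2).ne']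

/-- neighbourhoods of the pole `e` -/
def Nor (e : E n) (a : ℝ) : Set (E n) := {x | sd e x < exp (2 * a) * sd (-e) x}

/-- neighbourhoods of the pole `-e` -/
def Sou (e : E n) (b : ℝ) : Set (E n) := {x | exp (2 * b) * sd (-e) x < sd e x}

lemma isOpen_Nor (a : ℝ) : IsOpen (Nor e a) :=
  isOpen_lt (contDiff_sd e (m := 0)).continuous
    (continuous_const.mul (contDiff_sd (-e) (m := 0)).continuous)

lemma isOpen_Sou (b : ℝ) : IsOpen (Sou e b) :=
  isOpen_lt (continuous_const.mul (contDiff_sd (-e) (m := 0)).continuous)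
    (contDiff_sd e (m := 0)).continuous

lemma Nor_ne {a : ℝ} {x : E n} (h : x ∈ Nor e a) : x ≠ -e := by
  rintro rfl
  have : sd e (-e) < exp (2 * a) * sd (-e) (-e) := h
  rw [sd_self, mul_zero] at this
  exact this.not_ge (sd_nonneg _ _)

lemma Sou_ne {b : ℝ} {x : E n} (h : x ∈ Sou e b) : x ≠ e := by
  rintro rfl
  have : exp (2 * b) * sd (-x) x < sd x x := h
  rw [sd_self] at this
  exact this.not_ge (mul_nonneg (exp_pos _).le (sd_nonneg _ _))

lemma mem_Nor {a : ℝ} {x : E n} (h1 : x ≠ e) (h2 : x ≠ -e) : x ∈ Nor e a ↔ tt e x < a := by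
  show sd e x < _ ↔ _
  rw [sd_tt h1 h2, mul_lt_mul_iff_left₀ (sd_pos h2), exp_lt_exp]
  constructor <;> intro h <;> linarith

lemma mem_Sou {b : ℝ} {x : E n} (h1 : x ≠ e) (h2 : x ≠ -e) : x ∈ Sou e b ↔ b < tt e x := by
  show _ < sd e x ↔ _
  rw [sd_tt h1 h2, mul_lt_mul_iff_left₀ (sd_pos h2), exp_lt_exp]
  constructor <;> intro h <;> linarith

lemma ne_neg (he : ‖e‖ = 1) : e ≠ -e := by
  intro h
  have := sd_neg_eq he e
  rw [← h, sd_self, real_inner_self_eq_norm_sq, he] at this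
  norm_num at this

lemma pole_Nor (he : ‖e‖ = 1) (a : ℝ) : e ∈ Nor e a := by
  show sd e e < _
  rw [sd_self]
  exact mul_pos (exp_pos _) (sd_pos (ne_neg he))

lemma pole_Sou (he : ‖e‖ = 1) (b : ℝ) : -e ∈ Sou e b := by
  show _ < sd e (-e)
  rw [sd_self, mul_zero]
  exact sd_pos (ne_neg he).symm

lemma ball_ne (he : ‖e‖ = 1) {x : E n} (hx : x ∈ ball (0 : E n) 1) : x ≠ e ∧ x ≠ -e := by
  have := mem_ball_zero_iff.1 hx
  constructor <;> rintro rfl <;> simp [he] at this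

/-- separated test functions -/
lemma exists_mode (he : ‖e‖ = 1) {k : ℕ} (hk : mu n k ≠ 0) {P : E n → ℝ} (h : Hom k P)
    (ho : Od e P) (hz : ∀ y, Δ P y = 0) {F F1 F2 : ℝ → ℝ} (hF : ContDiff ℝ (⊤ : ℕ∞) F)
    (d1 : ∀ t, HasDerivAt F (F1 t) t) (d2 : ∀ t, HasDerivAt F1 (F2 t) t) {c0 t0 c1 t1 : ℝ}
    (h0 : ∀ t, t ≤ t0 → F t = c0 * exp (mu n k * t))
    (h1 : ∀ t, t1 ≤ t → F t = c1 * exp (-mu n k * t)) :
    ∃ φ : E n → ℝ, ContDiff ℝ (⊤ : ℕ∞) φ ∧ (∀ x ∈ sphere (0 : E n) 1, φ x = 0) ∧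
      (∀ x ∈ ball (0 : E n) 1, φ x = F (tt e x) * kk e (mu n k) P x ∧
        Δ φ x = (F2 (tt e x) - mu n k ^ 2 * F (tt e x)) * JJ e x * kk e (mu n k) P x) ∧
      (c0 = 0 → ∀ x ∈ Nor e t0, φ x = 0) := by
  classical
  set m := mu n k with hm
  let φ : E n → ℝ := fun x =>
    if x = e then c0 * (exp (-m * log (sd (-e) x)) * P (NN (-e) x))
    else if x = -e then c1 * (exp (-m * log (sd e x)) * P (NN (-e) x))
    else F (tt e x) * kk e m P x
  have a0 : ∀ x, x ≠ e → x ≠ -e → φ x = F (tt e x) * kk e m P x := fun x b1 b2 => by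
    simp only [φ, if_neg b1, if_neg b2]
  have aN : ∀ x ∈ Nor e t0, φ x = c0 * (exp (-m * log (sd (-e) x)) * P (NN (-e) x)) := by
    intro x hx
    by_cases b1 : x = e
    · simp only [φ, if_pos b1]
    · rw [a0 x b1 (Nor_ne hx), h0 _ ((mem_Nor b1 (Nor_ne hx)).1 hx).le, mul_assoc, kk_plus]
  have aS : ∀ x ∈ Sou e t1, φ x = c1 * (exp (-m * log (sd e x)) * P (NN (-e) x)) := by
    intro x hx
    by_cases b2 : x = -e
    · simp only [φ, if_neg (Sou_ne hx), if_pos b2]
    · rw [a0 x (Sou_ne hx) b2, h1 _ ((mem_Sou (Sou_ne hx) b2).1 hx).le, mul_assoc, kk_minus]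
  have ev : ∀ x, x ≠ e → x ≠ -e → φ =ᶠ[𝓝 x] fun y => F (tt e y) * kk e m P y := by
    intro x b1 b2
    filter_upwards [eventually_ne_nhds b1, eventually_ne_nhds b2] with y c1 c2 using a0 y c1 c2
  have hPN : ContDiff ℝ (⊤ : ℕ∞) fun y => P (NN (-e) y) := h.sm.comp (contDiff_NN (-e))
  refine ⟨φ, contDiff_iff_contDiffAt.2 fun x => ?_, fun x hx => ?_, fun x hx => ?_,
    fun hc x hx => by rw [aN x hx, hc, zero_mul]⟩
  · by_cases b1 : x = e
    · have hx : x ∈ Nor e t0 := b1 ▸ pole_Nor (b1 ▸ he) t0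
      refine ContDiffAt.congr_of_eventuallyEq ?_
        (eventually_of_mem ((isOpen_Nor t0).mem_nhds hx) aN)
      exact contDiffAt_const.mul ((contDiffAt_const.mul ((contDiff_sd (-e)).contDiffAt.log
        (sd_pos (Nor_ne hx)).ne')).exp.mul hPN.contDiffAt)
    by_cases b2 : x = -e
    · have hx : x ∈ Sou e t1 := b2 ▸ pole_Sou he t1
      refine ContDiffAt.congr_of_eventuallyEq ?_
        (eventually_of_mem ((isOpen_Sou t1).mem_nhds hx) aS)
      exact contDiffAt_const.mul ((contDiffAt_const.mul ((contDiff_sd e).contDiffAt.log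
        (sd_pos b1).ne')).exp.mul hPN.contDiffAt)
    exact ((hF.contDiffAt.comp x (contDiffAt_tt b1 b2)).mul
      (contDiffAt_kk b1 b2 m h.sm)).congr_of_eventuallyEq (ev x b1 b2)
  · have : P (NN (-e) x) = 0 :=
      ho.zero he (by rw [inner_NN he, mem_sphere_zero_iff_norm.1 hx]; simp)
    simp only [φ, kk, this, mul_zero, ite_self]
  · obtain ⟨b1, b2⟩ := ball_ne he hx
    exact ⟨a0 x b1 b2, by
      rw [(laplacian_congr_nhds (ev x b1 b2)).eq_of_nhds, lap_mode he hk h ho hz b1 b2 hF d1 d2]⟩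

end Pool.Agent.Work.MP_58debc_an.Ball
end

-- merged part: Pool.Agent.Work.MP_58debc_an.B6
section
open Set Real MeasureTheory Laplacian InnerProductSpace Filter Metric
open scoped Topology RealInnerProductSpace

namespace Pool.Agent.Work.MP_58debc_an.Ball

variable {n : ℕ} {e : E n}

lemma contDiff_loc (he : ‖e‖ = 1) {m : WithTop ℕ∞} {G : ℝ → ℝ} (hG : ContDiff ℝ m G) {a b : ℝ}
    (h0 : ∀ t, t < a → G t = 0) (h1 : ∀ t, b < t → G t = 0) {f : E n → ℝ}
    (hf : ∀ x, x ≠ e → x ≠ -e → ContDiffAt ℝ m f x) :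
    ContDiff ℝ m fun x => G (tt e x) * JJ e x * f x := by
  refine contDiff_iff_contDiffAt.2 fun x => ?_
  by_cases b1 : x = e
  · refine (contDiffAt_const (c := (0 : ℝ))).congr_of_eventuallyEq ?_
    filter_upwards [(isOpen_Nor a).mem_nhds (b1 ▸ pole_Nor (b1 ▸ he) a : x ∈ Nor e a)] with y hy
    by_cases c1 : y = e
    · simp [JJ, c1, sd_self]
    · simp [h0 _ ((mem_Nor c1 (Nor_ne hy)).1 hy)]
  by_cases b2 : x = -e
  · refine (contDiffAt_const (c := (0 : ℝ))).congr_of_eventuallyEq ?_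
    filter_upwards [(isOpen_Sou b).mem_nhds (b2 ▸ pole_Sou he b : x ∈ Sou e b)] with y hy
    by_cases c1 : y = -e
    · simp [JJ, c1, sd_self]
    · simp [h1 _ ((mem_Sou (Sou_ne hy) c1).1 hy)]
  exact ((hG.contDiffAt.comp x (contDiffAt_tt b1 b2)).mul (contDiffAt_JJ b1 b2)).mul (hf x b1 b2)

/-- the inversion exchanging the ball and a half space -/
noncomputable def TT (e x : E n) : E n := (2 / sd (-e) x) • (x - -e) + -e

/-- the Kelvin weight -/
noncomputable def WW (e x : E n) : ℝ := exp (-((n : ℝ) / 2 - 1) * log (sd (-e) x))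

lemma NN_TT {x : E n} (h : x ≠ -e) : NN (-e) x = sd (-e) x • TT e x := by
  rw [NN, TT, smul_add, smul_smul, mul_div_cancel₀ _ (sd_pos h).ne']

lemma continuousAt_TT {x : E n} (h : x ≠ -e) : ContinuousAt (TT e) x :=
  ((continuousAt_const.div (contDiff_sd (-e) (m := 0)).continuous.continuousAt
    (sd_pos h).ne').smul (continuousAt_id.sub continuousAt_const)).add continuousAt_const

lemma continuousAt_WW {x : E n} (h : x ≠ -e) : ContinuousAt (WW e) x :=
  (continuousAt_const.mul ((contDiff_sd (-e) (m := 0)).continuous.continuousAt.log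
    (sd_pos h).ne')).rexp

lemma TT_TT {x : E n} (h : x ≠ -e) : TT e (TT e x) = x := by
  have p := sd_pos h
  have a : TT e x - -e = (2 / sd (-e) x) • (x - -e) := by rw [TT, add_sub_cancel_right]
  have b : sd (-e) (TT e x) = 4 / sd (-e) x := by
    rw [sd, a, norm_smul, mul_pow, Real.norm_eq_abs, sq_abs]
    show _ * sd (-e) x = _
    field_simp
    norm_num
  rw [TT, b, a, smul_smul, show 2 / (4 / sd (-e) x) * (2 / sd (-e) x) = 1 by field_simp; norm_num]
  simp

lemma inner_TT (he : ‖e‖ = 1) {x : E n} (h : x ≠ -e) :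
    sd (-e) x * ⟪e, TT e x⟫ = 1 - ‖x‖ ^ 2 := by
  rw [← inner_NN he, NN_TT h, real_inner_smul_right]

lemma norm_TT (he : ‖e‖ = 1) {x : E n} (h : x ≠ -e) : ‖TT e x‖ ^ 2 * sd (-e) x = sd e x := by
  have p := sd_pos h
  have a : ⟪x - -e, -e⟫ = -(⟪e, x⟫ + 1) := by
    rw [inner_neg_right, sub_neg_eq_add, inner_add_left, real_inner_self_eq_norm_sq, he,
      real_inner_comm]
    ring
  have b : ‖x - -e‖ ^ 2 = sd (-e) x := rfl
  have c : sd e x = sd (-e) x - 4 * ⟪e, x⟫ := by rw [sd_eq he, sd_neg_eq he]; ring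
  rw [TT, norm_add_sq_real, norm_smul, mul_pow, Real.norm_eq_abs, sq_abs, real_inner_smul_left,
    a, b, norm_neg, he, c]
  field_simp
  ring

lemma TT_out (he : ‖e‖ = 1) {z : E n} (h : ⟪e, z⟫ ≤ 0) : TT e z ∉ ball (0 : E n) 1 := by
  rw [mem_ball_zero_iff, not_lt]
  by_cases h1 : z = -e
  · simp [TT, h1, he]
  · have a := norm_TT he h1
    have p := sd_pos h1
    have c : sd e z = sd (-e) z - 4 * ⟪e, z⟫ := by rw [sd_eq he, sd_neg_eq he]; ring
    by_contra hc
    have : ‖TT e z‖ ^ 2 < 1 := by nlinarith [norm_nonneg (TT e z)]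
    nlinarith

lemma sd_TT (he : ‖e‖ = 1) {x : E n} (h1 : x ≠ e) (h2 : x ≠ -e) :
    sd 0 (TT e x) = exp (2 * tt e x) := by
  have a := norm_TT he h2
  rw [sd_tt h1 h2] at a
  rw [sd_zero]
  exact mul_right_cancel₀ (sd_pos h2).ne' a

lemma kk_TT {k : ℕ} {P : E n → ℝ} (h : Hom k P) {x : E n} (h2 : x ≠ -e) :
    exp (mu n k * tt e x) * kk e (mu n k) P x = WW e x * P (TT e x) := by
  rw [kk_plus, NN_TT h2, h.hm, ← mul_assoc, WW]
  congr 1
  conv_lhs => rw [← exp_log (pow_pos (sd_pos h2) k), ← exp_add, log_pow]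
  congr 1
  rw [mu]; ring

lemma mu_pos (hn : 2 ≤ n) {k : ℕ} (hk : k ≠ 0) : 0 < mu n k := by
  have a : (2 : ℝ) ≤ n := by exact_mod_cast hn
  have b : (1 : ℝ) ≤ k := by exact_mod_cast Nat.one_le_iff_ne_zero.2 hk
  rw [mu]; linarith

/-- `w` is orthogonal to all modes cut off to the right of `b` -/
def Orth (e : E n) (w : E n → ℝ) (b : ℝ) : Prop :=
  ∀ (k : ℕ) (P : E n → ℝ), 0 < mu n k → Hom k P → Od e P → (∀ y, Δ P y = 0) →
    ∀ (g : ℝ → ℝ) (b' : ℝ), ContDiff ℝ (⊤ : ℕ∞) g → (∀ t, t < b → g t = 0) →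
      (∀ t, b' < t → g t = 0) → ∫ x, w x * (g (tt e x) * JJ e x * kk e (mu n k) P x) ∂mB n = 0

section
variable (hn : 2 ≤ n) (he : ‖e‖ = 1) {w : E n → ℝ} (hw : Integrable w (mB n)) {b b' : ℝ}
  (H : Orth e w b) {G : ℝ → ℝ} (hG : ContDiff ℝ (⊤ : ℕ∞) G) (h0 : ∀ t, t < b → G t = 0)
  (h1 : ∀ t, b' < t → G t = 0)

include he hG h0 h1 in
lemma cont_wt {ψ : E n → ℝ} (hψ : Continuous ψ) :
    Continuous fun x => G (tt e x) * JJ e x * (WW e x * ψ (TT e x)) :=
  (contDiff_loc (m := 0) he (hG.of_le (by simp)) h0 h1 fun x _ b2 => by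
    refine contDiffAt_zero.2 ⟨{y | y ≠ -e}, isOpen_ne.mem_nhds b2, fun y hy => ?_⟩
    exact ((continuousAt_WW hy).mul
      (hψ.continuousAt.comp (continuousAt_TT hy))).continuousWithinAt).continuous

include hn he hw H hG h0 h1 in
lemma orth_hom {m : ℕ} {P : E n → ℝ} (h : Hom m P) (ho : Od e P) :
    ∫ x, w x * (G (tt e x) * JJ e x * (WW e x * P (TT e x))) ∂mB n = 0 := by
  have key : ∀ ψ ∈ Submodule.span ℝ (Gen e m), Continuous ψ ∧
      ∫ x, w x * (G (tt e x) * JJ e x * (WW e x * ψ (TT e x))) ∂mB n = 0 := by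
    intro ψ hψ
    induction hψ using Submodule.span_induction with
    | mem g hg =>
      obtain ⟨j, k, P, -, hP, ho, hz, rfl⟩ := hg
      refine ⟨(hP.pow_mul j).sm.continuous, ?_⟩
      rcases eq_or_ne k 0 with rfl | hk
      · simp [hP.zero_of_od ho]
      · rw [← H k P (mu_pos hn hk) hP ho hz (fun t => G t * (exp (2 * t) ^ j * exp (mu n k * t)))
          b' (by fun_prop) (fun t ht => by simp [h0 t ht]) fun t ht => by simp [h1 t ht]]
        refine integral_congr_ae (ae_mB.mono fun x hx => ?_)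
        obtain ⟨b1, b2⟩ := ball_ne he hx
        have := kk_TT hP b2
        simp only [sd_TT he b1 b2]
        linear_combination -(w x * G (tt e x) * JJ e x * exp (2 * tt e x) ^ j) * this
    | zero => exact ⟨continuous_const, by simp⟩
    | add g1 g2 _ _ a1 a2 =>
      refine ⟨a1.1.add a2.1, ?_⟩
      have := integral_add (int_mul_mB hw (cont_wt he hG h0 h1 a1.1))
        (int_mul_mB hw (cont_wt he hG h0 h1 a2.1))
      rw [a1.2, a2.2, add_zero] at this
      rw [← this]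
      refine integral_congr_ae (Eventually.of_forall fun x => ?_)
      simp only [Pi.add_apply]
      ring
    | smul c g _ a1 =>
      refine ⟨a1.1.const_smul c, ?_⟩
      have := integral_const_mul (μ := mB n) c
        fun x => w x * (G (tt e x) * JJ e x * (WW e x * g (TT e x)))
      rw [a1.2, mul_zero] at this
      rw [← this]
      refine integral_congr_ae (Eventually.of_forall fun x => ?_)
      simp only [Pi.smul_apply, smul_eq_mul]
      ring
  exact (key P (fischer (by omega) e m P h ho)).2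

/-- polynomial functions -/
def polyAlg (n : ℕ) : Subalgebra ℝ C(E n, ℝ) := Algebra.adjoin ℝ {f | ∃ k, Hom k f}

lemma polyAlg_sep : (polyAlg n).SeparatesPoints := by
  intro x y hxy
  let f : C(E n, ℝ) := ⟨fun z => ⟪x - y, z⟫, by fun_prop⟩
  refine ⟨f, ⟨f, Algebra.subset_adjoin ⟨1, contDiff_const.inner ℝ contDiff_id, fun t z => ?_⟩,
    rfl⟩, fun h => hxy ?_⟩
  · simp [f, real_inner_smul_right]
  · have : ⟪x - y, x - y⟫ = 0 := by
      rw [inner_sub_right]; exact sub_eq_zero.2 h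
    exact sub_eq_zero.1 (inner_self_eq_zero.1 this)

include hn he hw H hG h0 h1 in
lemma orth_poly {f : C(E n, ℝ)} (hf : f ∈ polyAlg n) :
    ∫ x, w x * (G (tt e x) * JJ e x * (WW e x * (f (TT e x) - f (rf e (TT e x))))) ∂mB n = 0 := by
  have hf' : f ∈ Submodule.span ℝ (Submonoid.closure {f : C(E n, ℝ) | ∃ k, Hom k f} :
      Set C(E n, ℝ)) := by
    rw [← Algebra.adjoin_eq_span]; exact hf
  clear hf
  have cc : ∀ f : C(E n, ℝ), Continuous fun y => f y - f (rf e y) := fun f => by fun_prop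
  induction hf' using Submodule.span_induction with
  | mem g hg =>
    have : ∃ k, Hom k g := by
      induction hg using Submonoid.closure_induction with
      | mem _ h => exact h
      | one => exact ⟨0, contDiff_const, by simp⟩
      | mul f g _ _ a1 a2 =>
        obtain ⟨k, a1⟩ := a1
        obtain ⟨l, a2⟩ := a2
        refine ⟨k + l, a1.sm.mul a2.sm, fun t y => ?_⟩
        simp only [ContinuousMap.mul_apply, a1.hm, a2.hm]
        ring
    obtain ⟨k, hk⟩ := this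
    refine orth_hom hn he hw H hG h0 h1 (m := k) (P := fun y => g y - g (rf e y))
      ⟨hk.sm.sub (hk.sm.comp (rf e).contDiff), fun t y => ?_⟩ fun y => by simp [rf_rf]
    rw [(rf e).map_smul, hk.hm, hk.hm]; ring
  | zero => simp
  | add g1 g2 _ _ a1 a2 =>
    have := integral_add (int_mul_mB hw (cont_wt he hG h0 h1 (cc g1)))
      (int_mul_mB hw (cont_wt he hG h0 h1 (cc g2)))
    rw [a1, a2, add_zero] at this
    rw [← this]
    refine integral_congr_ae (Eventually.of_forall fun x => ?_)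
    simp only [ContinuousMap.add_apply]
    ring
  | smul c g _ a1 =>
    have := integral_const_mul (μ := mB n) c
      fun x => w x * (G (tt e x) * JJ e x * (WW e x * (g (TT e x) - g (rf e (TT e x)))))
    rw [a1, mul_zero] at this
    rw [← this]
    refine integral_congr_ae (Eventually.of_forall fun x => ?_)
    simp only [ContinuousMap.smul_apply, smul_eq_mul]
    ring

include hn he hw H hG h0 h1 in
lemma orth_cont {ψ : E n → ℝ} (hψ : Continuous ψ) :
    ∫ x, w x * (G (tt e x) * JJ e x * (WW e x * (ψ (TT e x) - ψ (rf e (TT e x))))) ∂mB n = 0 := by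
  have cc : ∀ f : E n → ℝ, Continuous f → Continuous fun y => f y - f (rf e y) :=
    fun f hf => by fun_prop
  have i1 := int_mul_mB hw (cont_wt he hG h0 h1 (continuous_const (y := (1 : ℝ))))
  set M := ∫ x, ‖w x * (G (tt e x) * JJ e x * (WW e x * 1))‖ ∂mB n with hM
  have M0 : 0 ≤ M := integral_nonneg fun x => norm_nonneg _
  refine norm_le_zero_iff.1 (le_of_forall_pos_le_add fun δ hδ => ?_)
  have hε : 0 < δ / (2 * (M + 1)) := by positivity
  obtain ⟨f, hf, hK⟩ :=
    ContinuousMap.exists_mem_subalgebra_near_continuous_of_isCompact_of_separatesPoints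
      polyAlg_sep ⟨ψ, hψ⟩ (isCompact_closedBall (0 : E n) (exp b')) hε
  have e1 := integral_sub (int_mul_mB hw (cont_wt he hG h0 h1 (cc ψ hψ)))
    (int_mul_mB hw (cont_wt he hG h0 h1 (cc f f.continuous)))
  rw [orth_poly hn he hw H hG h0 h1 hf, sub_zero] at e1
  rw [← e1]
  refine (norm_integral_le_of_norm_le (i1.norm.const_mul (δ / (M + 1))) ?_).trans ?_
  · filter_upwards [ae_mB] with x hx
    obtain ⟨b1, b2⟩ := ball_ne he hx
    by_cases hb : b' < tt e x
    · simp [h1 _ hb]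
    have hT : ‖TT e x‖ ≤ exp b' := by
      refine (pow_le_pow_iff_left₀ (norm_nonneg _) (exp_pos _).le two_ne_zero).1 ?_
      rw [← sd_zero, sd_TT he b1 b2, sq, ← exp_add, exp_le_exp]
      linarith [not_lt.1 hb]
    have k1 := hK _ (mem_closedBall_zero_iff.2 hT)
    have k2 := hK (rf e (TT e x)) (mem_closedBall_zero_iff.2 (by rwa [(rf e).norm_map]))
    simp only [ContinuousMap.coe_mk, Real.norm_eq_abs, abs_lt] at k1 k2
    have e2 : w x * (G (tt e x) * JJ e x * (WW e x * (ψ (TT e x) - ψ (rf e (TT e x))))) -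
        w x * (G (tt e x) * JJ e x * (WW e x * (f (TT e x) - f (rf e (TT e x))))) =
        ((ψ (TT e x) - ψ (rf e (TT e x))) - (f (TT e x) - f (rf e (TT e x)))) *
          (w x * (G (tt e x) * JJ e x * (WW e x * 1))) := by ring
    rw [e2, norm_mul]
    refine mul_le_mul_of_nonneg_right ?_ (norm_nonneg _)
    have e3 : δ / (M + 1) = 2 * (δ / (2 * (M + 1))) := by field_simp
    rw [Real.norm_eq_abs, abs_le, e3]
    constructor <;> linarith [k1.1, k1.2, k2.1, k2.2]
  · rw [integral_const_mul, ← hM, zero_add, div_mul_eq_mul_div, div_le_iff₀ (by positivity)]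
    nlinarith

include hn he hw H hG h0 h1 in
lemma ae_wt : ∀ᵐ x ∂mB n, w x * (G (tt e x) * JJ e x * (WW e x * 1)) = 0 := by
  have i1 := int_mul_mB hw (cont_wt he hG h0 h1 (continuous_const (y := (1 : ℝ))))
  have := isOpen_ball.ae_eq_zero_of_integral_contDiff_smul_eq_zero (μ := mB n)
    (U := ball (0 : E n) 1) (i1.locallyIntegrable.locallyIntegrableOn _) fun θ hθ _ hs => by
      have z : ∀ y, y ∉ ball (0 : E n) 1 → θ y = 0 := fun y hy =>
        image_eq_zero_of_notMem_tsupport fun h => hy (hs h)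
      have c : Continuous fun y => θ (TT e y) := by
        refine continuous_iff_continuousAt.2 fun y => ?_
        by_cases hy : y = -e
        · refine (continuousAt_const (y := (0 : ℝ))).congr ?_
          have : y ∈ {z : E n | ⟪e, z⟫ < 0} := by
            simp [hy, he]
          filter_upwards [(isOpen_lt (by fun_prop) continuous_const).mem_nhds this] with u hu
          exact (z _ (TT_out he (le_of_lt hu))).symm
        · exact hθ.continuous.continuousAt.comp (continuousAt_TT hy)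
      rw [← orth_cont hn he hw H hG h0 h1 c]
      refine integral_congr_ae (ae_mB.mono fun x hx => ?_)
      obtain ⟨b1, b2⟩ := ball_ne he hx
      have a : ⟪e, rf e (TT e x)⟫ ≤ 0 := by
        have a1 := inner_TT he b2
        have a2 := sd_pos b2
        have a3 := mem_ball_zero_iff.1 hx
        have a4 : 0 ≤ ⟪e, TT e x⟫ := by
          by_contra hc
          nlinarith [norm_nonneg x, mul_pos a2 (neg_pos.2 (not_le.1 hc))]
        rw [rf_apply he, inner_sub_right, real_inner_smul_right, real_inner_self_eq_norm_sq, he]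
        linarith
      simp only [TT_TT b2, z _ (TT_out he a), smul_eq_mul]
      ring
  filter_upwards [this, ae_mB] with x h1 h2 using h1 h2

end

/-- completeness of the modes near the pole `-e` -/
lemma vanish_south (hn : 2 ≤ n) (he : ‖e‖ = 1) {w : E n → ℝ} (hw : Integrable w (mB n)) {b : ℝ}
    (H : Orth e w b) : ∀ᵐ x ∂mB n, x ∈ Sou e b → w x = 0 := by
  have key : ∀ j : ℕ, ∀ᵐ x ∂mB n, w x * ((fun t => expNegInvGlue (t - b) *
      expNegInvGlue (b + j - t)) (tt e x) * JJ e x * (WW e x * 1)) = 0 := fun j =>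
    ae_wt hn he hw H (b' := b + j) (G := fun t => expNegInvGlue (t - b) * expNegInvGlue (b + j - t))
      ((expNegInvGlue.contDiff.comp (contDiff_id.sub contDiff_const)).mul
        (expNegInvGlue.contDiff.comp (contDiff_const.sub contDiff_id)))
      (fun t ht => by rw [expNegInvGlue.zero_of_nonpos (by linarith), zero_mul])
      fun t ht => by rw [expNegInvGlue.zero_of_nonpos (x := b + j - t) (by linarith), mul_zero]
  filter_upwards [ae_all_iff.2 key, ae_mB] with x h1 hx hs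
  obtain ⟨b1, b2⟩ := ball_ne he hx
  obtain ⟨j, hj⟩ := exists_nat_gt (tt e x - b)
  have p1 := expNegInvGlue.pos_of_pos (sub_pos.2 ((mem_Sou b1 b2).1 hs))
  have p2 := expNegInvGlue.pos_of_pos (x := b + j - tt e x) (by linarith)
  have p3 := JJ_pos b1 b2
  have p4 : 0 < WW e x := exp_pos _
  exact (mul_eq_zero.1 (h1 j)).resolve_right (by positivity)

end Pool.Agent.Work.MP_58debc_an.Ball
end

-- merged part: Pool.Agent.Work.MP_58debc_an.B7
section
open Set Real MeasureTheory Laplacian InnerProductSpace Filter Metric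
open scoped Topology RealInnerProductSpace

namespace Pool.Agent.Work.MP_58debc_an.Ball

variable {n : ℕ} {e : E n}

/-- real Green pairing on the ball -/
noncomputable def gr (q u φ : E n → ℝ) : ℝ := ∫ x, u x * (Δ φ x - q x * φ x) ∂mB n

/-- potentials separated in bipolar coordinates -/
noncomputable def pot (e : E n) (Q : ℝ → ℝ) (x : E n) : ℝ := Q (tt e x) * JJ e x

lemma contDiff_pot (he : ‖e‖ = 1) {Q : ℝ → ℝ} (hQ : ContDiff ℝ (⊤ : ℕ∞) Q) {a b : ℝ}
    (h0 : ∀ t, t < a → Q t = 0) (h1 : ∀ t, b < t → Q t = 0) : ContDiff ℝ (⊤ : ℕ∞) (pot e Q) := by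
  have := contDiff_loc he hQ h0 h1 (f := fun _ => 1) fun _ _ _ => contDiffAt_const
  simp only [mul_one] at this
  exact this

lemma gr_add {q u φ ψ : E n → ℝ} (hq : Continuous q) (hu : Integrable u (mB n))
    (hφ : ContDiff ℝ (⊤ : ℕ∞) φ) (hψ : ContDiff ℝ (⊤ : ℕ∞) ψ) :
    gr q u (φ + ψ) = gr q u φ + gr q u ψ := by
  refine Eq.trans ?_ (integral_add
    (int_mul_mB hu ((continuous_lap hφ).sub (hq.mul hφ.continuous)))
    (int_mul_mB hu ((continuous_lap hψ).sub (hq.mul hψ.continuous))))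
  refine integral_congr_ae (Eventually.of_forall fun x => ?_)
  simp only [(cd2 hφ x).laplacian_add (cd2 hψ x), Pi.add_apply]
  ring

lemma south_extend (he : ‖e‖ = 1) {q w F : E n → ℝ} (hq : Continuous q)
    (hw : Integrable w (mB n)) {b b2 : ℝ} (hb : b < b2)
    (w0 : ∀ᵐ x ∂mB n, x ∈ Sou e b → w x = 0) (F0 : ∀ᵐ x ∂mB n, x ∈ Sou e b → F x = 0)
    (H : ∀ φ : E n → ℝ, ContDiff ℝ (⊤ : ℕ∞) φ → (∀ x ∈ sphere (0 : E n) 1, φ x = 0) →
      gr q w φ = ∫ x, F x * φ x ∂mB n) {φ : E n → ℝ} (hφ : ContDiff ℝ (⊤ : ℕ∞) φ)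
    (h0 : ∀ x ∈ sphere (0 : E n) 1, x ∉ Sou e b2 → φ x = 0) :
    gr q w φ = ∫ x, F x * φ x ∂mB n := by
  set l1 := exp (2 * ((b + b2) / 2)) with hl1
  set l2 := exp (2 * b2) with hl2
  have p1 : 0 < l1 := exp_pos _
  have p2 : l1 < l2 := exp_lt_exp.2 (by linarith)
  have pd : 0 < 4 * (l2 - l1) / (1 + l2) := by
    have : 0 < l2 - l1 := sub_pos.2 p2
    have : 0 < 1 + l2 := by linarith
    positivity
  let χ : E n → ℝ := fun x =>
    smoothTransition ((sd e x - l1 * sd (-e) x) / (4 * (l2 - l1) / (1 + l2)))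
  have hχ : ContDiff ℝ (⊤ : ℕ∞) χ := smoothTransition.contDiff.comp
    (((contDiff_sd e).sub (contDiff_const.mul (contDiff_sd (-e)))).div_const _)
  have c1 : ContDiff ℝ (⊤ : ℕ∞) fun x => χ x * φ x := hχ.mul hφ
  have c2 : ContDiff ℝ (⊤ : ℕ∞) fun x => (1 - χ x) * φ x := (contDiff_const.sub hχ).mul hφ
  have split : φ = (fun x => χ x * φ x) + fun x => (1 - χ x) * φ x := by
    ext x; simp only [Pi.add_apply]; ring
  have z : ∀ x, x ∉ Sou e b → (fun x => χ x * φ x) =ᶠ[𝓝 x] fun _ => 0 := by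
    intro x hx
    have hx' : x ∈ Nor e ((b + b2) / 2) := by
      have a1 : x ≠ -e := fun h => hx (h ▸ pole_Sou he b)
      have a2 : sd e x ≤ exp (2 * b) * sd (-e) x := not_lt.1 hx
      exact a2.trans_lt (mul_lt_mul_of_pos_right (exp_lt_exp.2 (by linarith)) (sd_pos a1))
    filter_upwards [(isOpen_Nor _).mem_nhds hx'] with y hy
    have : χ y = 0 := smoothTransition.zero_of_nonpos
      (div_nonpos_of_nonpos_of_nonneg (sub_nonpos.2 (le_of_lt hy)) pd.le)
    rw [this, zero_mul]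
  have a1 : gr q w (fun x => χ x * φ x) = 0 := by
    refine integral_eq_zero_of_ae (w0.mono fun x hx => ?_)
    by_cases h : x ∈ Sou e b
    · simp [hx h]
    · have e1 := (laplacian_congr_nhds (z x h)).eq_of_nhds
      have e2 : χ x * φ x = 0 := (z x h).eq_of_nhds
      simp [e1, e2]
  have a2 : ∫ x, F x * ((1 - χ x) * φ x) ∂mB n = ∫ x, F x * φ x ∂mB n := by
    refine integral_congr_ae (F0.mono fun x hx => ?_)
    by_cases h : x ∈ Sou e b
    · simp [hx h]
    · have e2 : χ x * φ x = 0 := (z x h).eq_of_nhds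
      simp only [sub_mul, e2, one_mul, sub_zero]
  rw [← a2, ← H _ c2 fun x hx => ?_]
  · conv_lhs => rw [split]
    rw [gr_add hq hw c1 c2, a1, zero_add]
  · by_cases h : x ∈ Sou e b2
    · have h' : l2 * sd (-e) x < sd e x := h
      have s4 : sd (-e) x = 4 - sd e x := by
        rw [sd_eq he, sd_neg_eq he, mem_sphere_zero_iff_norm.1 hx]; ring
      have : χ x = 1 := by
        refine smoothTransition.one_of_one_le ?_
        rw [le_div_iff₀ pd, one_mul, div_le_iff₀ (by linarith)]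
        rw [s4] at h' ⊢
        nlinarith
      rw [this, sub_self, zero_mul]
    · rw [h0 x hx h, mul_zero]

lemma memLp_mul {c u : E n → ℝ} (hc : Continuous c) (hu : MemLp u 2 (mB n)) :
    MemLp (fun x => c x * u x) 2 (mB n) := by
  obtain ⟨C, hC⟩ := bdd_mB hc
  exact MemLp.of_le_mul (c := C) hu (hc.aestronglyMeasurable.mul hu.1) (hC.mono fun x hx => by
    rw [norm_mul]; exact mul_le_mul_of_nonneg_right hx (norm_nonneg _))

lemma int_of_L2 {u : E n → ℝ} (hu : MemLp u 2 (mB n)) : Integrable u (mB n) :=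
  hu.integrable (by norm_num)

theorem transfer (hn : 2 ≤ n) (he : ‖e‖ = 1) {Q : ℝ → ℝ} (hQ : ContDiff ℝ (⊤ : ℕ∞) Q)
    (hQ0 : ∀ t, 0 ≤ Q t) {l : ℝ} (hl0 : 0 ≤ l) (hl : l ≤ 4) (h0 : ∀ t, t ≤ 0 ∨ l ≤ t → Q t = 0)
    {a b b2 d1 d2 : ℝ} (a1 : a ≤ d1) (a2 : a ≤ d2) (b1 : d1 + l ≤ b) (b2' : d2 + l ≤ b)
    (hb : b < b2) {u : E n → ℝ} (hu : MemLp u 2 (mB n))
    (hu0 : ∀ φ : E n → ℝ, ContDiff ℝ (⊤ : ℕ∞) φ → (∀ x ∈ sphere (0 : E n) 1, φ x = 0) →
      (∀ x ∈ Nor e a, φ x = 0) → gr (pot e fun t => Q (t - d1)) u φ = 0) :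
    ∃ v : E n → ℝ, MemLp v 2 (mB n) ∧ ∀ φ : E n → ℝ, ContDiff ℝ (⊤ : ℕ∞) φ →
      (∀ x ∈ sphere (0 : E n) 1, x ∉ Sou e b2 → φ x = 0) →
      gr (pot e fun t => Q (t - d2)) v φ = gr (pot e fun t => Q (t - d1)) u φ := by
  have sQ : ∀ d, ContDiff ℝ (⊤ : ℕ∞) fun t => Q (t - d) := fun d =>
    hQ.comp (contDiff_id.sub contDiff_const)
  have cq : ∀ d, Continuous (pot e fun t => Q (t - d)) := fun d =>
    (contDiff_pot he (sQ d) (a := d) (b := d + l) (fun t ht => h0 _ (Or.inl (by linarith)))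
      fun t ht => h0 _ (Or.inr (by linarith))).continuous
  have z1 : ∀ t, b ≤ t → Q (t - d1) = 0 := fun t ht => h0 _ (Or.inr (by linarith))
  have z2 : ∀ t, b ≤ t → Q (t - d2) = 0 := fun t ht => h0 _ (Or.inr (by linarith))
  have hF := memLp_mul ((cq d2).sub (cq d1)) hu
  obtain ⟨w, hw, H⟩ := exists_weak (by omega) (cq d2)
    (fun x => mul_nonneg (hQ0 _) (JJ_nonneg x)) hF
  have O : Orth e w b := by
    intro k P hm hP ho hz g b' hg g0 g1
    set m := mu n k with hm'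
    obtain ⟨G, G', A0, C0, hG, gl, gr', -⟩ := exists_part hm hg.continuous g0 g1
    obtain ⟨A, hA, hR⟩ := exists_reg hm hQ.continuous hQ0 hl0 hl h0
    obtain ⟨F1, F1', C1, s1, l1, r1⟩ := hR d1
    obtain ⟨F2, F2', C2, s2, l2, r2⟩ := hR d2
    have cG := sol_contDiff hG contDiff_const hg
    have c1 := sol_contDiff s1 (sQ d1) contDiff_const
    have c2 := sol_contDiff s2 (sQ d2) contDiff_const
    obtain ⟨φ, hφ, φ0, φ1, -⟩ := exists_mode he hm.ne' hP ho hz
      (F := fun t => G t - A0 / A * F2 t) (cG.sub (contDiff_const.mul c2))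
      (fun t => (hG t).1.sub ((s2 t).1.const_mul _)) (fun t => (hG t).2.sub ((s2 t).2.const_mul _))
      (c0 := -(A0 / A)) (t0 := a) (c1 := C0 - A0 / A * C2) (t1 := max b b')
      (fun t ht => by rw [gl t (by linarith), l2 t (by linarith)]; ring)
      (fun t ht => by
        rw [gr' t ((le_max_right _ _).trans ht), r2 t (b2'.trans ((le_max_left _ _).trans ht))]
        have : A0 / A * A = A0 := div_mul_cancel₀ _ hA
        linear_combination -exp (m * t) * this)
    obtain ⟨ψ, hψ, ψ0, ψ1, ψ2⟩ := exists_mode he hm.ne' hP ho hz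
      (F := fun t => F2 t - F1 t) (c2.sub c1)
      (fun t => (s2 t).1.sub (s1 t).1) (fun t => (s2 t).2.sub (s1 t).2)
      (c0 := 0) (t0 := a) (c1 := C2 - C1) (t1 := b)
      (fun t ht => by rw [l1 t (by linarith), l2 t (by linarith)]; ring)
      (fun t ht => by rw [r1 t (by linarith), r2 t (by linarith)]; ring)
    have QG : ∀ t, Q (t - d1) * G t = 0 ∧ Q (t - d2) * G t = 0 := fun t => by
      rcases le_total t b with h | h
      · simp [gl t h]
      · simp [z1 t h, z2 t h]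
    have e1 := H φ hφ φ0
    have e2 := hu0 ψ hψ ψ0 (ψ2 rfl)
    have e3 : ∫ x, w x * (g (tt e x) * JJ e x * kk e m P x) ∂mB n =
        ∫ x, w x * (Δ φ x - pot e (fun t => Q (t - d2)) x * φ x) ∂mB n := by
      refine integral_congr_ae (ae_mB.mono fun x hx => ?_)
      simp only [(φ1 x hx).1, (φ1 x hx).2, pot]
      linear_combination (w x * JJ e x * kk e m P x) * (QG (tt e x)).2
    rw [e3, e1, ← mul_zero (-(A0 / A)), ← e2, gr, ← integral_const_mul]
    refine integral_congr_ae (ae_mB.mono fun x hx => ?_)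
    simp only [(φ1 x hx).1, (ψ1 x hx).1, (ψ1 x hx).2, pot, Pi.sub_apply]
    linear_combination (u x * JJ e x * kk e m P x) * ((QG (tt e x)).2 - (QG (tt e x)).1)
  have w0 := vanish_south hn he (int_of_L2 hw) O
  refine ⟨u + w, hu.add hw, fun φ hφ φ0 => ?_⟩
  have e1 := south_extend he (cq d2) (int_of_L2 hw) hb w0
    (ae_mB.mono fun x hx hs => by
      obtain ⟨x1, x2⟩ := ball_ne he hx
      have := ((mem_Sou x1 x2).1 hs).le
      simp [pot, z1 _ this, z2 _ this]) H hφ φ0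
  have cL := continuous_lap hφ
  have cφ := hφ.continuous
  have i1 := int_mul_mB (int_of_L2 hu) (cL.sub ((cq d2).mul cφ))
  have e2 := integral_add i1 (int_mul_mB (int_of_L2 hw) (cL.sub ((cq d2).mul cφ)))
  have e3 := integral_add i1 (int_mul_mB (int_of_L2 hF) cφ)
  unfold gr at e1 ⊢
  simp only [Pi.sub_apply, Pi.mul_apply] at e1 e2 e3
  simp only [Pi.add_apply, add_mul]
  rw [e2, e1, ← e3]
  refine integral_congr_ae (Eventually.of_forall fun x => ?_)
  simp only
  ring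

theorem linear (hn : 2 ≤ n) (he : ‖e‖ = 1) {Q : ℝ → ℝ} (hQ : ContDiff ℝ (⊤ : ℕ∞) Q) {a b b2 : ℝ}
    (h0 : ∀ t, t ≤ a ∨ b ≤ t → Q t = 0) (hI : ∫ t in a..b, Q t = 0) (hb : b < b2)
    {u w : E n → ℝ} (hw : Integrable w (mB n))
    (hu0 : ∀ φ : E n → ℝ, ContDiff ℝ (⊤ : ℕ∞) φ → (∀ x ∈ sphere (0 : E n) 1, φ x = 0) →
      (∀ x ∈ Nor e a, φ x = 0) → gr 0 u φ = 0)
    (H : ∀ φ : E n → ℝ, ContDiff ℝ (⊤ : ℕ∞) φ → (∀ x ∈ sphere (0 : E n) 1, φ x = 0) →
      gr 0 w φ = ∫ x, u x * pot e Q x * φ x ∂mB n) {φ : E n → ℝ} (hφ : ContDiff ℝ (⊤ : ℕ∞) φ)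
    (φ0 : ∀ x ∈ sphere (0 : E n) 1, x ∉ Sou e b2 → φ x = 0) :
    gr 0 w φ = ∫ x, u x * pot e Q x * φ x ∂mB n := by
  have O : Orth e w b := by
    intro k P hm hP ho hz g b' hg g0 g1
    set m := mu n k with hm'
    obtain ⟨G, G', A0, C0, hG, gl, gr', -⟩ := exists_part hm hg.continuous g0 g1
    have hg2 : ContDiff ℝ (⊤ : ℕ∞) fun t => Q t * exp (m * t) := by fun_prop
    obtain ⟨D, D', A1, C1, hD, dl, dr, dA⟩ := exists_part hm hg2.continuous (b := a) (b' := b)
      (fun t ht => by simp [h0 t (Or.inl ht.le)]) fun t ht => by simp [h0 t (Or.inr ht.le)]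
    have A10 : A1 = 0 := dA (by
      rw [← hI]
      refine intervalIntegral.integral_congr fun t _ => ?_
      have e : exp (-m * t) * exp (m * t) = 1 := by rw [← exp_add]; simp
      linear_combination Q t * e)
    obtain ⟨φ, hφ, φ0, φ1, -⟩ := exists_mode he hm.ne' hP ho hz
      (F := fun t => G t - A0 * exp (m * t))
      ((sol_contDiff hG contDiff_const hg).sub (by fun_prop))
      (fun t => (hG t).1.sub ((dexp m t).const_mul _))
      (fun t => (hG t).2.sub (((dexp m t).const_mul m).const_mul _))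
      (c0 := -A0) (t0 := b) (c1 := C0) (t1 := b')
      (fun t ht => by rw [gl t ht]; ring) (fun t ht => by rw [gr' t ht]; ring)
    obtain ⟨ψ, hψ, ψ0, ψ1, ψ2⟩ := exists_mode he hm.ne' hP ho hz
      (F := D) (sol_contDiff hD contDiff_const hg2) (fun t => (hD t).1) (fun t => (hD t).2)
      (c0 := 0) (t0 := a) (c1 := C1) (t1 := b)
      (fun t ht => by rw [dl t ht]; ring) (fun t ht => by rw [dr t ht, A10]; ring)
    have QG : ∀ t, Q t * G t = 0 := fun t => by
      rcases le_total t b with h | h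
      · simp [gl t h]
      · simp [h0 t (Or.inr h)]
    have e1 := H φ hφ φ0
    have e2 := hu0 ψ hψ ψ0 (ψ2 rfl)
    have e3 : ∫ x, w x * (g (tt e x) * JJ e x * kk e m P x) ∂mB n = gr 0 w φ := by
      refine integral_congr_ae (ae_mB.mono fun x hx => ?_)
      simp only [(φ1 x hx).2, Pi.zero_apply]
      ring
    rw [e3, e1, ← mul_zero (-A0), ← e2, gr, ← integral_const_mul]
    refine integral_congr_ae (ae_mB.mono fun x hx => ?_)
    simp only [(φ1 x hx).1, (ψ1 x hx).2, pot, Pi.zero_apply]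
    linear_combination (u x * JJ e x * kk e m P x) * QG (tt e x)
  exact south_extend he continuous_const hw hb (vanish_south hn he hw O)
    (ae_mB.mono fun x hx hs => by
      obtain ⟨x1, x2⟩ := ball_ne he hx
      simp [pot, h0 _ (Or.inr ((mem_Sou x1 x2).1 hs).le)]) H hφ φ0

end Pool.Agent.Work.MP_58debc_an.Ball
end

-- merged part: Pool.Agent.Work.MP_58debc_an.B8
section
open Set Real MeasureTheory Laplacian InnerProductSpace Filter Metric
open scoped Topology RealInnerProductSpace Manifold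

namespace Pool.Agent.Work.MP_58debc_an.Ball

open Pool.Agent.Work.MP_58debc_an.Data

variable {n : ℕ} {e : E n}

lemma fr_ball : frontier (ball (0 : E n) 1) = sphere 0 1 := frontier_ball 0 one_ne_zero

lemma int_split {u : E n → ℂ} (hu : MemLp u 2 (mB n)) {G : E n → ℝ} (hG : Continuous G) :
    ∫ x, u x * (G x : ℂ) ∂mB n = (∫ x, (u x).re * G x ∂mB n : ℝ) +
      (∫ x, (u x).im * G x ∂mB n : ℝ) * Complex.I := by
  have a := int_mul_mB (int_of_L2 hu.re) hG
  have b := int_mul_mB (int_of_L2 hu.im) hG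
  rw [← integral_complex_ofReal, ← integral_complex_ofReal, ← integral_mul_const,
    ← integral_add a.ofReal (b.ofReal.mul_const _)]
  refine integral_congr_ae (Eventually.of_forall fun x => ?_)
  apply Complex.ext <;> simp

lemma green_eq {q : E n → ℝ} (hq : Continuous q) {u : E n → ℂ} (hu : MemLp u 2 (mB n))
    {φ : E n → ℝ} (hφ : ContDiff ℝ (⊤ : ℕ∞) φ) :
    green (ball 0 1) (fun x => (q x : ℂ)) u φ =
      (gr q (fun x => (u x).re) φ : ℂ) + (gr q (fun x => (u x).im) φ : ℂ) * Complex.I := by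
  refine Eq.trans ?_ (int_split hu ((continuous_lap hφ).sub (hq.mul hφ.continuous)))
  refine integral_congr_ae (Eventually.of_forall fun x => ?_)
  simp

lemma green_add {q : E n → ℝ} (hq : Continuous q) {u : E n → ℂ} (hu : MemLp u 2 (mB n))
    {φ ψ : E n → ℝ} (hφ : ContDiff ℝ (⊤ : ℕ∞) φ) (hψ : ContDiff ℝ (⊤ : ℕ∞) ψ) :
    green (ball 0 1) (fun x => (q x : ℂ)) u (φ + ψ) =
      green (ball 0 1) (fun x => (q x : ℂ)) u φ + green (ball 0 1) (fun x => (q x : ℂ)) u ψ := by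
  rw [green_eq hq hu (φ := φ + ψ) (hφ.add hψ), green_eq hq hu hφ, green_eq hq hu hψ,
    gr_add (u := fun x => (u x).re) hq (int_of_L2 hu.re) hφ hψ,
    gr_add (u := fun x => (u x).im) hq (int_of_L2 hu.im) hφ hψ]
  push_cast
  ring

lemma fderiv_mul_bdry {χ φ : E n → ℝ} (hχ : ContDiff ℝ (⊤ : ℕ∞) χ) (hφ : ContDiff ℝ (⊤ : ℕ∞) φ)
    (x v : E n) (h : φ x = 0) : fderiv ℝ (fun y => χ y * φ y) x v = χ x * fderiv ℝ φ x v := by
  rw [fderiv_fun_mul (hχ.differentiable (by simp) x) (hφ.differentiable (by simp) x)]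
  simp [h]

lemma good_union {q : E n → ℝ} (hq : Continuous q) {u : E n → ℂ} (hu : MemLp u 2 (mB n))
    (ν : E n → E n) {V1 V2 : Set (E n)} (o1 : IsOpen V1) (o2 : IsOpen V2)
    (h1 : ∀ φ ∈ dirTest (ball 0 1) ν V1, green (ball 0 1) (fun x => (q x : ℂ)) u φ = 0)
    (h2 : ∀ φ ∈ dirTest (ball 0 1) ν V2, green (ball 0 1) (fun x => (q x : ℂ)) u φ = 0) :
    ∀ φ ∈ dirTest (ball 0 1) ν (V1 ∪ V2), green (ball 0 1) (fun x => (q x : ℂ)) u φ = 0 := by
  rintro φ ⟨hφ, h0, hS⟩
  set S := closure {x | x ∈ frontier (ball (0 : E n) 1) ∧ fderiv ℝ φ x (ν x) ≠ 0} with hSdef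
  obtain ⟨f, f0, f1, -⟩ := exists_contMDiffMap_zero_one_nhds_of_isClosed 𝓘(ℝ, E n)
    (n := (⊤ : ℕ∞)) (s := V1ᶜ) (t := S \ V2) o1.isClosed_compl (isClosed_closure.sdiff o2) (by
      rw [Set.disjoint_left]
      intro x hx hx'
      rcases hS hx'.1 with h | h
      · exact hx h
      · exact hx'.2 h)
  have hf : ContDiff ℝ (⊤ : ℕ∞) f := f.contMDiff.contDiff
  have hg : ContDiff ℝ (⊤ : ℕ∞) fun y => 1 - f y := contDiff_const.sub hf
  have split : φ = (fun y => f y * φ y) + fun y => (1 - f y) * φ y := by ext y; simp; ring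
  rw [split, green_add hq hu (hf.mul hφ) (hg.mul hφ), h1, h2, add_zero]
  · refine ⟨hg.mul hφ, fun x hx => by simp only [h0 x hx, mul_zero], fun x hx => ?_⟩
    by_contra hxV
    have hxS : x ∈ S := by
      refine closure_mono ?_ hx
      intro y hy
      refine ⟨hy.1, fun h => hy.2 ?_⟩
      rw [fderiv_mul_bdry hg hφ y _ (h0 y hy.1), h, mul_zero]
    have hn : ∀ᶠ y in 𝓝 x, f y = 1 :=
      f1.filter_mono (nhds_le_nhdsSet (show x ∈ S \ V2 from ⟨hxS, hxV⟩))
    obtain ⟨y, hy1, hy2⟩ := mem_closure_iff_nhds.1 hx _ hn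
    apply hy2.2
    have hy1' : f y = 1 := hy1
    rw [fderiv_mul_bdry hg hφ y _ (h0 y hy2.1), hy1', sub_self, zero_mul]
  · refine ⟨hf.mul hφ, fun x hx => by simp only [h0 x hx, mul_zero], fun x hx => ?_⟩
    by_contra hxV
    have hn : ∀ᶠ y in 𝓝 x, f y = 0 := f0.filter_mono (nhds_le_nhdsSet hxV)
    obtain ⟨y, hy1, hy2⟩ := mem_closure_iff_nhds.1 hx _ hn
    apply hy2.2
    have hy1' : f y = 0 := hy1
    rw [fderiv_mul_bdry hf hφ y _ (h0 y hy2.1), hy1', zero_mul]

lemma vanish (he : ‖e‖ = 1) {q : E n → ℝ} (hq : Continuous q) {u : E n → ℂ}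
    (hu : MemLp u 2 (mB n)) (ν : E n → E n) {Γ : Set (E n)} {a : ℝ}
    (hΓ : ∀ x ∈ sphere (0 : E n) 1, x ∈ Γ → x ∈ Nor e a)
    (hs : TraceSupportedIn (ball 0 1) ν (fun x => (q x : ℂ)) u Γ) (φ : E n → ℝ)
    (hφ : ContDiff ℝ (⊤ : ℕ∞) φ) (h0 : ∀ x ∈ sphere (0 : E n) 1, φ x = 0)
    (h1 : ∀ x ∈ Nor e a, φ x = 0) : green (ball 0 1) (fun x => (q x : ℂ)) u φ = 0 := by
  have hK : IsCompact (sphere (0 : E n) 1 \ Nor e a) := (isCompact_sphere 0 1).diff (isOpen_Nor a)
  have me : -e ∈ sphere (0 : E n) 1 := by simp [he]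
  obtain ⟨V, -, hKV, hV⟩ := hK.induction_on (p := fun s => ∃ V, IsOpen V ∧ s ⊆ V ∧
      ∀ φ ∈ dirTest (ball 0 1) ν V, green (ball 0 1) (fun x => (q x : ℂ)) u φ = 0)
    (by
      obtain ⟨V, o, -, hV⟩ := hs _ (fr_ball ▸ me) fun h => Nor_ne (hΓ _ me h) rfl
      exact ⟨V, o, empty_subset _, hV⟩)
    (fun s t hst ⟨V, o, ht, hV⟩ => ⟨V, o, hst.trans ht, hV⟩)
    (fun s t ⟨V1, o1, s1, g1⟩ ⟨V2, o2, s2, g2⟩ =>
      ⟨V1 ∪ V2, o1.union o2, union_subset_union s1 s2, good_union hq hu ν o1 o2 g1 g2⟩)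
    (fun x hx => by
      obtain ⟨V, o, hxV, hV⟩ := hs x (fr_ball ▸ hx.1) fun h => hx.2 (hΓ x hx.1 h)
      exact ⟨V, mem_nhdsWithin_of_mem_nhds (o.mem_nhds hxV), V, o, subset_rfl, hV⟩)
  refine hV φ ⟨hφ, fr_ball ▸ h0, (closure_minimal ?_ hK.isClosed).trans hKV⟩
  intro x hx
  refine ⟨fr_ball ▸ hx.1, fun hc => hx.2 ?_⟩
  have he' : φ =ᶠ[𝓝 x] fun _ => 0 := eventually_of_mem ((isOpen_Nor a).mem_nhds hc) h1
  rw [he'.fderiv_eq]
  simp

lemma neu_zero {ν : E n → E n} {Γ : Set (E n)} {b : ℝ}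
    (hΓ : ∀ x ∈ sphere (0 : E n) 1, x ∈ Γ → x ∈ Sou e b) {φ : E n → ℝ}
    (hφ : φ ∈ neuTest (ball 0 1) ν Γ) : ∀ x ∈ sphere (0 : E n) 1, x ∉ Sou e b → φ x = 0 := by
  intro x hx hs
  by_contra hne
  exact hs (hΓ x hx (hφ.2.2 (subset_closure ⟨fr_ball ▸ hx, hne⟩)))

lemma incl (hn : 2 ≤ n) (he : ‖e‖ = 1) {Q : ℝ → ℝ} (hQ : ContDiff ℝ (⊤ : ℕ∞) Q)
    (hQ0 : ∀ t, 0 ≤ Q t) {l : ℝ} (hl0 : 0 ≤ l) (hl : l ≤ 4) (h0 : ∀ t, t ≤ 0 ∨ l ≤ t → Q t = 0)
    {a b b2 d1 d2 : ℝ} (a1 : a ≤ d1) (a2 : a ≤ d2) (b1 : d1 + l ≤ b) (b2' : d2 + l ≤ b)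
    (hb : b < b2) (ν : E n → E n) {ΓD ΓN : Set (E n)}
    (hD : ∀ x ∈ sphere (0 : E n) 1, x ∈ ΓD → x ∈ Nor e a)
    (hN : ∀ x ∈ sphere (0 : E n) 1, x ∈ ΓN → x ∈ Sou e b2) :
    cauchyData (ball 0 1) ν (fun x => (pot e (fun t => Q (t - d1)) x : ℂ)) ΓD ΓN ⊆
      cauchyData (ball 0 1) ν (fun x => (pot e (fun t => Q (t - d2)) x : ℂ)) ΓD ΓN := by
  rintro p ⟨u, ⟨hu, hsol⟩, hs, rfl⟩
  have cq : ∀ d, Continuous (pot e fun t => Q (t - d)) := fun d =>
    (contDiff_pot he (hQ.comp (contDiff_id.sub contDiff_const)) (a := d) (b := d + l)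
      (fun t ht => h0 _ (Or.inl (by simp; linarith)))
      fun t ht => h0 _ (Or.inr (by simp; linarith))).continuous
  obtain ⟨v1, hv1, e1⟩ := transfer hn he hQ hQ0 hl0 hl h0 a1 a2 b1 b2' hb hu.re
    fun φ hφ h0 h1 => by
      have := vanish he (cq d1) hu ν hD hs φ hφ h0 h1
      rw [green_eq (cq d1) hu hφ] at this
      simpa using congrArg Complex.re this
  obtain ⟨v2, hv2, e2⟩ := transfer hn he hQ hQ0 hl0 hl h0 a1 a2 b1 b2' hb hu.im
    fun φ hφ h0 h1 => by
      have := vanish he (cq d1) hu ν hD hs φ hφ h0 h1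
      rw [green_eq (cq d1) hu hφ] at this
      simpa using congrArg Complex.im this
  have hv : MemLp (fun x => (v1 x : ℂ) + (v2 x : ℂ) * Complex.I) 2 (mB n) :=
    MemLp.add hv1.ofReal (MemLp.mul_const hv2.ofReal _)
  have key : ∀ φ : E n → ℝ, ContDiff ℝ (⊤ : ℕ∞) φ →
      (∀ x ∈ sphere (0 : E n) 1, x ∉ Sou e b2 → φ x = 0) →
      green (ball 0 1) (fun x => (pot e (fun t => Q (t - d2)) x : ℂ))
        (fun x => (v1 x : ℂ) + (v2 x : ℂ) * Complex.I) φ =
      green (ball 0 1) (fun x => (pot e (fun t => Q (t - d1)) x : ℂ)) u φ := by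
    intro φ hφ h0
    have a := e1 φ hφ h0
    have b := e2 φ hφ h0
    simp only [RCLike.re_to_complex, RCLike.im_to_complex] at a b
    rw [green_eq (cq d2) hv hφ, green_eq (cq d1) hu hφ, ← a, ← b]
    simp
  refine ⟨_, ⟨hv, fun φ hφ hc hsub => ?_⟩, fun x hx hxD => ?_, Prod.ext ?_ ?_⟩
  · rw [key φ hφ fun x hx _ => ?_, hsol φ hφ hc hsub]
    refine image_eq_zero_of_notMem_tsupport fun h => ?_
    have := mem_ball_zero_iff.1 (hsub h)
    rw [mem_sphere_zero_iff_norm.1 hx] at this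
    exact lt_irrefl _ this
  · obtain ⟨V, o, hxV, hV⟩ := hs x hx hxD
    exact ⟨V, o, hxV, fun φ hφ => by
      rw [key φ hφ.1 fun y hy _ => hφ.2.1 y (fr_ball ▸ hy), hV φ hφ]⟩
  · funext φ
    exact (key φ φ.2.1 fun y hy _ => φ.2.2.1 y (fr_ball ▸ hy)).symm
  · funext φ
    exact congrArg Neg.neg (key φ φ.2.1 (neu_zero hN φ.2)).symm

lemma linGreen_eq {q : E n → ℝ} (hq : Continuous q) {u w : E n → ℂ} (hu : MemLp u 2 (mB n))
    (hw : MemLp w 2 (mB n)) {φ : E n → ℝ} (hφ : ContDiff ℝ (⊤ : ℕ∞) φ) :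
    linGreen (ball 0 1) (fun x => (q x : ℂ)) u w φ =
      ((gr 0 (fun x => (w x).re) φ - ∫ x, (u x).re * q x * φ x ∂mB n : ℝ) : ℂ) +
      ((gr 0 (fun x => (w x).im) φ - ∫ x, (u x).im * q x * φ x ∂mB n : ℝ) : ℂ) * Complex.I := by
  have a := int_split hw (continuous_lap hφ)
  have b := int_split hu (hq.mul hφ.continuous)
  have i : ∀ {u : E n → ℂ}, MemLp u 2 (mB n) → ∀ {G : E n → ℝ}, Continuous G →
      Integrable (fun x => u x * (G x : ℂ)) (mB n) := fun hu G hG => by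
    obtain ⟨C, hC⟩ := bdd_mB hG
    exact (hu.integrable (by norm_num)).mul_bdd (c := C)
      (Complex.continuous_ofReal.comp hG).aestronglyMeasurable (by simpa using hC)
  have c := integral_sub (i hw (continuous_lap hφ)) (i hu (hq.mul hφ.continuous))
  rw [a, b] at c
  simp only [Pi.mul_apply] at c
  have d : linGreen (ball 0 1) (fun x => (q x : ℂ)) u w φ =
      ∫ x, (w x * (Δ φ x : ℝ) - u x * (q x * φ x : ℝ)) ∂mB n := by
    refine integral_congr_ae (Eventually.of_forall fun x => ?_)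
    push_cast
    ring
  rw [d, c]
  simp only [gr, Pi.zero_apply, zero_mul, sub_zero, mul_assoc]
  push_cast
  ring

lemma lin_main (hn : 2 ≤ n) (he : ‖e‖ = 1) {Q : ℝ → ℝ} (hQ : ContDiff ℝ (⊤ : ℕ∞) Q) {a b b2 : ℝ}
    (h0 : ∀ t, t ≤ a ∨ b ≤ t → Q t = 0) (hI : ∫ t in a..b, Q t = 0) (hb : b < b2)
    (ν : E n → E n) {ΓD ΓN : Set (E n)}
    (hD : ∀ x ∈ sphere (0 : E n) 1, x ∈ ΓD → x ∈ Nor e a)
    (hN : ∀ x ∈ sphere (0 : E n) 1, x ∈ ΓN → x ∈ Sou e b2) {u : E n → ℂ}
    (hu : MemLp u 2 (mB n)) (hs : TraceSupportedIn (ball 0 1) ν 0 u ΓD) :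
    (∃ w, IsLinResponse (ball 0 1) (fun x => (pot e Q x : ℂ)) u w) ∧
      ∀ w, IsLinResponse (ball 0 1) (fun x => (pot e Q x : ℂ)) u w →
        ∀ φ ∈ neuTest (ball 0 1) ν ΓN,
          linGreen (ball 0 1) (fun x => (pot e Q x : ℂ)) u w φ = 0 := by
  have cq : Continuous (pot e Q) := (contDiff_pot he hQ (fun t ht => h0 t (Or.inl ht.le))
    fun t ht => h0 t (Or.inr ht.le)).continuous
  have z : (0 : E n → ℂ) = fun x => (((0 : E n → ℝ) x : ℝ) : ℂ) := by ext x; simp
  rw [z] at hs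
  constructor
  · obtain ⟨w1, hw1, e1⟩ := exists_weak (by omega) (q := 0) continuous_const (fun _ => le_rfl)
      (memLp_mul cq hu.re)
    obtain ⟨w2, hw2, e2⟩ := exists_weak (by omega) (q := 0) continuous_const (fun _ => le_rfl)
      (memLp_mul cq hu.im)
    have hw : MemLp (fun x => (w1 x : ℂ) + (w2 x : ℂ) * Complex.I) 2 (mB n) :=
      MemLp.add hw1.ofReal (MemLp.mul_const hw2.ofReal _)
    refine ⟨_, hw, fun φ hφ φ0 => ?_⟩
    have a := e1 φ hφ (fr_ball ▸ φ0)
    have b := e2 φ hφ (fr_ball ▸ φ0)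
    simp only [RCLike.re_to_complex, RCLike.im_to_complex, mul_comm (pot e Q _)] at a b
    rw [linGreen_eq cq hu hw hφ, ← a, ← b]
    simp [gr]
  · rintro w ⟨hw, H⟩ φ hφ
    have u0 := fun φ hφ h0 h1 => (green_eq (q := 0) continuous_const hu hφ).symm.trans
      (vanish he (q := 0) continuous_const hu ν hD hs φ hφ h0 h1)
    have H' := fun φ hφ (h0 : ∀ x ∈ sphere (0 : E n) 1, φ x = 0) =>
      (linGreen_eq cq hu hw hφ).symm.trans (H φ hφ (fr_ball ▸ h0))
    have a := linear hn he hQ h0 hI hb (u := fun x => (u x).re) (int_of_L2 hw.re)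
      (fun φ hφ h0 h1 => by simpa using congrArg Complex.re (u0 φ hφ h0 h1))
      (fun φ hφ h0 => by simpa [sub_eq_zero] using congrArg Complex.re (H' φ hφ h0)) hφ.1
      (neu_zero hN hφ)
    have b := linear hn he hQ h0 hI hb (u := fun x => (u x).im) (int_of_L2 hw.im)
      (fun φ hφ h0 h1 => by simpa using congrArg Complex.im (u0 φ hφ h0 h1))
      (fun φ hφ h0 => by simpa [sub_eq_zero] using congrArg Complex.im (H' φ hφ h0)) hφ.1
      (neu_zero hN hφ)
    simp only [RCLike.re_to_complex, RCLike.im_to_complex] at a b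
    rw [linGreen_eq cq hu hw hφ.1, a, b]
    simp

lemma exists_gap (he : ‖e‖ = 1) {α β : ℝ} (h1 : -1 ≤ α) (h2 : α < β) (h3 : β ≤ 1) :
    ∃ a b, a < b ∧ (∀ x ∈ sphere (0 : E n) 1, β ≤ ⟪e, x⟫ → x ∈ Nor e a) ∧
      ∀ x ∈ sphere (0 : E n) 1, ⟪e, x⟫ ≤ α → x ∈ Sou e b := by
  obtain ⟨s, s1, s2⟩ := exists_between h2
  obtain ⟨r, r1, r2⟩ := exists_between s1
  have ps : 0 < (1 - s) / (1 + s) := div_pos (by linarith) (by linarith)
  have pr : 0 < (1 - r) / (1 + r) := div_pos (by linarith) (by linarith)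
  refine ⟨log ((1 - s) / (1 + s)) / 2, log ((1 - r) / (1 + r)) / 2, ?_, fun x hx h => ?_,
    fun x hx h => ?_⟩
  · have : (1 - s) / (1 + s) < (1 - r) / (1 + r) := by
      rw [div_lt_div_iff₀ (by linarith) (by linarith)]; nlinarith
    linarith [log_lt_log ps this]
  · show sd e x < _
    rw [mul_div_cancel₀ _ two_ne_zero, exp_log ps, sd_eq he, sd_neg_eq he,
      mem_sphere_zero_iff_norm.1 hx, div_mul_eq_mul_div, lt_div_iff₀ (by linarith)]
    nlinarith
  · show _ < sd e x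
    rw [mul_div_cancel₀ _ two_ne_zero, exp_log pr, sd_eq he, sd_neg_eq he,
      mem_sphere_zero_iff_norm.1 hx, div_mul_eq_mul_div, div_lt_iff₀ (by linarith)]
    nlinarith

lemma exists_pt (he : ‖e‖ = 1) (t : ℝ) : ∃ x ∈ ball (0 : E n) 1, tt e x = t := by
  have p := exp_pos t
  have hx : ((1 - exp t) / (1 + exp t)) • e ∈ ball (0 : E n) 1 := by
    rw [mem_ball_zero_iff, norm_smul, he, mul_one, Real.norm_eq_abs, abs_lt,
      lt_div_iff₀ (by linarith), div_lt_iff₀ (by linarith)]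
    constructor <;> linarith
  refine ⟨_, hx, ?_⟩
  obtain ⟨b1, b2⟩ := ball_ne he hx
  have a := sd_tt b1 b2
  have c : sd e (((1 - exp t) / (1 + exp t)) • e) =
      exp (2 * t) * sd (-e) (((1 - exp t) / (1 + exp t)) • e) := by
    rw [sd_eq he, sd_neg_eq he, norm_smul, he, real_inner_smul_right, real_inner_self_eq_norm_sq,
      he, mul_one, Real.norm_eq_abs, sq_abs, two_mul t, exp_add]
    field_simp
    ring
  have := mul_right_cancel₀ (sd_pos b2).ne' (a.symm.trans c)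
  linarith [exp_injective this]

lemma pot_ne (he : ‖e‖ = 1) {Q1 Q2 : ℝ → ℝ} (c1 : Continuous (pot e Q1))
    (c2 : Continuous (pot e Q2)) {t : ℝ} (h : Q1 t ≠ Q2 t) : ¬ pot e Q1 =ᵐ[mB n] pot e Q2 := by
  intro H
  obtain ⟨x, hx, rfl⟩ := exists_pt he t
  obtain ⟨b1, b2⟩ := ball_ne he hx
  exact h (mul_right_cancel₀ (JJ_pos b1 b2).ne'
    (Measure.eqOn_open_of_ae_eq H isOpen_ball c1.continuousOn c2.continuousOn hx))

lemma pot_le (he : ‖e‖ = 1) {Q : ℝ → ℝ} {a b c : ℝ} (hc : 0 ≤ c) (hQ : ∀ t, Q t ≤ c)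
    (h0 : ∀ t, t ≤ a ∨ b ≤ t → Q t = 0) (x : E n) :
    pot e Q x ≤ c * ((1 + exp (2 * b)) ^ 2 / exp (2 * a)) := by
  by_cases b1 : x = e
  · have : pot e Q x = 0 := by simp [pot, JJ, b1, sd_self]
    rw [this]; positivity
  by_cases b2 : x = -e
  · have : pot e Q x = 0 := by simp [pot, JJ, b2, sd_self]
    rw [this]; positivity
  by_cases h : tt e x ≤ a ∨ b ≤ tt e x
  · rw [pot, h0 _ h, zero_mul]; positivity
  push Not at h
  refine mul_le_mul (hQ _) ?_ (JJ_nonneg x) hc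
  have p := sd_pos b2
  have s := sd_tt b1 b2
  have s2 : 2 ≤ sd e x + sd (-e) x := by
    rw [sd_eq he, sd_neg_eq he]; nlinarith [sq_nonneg ‖x‖]
  have ea : exp (2 * a) ≤ exp (2 * tt e x) := exp_le_exp.2 (by linarith [h.1])
  have eb : exp (2 * tt e x) ≤ exp (2 * b) := exp_le_exp.2 (by linarith [h.2])
  have pa := exp_pos (2 * a)
  rw [JJ, div_le_div_iff₀ (mul_pos (sd_pos b1) p) pa, s]
  rw [s] at s2
  have s3 : 2 ≤ (1 + exp (2 * b)) * sd (-e) x := by nlinarith
  have s4 : 4 ≤ ((1 + exp (2 * b)) * sd (-e) x) ^ 2 := by nlinarith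
  calc 4 * exp (2 * a) ≤ ((1 + exp (2 * b)) * sd (-e) x) ^ 2 * exp (2 * tt e x) :=
        mul_le_mul s4 ea pa.le (sq_nonneg _)
    _ = _ := by ring

/-- a bump on `(a, b)` -/
noncomputable def bump (a b t : ℝ) : ℝ := expNegInvGlue (t - a) * expNegInvGlue (b - t)

lemma contDiff_bump (a b : ℝ) : ContDiff ℝ (⊤ : ℕ∞) (bump a b) :=
  (expNegInvGlue.contDiff.comp (contDiff_id.sub contDiff_const)).mul
    (expNegInvGlue.contDiff.comp (contDiff_const.sub contDiff_id))

lemma bump_zero {a b t : ℝ} (h : t ≤ a ∨ b ≤ t) : bump a b t = 0 := by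
  rcases h with h | h
  · rw [bump, expNegInvGlue.zero_of_nonpos (by linarith), zero_mul]
  · rw [bump, expNegInvGlue.zero_of_nonpos (x := b - t) (by linarith), mul_zero]

lemma bump_nonneg (a b t : ℝ) : 0 ≤ bump a b t :=
  mul_nonneg (expNegInvGlue.nonneg _) (expNegInvGlue.nonneg _)

lemma bump_pos {a b t : ℝ} (h1 : a < t) (h2 : t < b) : 0 < bump a b t :=
  mul_pos (expNegInvGlue.pos_of_pos (by linarith)) (expNegInvGlue.pos_of_pos (by linarith))

lemma glue_le (x : ℝ) : expNegInvGlue x ≤ 1 := by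
  unfold expNegInvGlue
  split_ifs with h
  · exact zero_le_one
  · exact exp_le_one_iff.2 (neg_nonpos.2 (inv_nonneg.2 (not_le.1 h).le))

lemma bump_le (a b t : ℝ) : bump a b t ≤ 1 :=
  mul_le_one₀ (glue_le _) (expNegInvGlue.nonneg _) (glue_le _)

lemma odd_bump (a b : ℝ) : ∫ t in a..b, (t - (a + b) / 2) * bump a b t = 0 := by
  have := intervalIntegral.integral_comp_sub_left
    (fun t => (t - (a + b) / 2) * bump a b t) (a + b) (a := a) (b := b)
  simp only [add_sub_cancel_right, add_sub_cancel_left] at this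
  have e1 : ∀ t, (a + b - t - (a + b) / 2) * bump a b (a + b - t) =
      -((t - (a + b) / 2) * bump a b t) := fun t => by
    rw [bump, bump, show a + b - t - a = b - t by ring, show b - (a + b - t) = t - a by ring]
    ring
  simp only [e1, intervalIntegral.integral_neg] at this
  linarith

end Pool.Agent.Work.MP_58debc_an.Ball
end
end
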