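import Pool.Agent.Work.MP_58debc_an.Coord

open Set Real MeasureTheory Laplacian
open scoped Topology

namespace Pool.Agent.Work.MP_58debc_an

/-- derivative of `Z` in the first variable -/
noncomputable def S1 (p : ℝ × ℝ) : ℂ := ⟨sinh p.1 * cos p.2, cosh p.1 * sin p.2⟩

/-- derivative of `Z` in the second variable -/
noncomputable def S2 (p : ℝ × ℝ) : ℂ := ⟨-(cosh p.1 * sin p.2), sinh p.1 * cos p.2⟩

lemma hasDerivAt_mk {f g : ℝ → ℝ} {a b t : ℝ} (hf : HasDerivAt f a t) (hg : HasDerivAt g b t) :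
    HasDerivAt (fun s => (⟨f s, g s⟩ : ℂ)) ⟨a, b⟩ t := by
  simp only [Complex.mk_eq_add_mul_I]
  exact hf.ofReal_comp.add (hg.ofReal_comp.mul_const _)

lemma continuous_mk {f g : ℝ × ℝ → ℝ} (hf : Continuous f) (hg : Continuous g) :
    Continuous (fun s => (⟨f s, g s⟩ : ℂ)) := by
  simp only [Complex.mk_eq_add_mul_I]
  fun_prop

@[fun_prop] lemma continuous_S1 : Continuous S1 := continuous_mk (by fun_prop) (by fun_prop)
@[fun_prop] lemma continuous_S2 : Continuous S2 := continuous_mk (by fun_prop) (by fun_prop)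

lemma dZ1 (x y : ℝ) : HasDerivAt (fun s => Z (s, y)) (S1 (x, y)) x :=
  hasDerivAt_mk ((hasDerivAt_cosh x).mul_const (cos y)) ((hasDerivAt_sinh x).mul_const (sin y))

lemma dS1 (x y : ℝ) : HasDerivAt (fun s => S1 (s, y)) (Z (x, y)) x :=
  hasDerivAt_mk ((hasDerivAt_sinh x).mul_const (cos y)) ((hasDerivAt_cosh x).mul_const (sin y))

lemma dZ2 (x y : ℝ) : HasDerivAt (fun s => Z (x, s)) (S2 (x, y)) y :=
  hasDerivAt_mk (((hasDerivAt_cos y).const_mul (cosh x)).congr_deriv (by ring))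
    ((hasDerivAt_sin y).const_mul (sinh x))

lemma dS2 (x y : ℝ) : HasDerivAt (fun s => S2 (x, s)) (-Z (x, y)) y := by
  have : -Z (x, y) = ⟨-(cosh x * cos y), sinh x * -sin y⟩ := by
    apply Complex.ext <;> simp
  rw [this]
  exact hasDerivAt_mk ((hasDerivAt_sin y).const_mul (cosh x)).neg
    ((hasDerivAt_cos y).const_mul (sinh x))

lemma laplacian_eq (φ : ℂ → ℝ) (z : ℂ) :
    Δ φ z = fderiv ℝ (fderiv ℝ φ) z 1 1 + fderiv ℝ (fderiv ℝ φ) z Complex.I Complex.I := by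
  rw [InnerProductSpace.laplacian_eq_iteratedFDeriv_complexPlane]
  simp [iteratedFDeriv_two_apply]

lemma continuous_laplacian {φ : ℂ → ℝ} (hφ : ContDiff ℝ (⊤ : ℕ∞) φ) : Continuous (Δ φ) := by
  have h1 : ContDiff ℝ (⊤ : ℕ∞) (fderiv ℝ φ) := hφ.fderiv_right (by simp)
  have h2 : Continuous (fderiv ℝ (fderiv ℝ φ)) := h1.continuous_fderiv (by simp)
  have : Δ φ = fun z => fderiv ℝ (fderiv ℝ φ) z 1 1 +
      fderiv ℝ (fderiv ℝ φ) z Complex.I Complex.I := funext (laplacian_eq φ)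
  rw [this]
  fun_prop

lemma bilin_sum (D : ℂ →L[ℝ] ℂ →L[ℝ] ℝ) (a b : ℝ) :
    D ⟨a, b⟩ ⟨a, b⟩ + D ⟨-b, a⟩ ⟨-b, a⟩ = (a ^ 2 + b ^ 2) * (D 1 1 + D Complex.I Complex.I) := by
  have e : ∀ u v : ℝ, (⟨u, v⟩ : ℂ) = u • (1 : ℂ) + v • Complex.I := by
    intro u v; apply Complex.ext <;> simp
  rw [e a b, e (-b) a]
  simp only [map_add, map_smul, add_apply, smul_apply,
    smul_eq_mul]
  ring

lemma exists_test (φ : ℂ → ℝ) (hφ : ContDiff ℝ (⊤ : ℕ∞) φ) (h0 : ∀ z ∈ frontier Om, φ z = 0) :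
    ∃ Φ1 Φ2 Φ11 Φ22 : ℝ × ℝ → ℝ, IsTest (fun p => φ (Z p)) Φ1 Φ2 Φ11 Φ22 ∧
      ∀ p, Φ11 p + Φ22 p = J p * Δ φ (Z p) := by
  have h1 : ContDiff ℝ (⊤ : ℕ∞) (fderiv ℝ φ) := hφ.fderiv_right (by simp)
  have c0 := hφ.continuous
  have c1 := h1.continuous
  have c2 : Continuous (fderiv ℝ (fderiv ℝ φ)) := h1.continuous_fderiv (by simp)
  have f0 : ∀ z, HasFDerivAt φ (fderiv ℝ φ z) z := fun z =>
    (hφ.differentiable (by simp) z).hasFDerivAt
  have f1 : ∀ z, HasFDerivAt (fderiv ℝ φ) (fderiv ℝ (fderiv ℝ φ) z) z := fun z =>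
    (h1.differentiable (by simp) z).hasFDerivAt
  refine ⟨fun p => fderiv ℝ φ (Z p) (S1 p), fun p => fderiv ℝ φ (Z p) (S2 p),
    fun p => fderiv ℝ (fderiv ℝ φ) (Z p) (S1 p) (S1 p) + fderiv ℝ φ (Z p) (Z p),
    fun p => fderiv ℝ (fderiv ℝ φ) (Z p) (S2 p) (S2 p) + fderiv ℝ φ (Z p) (-Z p),
    ⟨by fun_prop, by fun_prop, by fun_prop, by fun_prop, by fun_prop,
      fun x y => (f0 _).comp_hasDerivAt x (dZ1 x y),
      fun x y => ((f1 _).comp_hasDerivAt x (dZ1 x y)).clm_apply (dS1 x y),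
      fun x y => (f0 _).comp_hasDerivAt y (dZ2 x y),
      fun x y => ((f1 _).comp_hasDerivAt y (dZ2 x y)).clm_apply (dS2 x y),
      fun y => h0 _ ?_, fun y => h0 _ ?_, fun x => ?_, fun x => ?_, fun x => ?_, fun x => ?_⟩,
    fun p => ?_⟩
  · rw [frontier_Om]; exact (rho_Z_eq _).2 (Or.inr rfl)
  · rw [frontier_Om]; exact (rho_Z_eq _).2 (Or.inl rfl)
  · simp [Z]
  · have a : Z (-x, 0) = Z (x, 0) := by simp [Z]
    have b : S2 (-x, 0) = -S2 (x, 0) := by apply Complex.ext <;> simp [S2]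
    simp only [a, b, map_neg]
  · simp [Z]
  · have a : Z (-x, π) = Z (x, π) := by simp [Z]
    have b : S2 (-x, π) = -S2 (x, π) := by apply Complex.ext <;> simp [S2]
    simp only [a, b, map_neg]
  · have e := bilin_sum (fderiv ℝ (fderiv ℝ φ) (Z p)) (sinh p.1 * cos p.2) (cosh p.1 * sin p.2)
    have eJ : (sinh p.1 * cos p.2) ^ 2 + (cosh p.1 * sin p.2) ^ 2 = J p := by
      unfold J
      have a := cosh_sq p.1
      have b := cos_sq' p.2
      linear_combination sin p.2 ^ 2 * a + sinh p.1 ^ 2 * b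
    rw [eJ, ← laplacian_eq] at e
    rw [← e]
    simp only [map_neg, S1, S2]
    ring

end Pool.Agent.Work.MP_58debc_an
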