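import Pool.Agent.Work.MP_58debc_an.Energy

open Set Real MeasureTheory
open scoped Topology

namespace Pool.Agent.Work.MP_58debc_an

/-- elliptic coordinates -/
noncomputable def Z (p : ℝ × ℝ) : ℂ := ⟨cosh p.1 * cos p.2, sinh p.1 * sin p.2⟩

/-- the Jacobian -/
noncomputable def J (p : ℝ × ℝ) : ℝ := sinh p.1 ^ 2 + sin p.2 ^ 2

@[simp] lemma Z_re (p : ℝ × ℝ) : (Z p).re = cosh p.1 * cos p.2 := rfl
@[simp] lemma Z_im (p : ℝ × ℝ) : (Z p).im = sinh p.1 * sin p.2 := rfl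

lemma Z_eq (p : ℝ × ℝ) : Z p = Complex.cosh (p.1 + p.2 * Complex.I) := by
  rw [Complex.cosh_add, Complex.cosh_mul_I, Complex.sinh_mul_I]
  apply Complex.ext <;>
  simp [← Complex.ofReal_cosh, ← Complex.ofReal_sinh, ← Complex.ofReal_cos, ← Complex.ofReal_sin]

@[fun_prop] lemma continuous_Z : Continuous Z := by
  have : Z = fun p : ℝ × ℝ => Complex.cosh (p.1 + p.2 * Complex.I) := funext Z_eq
  rw [this]; fun_prop

@[fun_prop] lemma continuous_J : Continuous J := by unfold J; fun_prop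

lemma J_nonneg (p : ℝ × ℝ) : 0 ≤ J p := by unfold J; positivity

lemma norm_Z_sub (p : ℝ × ℝ) : ‖Z p - 1‖ = cosh p.1 - cos p.2 := by
  have h1 := one_le_cosh p.1
  have h2 := cos_le_one p.2
  rw [← sq_eq_sq₀ (norm_nonneg _) (by linarith), Complex.sq_norm, Complex.normSq_apply]
  simp only [Complex.sub_re, Complex.sub_im, Z_re, Z_im, Complex.one_re, Complex.one_im]
  have a := cosh_sq p.1
  have b := sin_sq p.2
  linear_combination (cos p.2 ^ 2 - 1) * a + sinh p.1 ^ 2 * b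

lemma norm_Z_add (p : ℝ × ℝ) : ‖Z p + 1‖ = cosh p.1 + cos p.2 := by
  have h1 := one_le_cosh p.1
  have h2 := neg_one_le_cos p.2
  rw [← sq_eq_sq₀ (norm_nonneg _) (by linarith), Complex.sq_norm, Complex.normSq_apply]
  simp only [Complex.add_re, Complex.add_im, Z_re, Z_im, Complex.one_re, Complex.one_im]
  have a := cosh_sq p.1
  have b := sin_sq p.2
  linear_combination (cos p.2 ^ 2 - 1) * a + sinh p.1 ^ 2 * b

lemma J_eq (p : ℝ × ℝ) : ‖Z p + 1‖ * ‖Z p - 1‖ = J p := by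
  rw [norm_Z_add, norm_Z_sub]
  unfold J
  have a := cosh_sq p.1
  have b := sin_sq p.2
  linear_combination a - b

/-- cosine of the angular coordinate -/
noncomputable def sc (z : ℂ) : ℝ := (‖z + 1‖ - ‖z - 1‖) / 2

@[fun_prop] lemma continuous_sc : Continuous sc := by unfold sc; fun_prop

lemma sc_Z (p : ℝ × ℝ) : sc (Z p) = cos p.2 := by
  unfold sc; rw [norm_Z_add, norm_Z_sub]; ring

lemma sc_neg (z : ℂ) : sc (-z) = -sc z := by
  unfold sc
  have a : ‖-z + 1‖ = ‖z - 1‖ := by rw [← norm_neg]; congr 1; ring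
  have b : ‖-z - 1‖ = ‖z + 1‖ := by rw [← norm_neg]; congr 1; ring
  rw [a, b]; ring

/-- inverse coordinates off the slits -/
noncomputable def Zinv (z : ℂ) : ℝ × ℝ := (arsinh (z.im / √(1 - sc z ^ 2)), arccos (sc z))

lemma measurable_Zinv : Measurable Zinv := by
  unfold Zinv
  refine Measurable.prodMk (continuous_arsinh.measurable.comp ?_)
    (continuous_arccos.comp continuous_sc).measurable
  exact Complex.measurable_im.div (by fun_prop : Continuous fun z => √(1 - sc z ^ 2)).measurable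

lemma Zinv_snd (p : ℝ × ℝ) (hp : p.2 ∈ Icc 0 π) : arccos (sc (Z p)) = p.2 := by
  rw [sc_Z, arccos_cos hp.1 hp.2]

lemma Zinv_Z (p : ℝ × ℝ) (hp : p.2 ∈ Ioo 0 π) : Zinv (Z p) = p := by
  have hs : 0 < sin p.2 := sin_pos_of_pos_of_lt_pi hp.1 hp.2
  unfold Zinv
  rw [Zinv_snd p (Ioo_subset_Icc_self hp), sc_Z, ← sin_sq, sqrt_sq hs.le, Z_im,
    mul_div_cancel_right₀ _ hs.ne', arsinh_sinh]

lemma exists_Z (z : ℂ) : ∃ p : ℝ × ℝ, p.2 ∈ Icc 0 π ∧ Z p = z := by
  set r1 := ‖z - 1‖ with hr1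
  set r2 := ‖z + 1‖ with hr2
  have e1 : r1 ^ 2 = (z.re - 1) ^ 2 + z.im ^ 2 := by
    rw [hr1, Complex.sq_norm, Complex.normSq_apply]; simp; ring
  have e2 : r2 ^ 2 = (z.re + 1) ^ 2 + z.im ^ 2 := by
    rw [hr2, Complex.sq_norm, Complex.normSq_apply]; simp; ring
  have t1 : 2 ≤ r2 + r1 := by
    have := norm_sub_le (z + 1) (z - 1)
    rw [show z + 1 - (z - 1) = (2 : ℂ) by ring] at this
    simpa using this
  have t2 : |r2 - r1| ≤ 2 := by
    have := abs_norm_sub_norm_le (z + 1) (z - 1)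
    rw [show z + 1 - (z - 1) = (2 : ℂ) by ring] at this
    simpa using this
  rw [abs_le] at t2
  set s := (r2 - r1) / 2 with hs
  set t := (r2 + r1) / 2 with ht
  have hx : z.re = t * s := by rw [hs, ht]; linarith
  have hy : z.im ^ 2 = (t ^ 2 - 1) * (1 - s ^ 2) := by
    have : z.re ^ 2 + z.im ^ 2 + 1 = s ^ 2 + t ^ 2 := by rw [hs, ht]; linarith
    rw [hx] at this; linarith
  have s1 : -1 ≤ s := by linarith
  have s2 : s ≤ 1 := by linarith
  have t3 : 1 ≤ t := by linarith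
  have ht0 : 0 ≤ t ^ 2 - 1 := by nlinarith
  have hs0 : 0 ≤ 1 - s ^ 2 := by nlinarith
  have hc : cosh (arsinh √(t ^ 2 - 1)) = t := by
    rw [cosh_arsinh, sq_sqrt ht0, show 1 + (t ^ 2 - 1) = t ^ 2 by ring, sqrt_sq (by linarith)]
  have hy2 : z.im ^ 2 = (√(t ^ 2 - 1) * √(1 - s ^ 2)) ^ 2 := by
    rw [mul_pow, sq_sqrt ht0, sq_sqrt hs0, hy]
  rcases sq_eq_sq_iff_eq_or_eq_neg.1 hy2 with h | h
  · refine ⟨(arsinh √(t ^ 2 - 1), arccos s), ⟨arccos_nonneg _, arccos_le_pi _⟩, ?_⟩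
    apply Complex.ext
    · simp only [Z_re]; rw [hc, cos_arccos s1 s2, hx]
    · simp only [Z_im]; rw [sinh_arsinh, sin_arccos, h]
  · refine ⟨(-arsinh √(t ^ 2 - 1), arccos s), ⟨arccos_nonneg _, arccos_le_pi _⟩, ?_⟩
    apply Complex.ext
    · simp only [Z_re]; rw [cosh_neg, hc, cos_arccos s1 s2, hx]
    · simp only [Z_im]; rw [sinh_neg, sinh_arsinh, sin_arccos, h]; ring

lemma sc_mem (z : ℂ) : sc z ∈ Icc (-1 : ℝ) 1 := by
  obtain ⟨p, -, rfl⟩ := exists_Z z
  rw [sc_Z]; exact ⟨neg_one_le_cos _, cos_le_one _⟩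

/-- defining function of the ellipse -/
noncomputable def rho (z : ℂ) : ℝ := z.re ^ 2 / cosh (π / 2) ^ 2 + z.im ^ 2 / sinh (π / 2) ^ 2 - 1

/-- the ellipse -/
def Om : Set ℂ := {z | rho z < 0}

lemma contDiff_rho : ContDiff ℝ (⊤ : ℕ∞) rho := by
  unfold rho
  have h1 : ContDiff ℝ (⊤ : ℕ∞) (fun z : ℂ => z.re) := Complex.reCLM.contDiff
  have h2 : ContDiff ℝ (⊤ : ℕ∞) (fun z : ℂ => z.im) := Complex.imCLM.contDiff
  fun_prop

lemma isOpen_Om : IsOpen Om := isOpen_lt contDiff_rho.continuous continuous_const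

lemma sinh_half_pos : 0 < sinh (π / 2) := sinh_pos_iff.2 (by linarith [pi_pos])

lemma one_lt_A : 1 < cosh (π / 2) := one_lt_cosh.2 (by linarith [pi_pos])

lemma rho_Z (p : ℝ × ℝ) : ∃ c : ℝ, 0 < c ∧ rho (Z p) = c * (cosh p.1 - cosh (π / 2)) := by
  have hS := sinh_half_pos
  have hA := one_lt_A
  have h1 := one_le_cosh p.1
  have hu : cos p.2 ^ 2 < cosh (π / 2) ^ 2 := by nlinarith [cos_sq_le_one p.2]
  refine ⟨(cosh p.1 + cosh (π / 2)) * (cosh (π / 2) ^ 2 - cos p.2 ^ 2) /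
    (cosh (π / 2) ^ 2 * sinh (π / 2) ^ 2), by
      have := sub_pos.2 hu
      positivity, ?_⟩
  unfold rho
  simp only [Z_re, Z_im]
  field_simp
  rw [sin_sq p.2, sinh_sq p.1, sinh_sq (π / 2)]
  ring

lemma Z_mem_Om (p : ℝ × ℝ) : Z p ∈ Om ↔ p.1 ∈ Ioo (-(π / 2)) (π / 2) := by
  obtain ⟨c, hc, h⟩ := rho_Z p
  show rho (Z p) < 0 ↔ _
  have hh : ∀ d : ℝ, c * d < 0 ↔ d < 0 := fun d =>
    ⟨fun h1 => by by_contra h2; push Not at h2; nlinarith, fun h1 => by nlinarith⟩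
  rw [h, hh, sub_neg, cosh_lt_cosh,
    abs_of_pos (by linarith [pi_pos] : 0 < π / 2), abs_lt]
  rfl

lemma rho_Z_eq (p : ℝ × ℝ) : rho (Z p) = 0 ↔ p.1 = π / 2 ∨ p.1 = -(π / 2) := by
  obtain ⟨c, hc, h⟩ := rho_Z p
  rw [h, mul_eq_zero, or_iff_right hc.ne', sub_eq_zero, ← abs_eq (by linarith [pi_pos])]
  constructor
  · intro h1
    have a := cosh_le_cosh.1 h1.le
    have b := cosh_le_cosh.1 h1.ge
    rw [abs_of_pos (by linarith [pi_pos] : 0 < π / 2)] at a b
    exact le_antisymm a b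
  · intro h1
    rw [← cosh_abs p.1, h1]

lemma frontier_Om : frontier Om = {z | rho z = 0} := by
  refine Subset.antisymm (frontier_lt_subset_eq contDiff_rho.continuous continuous_const) ?_
  intro z hz
  rw [isOpen_Om.frontier_eq]
  refine ⟨?_, fun h => (ne_of_lt h) hz⟩
  obtain ⟨p, -, rfl⟩ := exists_Z z
  have hp := (rho_Z_eq p).1 hz
  have hc : p.1 ∈ closure (Ioo (-(π / 2)) (π / 2)) := by
    rw [closure_Ioo (by linarith [pi_pos])]
    rcases hp with h | h <;> rw [h] <;> constructor <;> linarith [pi_pos]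
  have hcont : Continuous fun s : ℝ => Z (s, p.2) := by fun_prop
  exact map_mem_closure (f := fun s : ℝ => Z (s, p.2)) hcont hc
    fun s hs => (Z_mem_Om (s, p.2)).2 hs

/-- the coordinate map on the real plane -/
noncomputable def P (p : ℝ × ℝ) : ℝ × ℝ := (cosh p.1 * cos p.2, sinh p.1 * sin p.2)

/-- its derivative -/
noncomputable def P' (p : ℝ × ℝ) : ℝ × ℝ →L[ℝ] ℝ × ℝ :=
  (Matrix.toLin (.finTwoProd ℝ) (.finTwoProd ℝ)
    !![sinh p.1 * cos p.2, -(cosh p.1 * sin p.2);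
      cosh p.1 * sin p.2, sinh p.1 * cos p.2]).toContinuousLinearMap

lemma hasFDerivAt_P (p : ℝ × ℝ) : HasFDerivAt P (P' p) p := by
  unfold P'
  rw [Matrix.toLin_finTwoProd_toContinuousLinearMap]
  refine HasFDerivAt.congr_fderiv (HasFDerivAt.prodMk (𝕜 := ℝ)
      (((hasDerivAt_cosh p.1).comp_hasFDerivAt p hasFDerivAt_fst).mul
        ((hasDerivAt_cos p.2).comp_hasFDerivAt p hasFDerivAt_snd))
      (((hasDerivAt_sinh p.1).comp_hasFDerivAt p hasFDerivAt_fst).mul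
        ((hasDerivAt_sin p.2).comp_hasFDerivAt p hasFDerivAt_snd))) ?_
  ext <;> simp <;> ring

lemma det_P' (p : ℝ × ℝ) : (P' p).det = J p := by
  unfold P' J
  simp only [LinearMap.det_toContinuousLinearMap, LinearMap.det_toLin, Matrix.det_fin_two_of]
  have a := cosh_sq p.1
  have b := cos_sq' p.2
  linear_combination sin p.2 ^ 2 * a + sinh p.1 ^ 2 * b

lemma symm_P (p : ℝ × ℝ) : Complex.measurableEquivRealProd.symm (P p) = Z p := by
  apply Complex.ext <;> rfl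

lemma injOn_P : InjOn P (Ioo (-(π / 2)) (π / 2) ×ˢ Ioo 0 π) := by
  intro p hp q hq h
  rw [← Zinv_Z p hp.2, ← Zinv_Z q hq.2, ← symm_P, ← symm_P, h]

lemma preimage_ae : (Complex.measurableEquivRealProd.symm ⁻¹' Om : Set (ℝ × ℝ)) =ᵐ[volume]
    P '' (Ioo (-(π / 2)) (π / 2) ×ˢ Ioo 0 π) := by
  have B : volume (LinearMap.ker (LinearMap.snd ℝ ℝ ℝ) : Set (ℝ × ℝ)) = 0 := by
    apply Measure.addHaar_submodule
    rw [Ne, LinearMap.ker_eq_top]
    intro h
    have : (LinearMap.snd ℝ ℝ ℝ) (0, 1) = (0 : ℝ × ℝ →ₗ[ℝ] ℝ) (0, 1) := by rw [h]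
    simp at this
  filter_upwards [measure_eq_zero_iff_ae_notMem.1 B] with x hx
  have hx2 : x.2 ≠ 0 := hx
  apply propext
  constructor
  · intro h
    obtain ⟨p, hp, hz⟩ := exists_Z (Complex.measurableEquivRealProd.symm x)
    have hP : P p = x := by
      apply Complex.measurableEquivRealProd.symm.injective
      rw [symm_P, hz]
    have h' : Z p ∈ Om := by rw [hz]; exact h
    refine ⟨p, ⟨(Z_mem_Om p).1 h', ?_, ?_⟩, hP⟩
    · refine lt_of_le_of_ne hp.1 fun h0 => hx2 ?_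
      rw [← hP]; simp [P, ← h0]
    · refine lt_of_le_of_ne hp.2 fun h0 => hx2 ?_
      rw [← hP]; simp [P, h0]
  · rintro ⟨p, hp, rfl⟩
    show Complex.measurableEquivRealProd.symm (P p) ∈ Om
    rw [symm_P]; exact (Z_mem_Om p).2 hp.1

lemma integral_Om (g : ℂ → ℝ) : ∫ z in Om, g z = ∫ p, J p * g (Z p) ∂μQ := by
  rw [← Complex.volume_preserving_equiv_real_prod.symm.setIntegral_preimage_emb
    Complex.measurableEquivRealProd.symm.measurableEmbedding g Om,
    setIntegral_congr_set preimage_ae,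
    integral_image_eq_integral_abs_det_fderiv_smul volume
      (measurableSet_Ioo.prod measurableSet_Ioo)
      (fun p _ => (hasFDerivAt_P p).hasFDerivWithinAt) injOn_P, μQ_eq]
  simp only [det_P', symm_P, abs_of_nonneg (J_nonneg _), smul_eq_mul]

lemma integrable_Om (g : ℂ → ℝ) :
    IntegrableOn g Om ↔ Integrable (fun p => J p * g (Z p)) μQ := by
  rw [← Complex.volume_preserving_equiv_real_prod.symm.integrableOn_comp_preimage
    Complex.measurableEquivRealProd.symm.measurableEmbedding,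
    integrableOn_congr_set_ae preimage_ae,
    integrableOn_image_iff_integrableOn_abs_det_fderiv_smul volume
      (measurableSet_Ioo.prod measurableSet_Ioo)
      (fun p _ => (hasFDerivAt_P p).hasFDerivWithinAt) injOn_P, μQ_eq]
  simp only [det_P', Function.comp, symm_P, abs_of_nonneg (J_nonneg _), smul_eq_mul]
  rfl

end Pool.Agent.Work.MP_58debc_an
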