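import Mathlib

open Set Real MeasureTheory
open scoped Topology

namespace Pool.Agent.Work.MP_58debc_an

lemma ae_zero_of_cont (a b : ℝ) (f : ℝ → ℝ) (hf : IntegrableOn f (Ioo a b))
    (h : ∀ G : ℝ → ℝ, Continuous G → ∫ t in Ioo a b, f t * G t = 0) :
    ∀ᵐ t ∂(volume.restrict (Ioo a b)), f t = 0 := by
  refine ae_eq_zero_of_integral_contDiff_smul_eq_zero (Integrable.locallyIntegrable hf)
    fun g hg _ => ?_
  have := h g hg.continuous
  simpa [mul_comm] using this

lemma intOn_mul (a b : ℝ) (f G : ℝ → ℝ) (hf : IntegrableOn f (Ioo a b)) (hG : Continuous G) :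
    IntegrableOn (fun t => f t * G t) (Ioo a b) :=
  hf.mul_continuousOn_of_subset hG.continuousOn measurableSet_Ioo isCompact_Icc
    Ioo_subset_Icc_self

/-- completeness of the Dirichlet modes of the interval `(-π/2, π/2)` -/
lemma ae_zero_of_modes (f : ℝ → ℝ) (hf : IntegrableOn f (Ioo (-(π / 2)) (π / 2)))
    (hodd : ∀ k : ℕ, Odd k → ∫ t in Ioo (-(π / 2)) (π / 2), f t * cos (k * t) = 0)
    (heven : ∀ k : ℕ, Even k → 0 < k → ∫ t in Ioo (-(π / 2)) (π / 2), f t * sin (k * t) = 0) :
    ∀ᵐ t ∂(volume.restrict (Ioo (-(π / 2)) (π / 2))), f t = 0 := by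
  set I := Ioo (-(π / 2)) (π / 2) with hI
  have hint : ∀ G : ℝ → ℝ, Continuous G → IntegrableOn (fun t => f t * G t) I :=
    fun G hG => intOn_mul _ _ f G hf hG
  have hN : ∀ k : ℕ, ∫ t in I, f t * sin (k * (t + π / 2)) = 0 := by
    intro k
    rcases Nat.even_or_odd k with hk | hk
    · rcases Nat.eq_zero_or_pos k with h0 | h0
      · simp [h0]
      have h1 := heven k hk h0
      obtain ⟨m, hm⟩ := hk
      have : ∀ t, f t * sin (k * (t + π / 2)) = cos (m * π) * (f t * sin (k * t)) := by
        intro t
        have : (k : ℝ) * (t + π / 2) = k * t + m * π := by rw [hm]; push_cast; ring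
        rw [this, sin_add, sin_nat_mul_pi]; ring
      simp_rw [this]
      rw [integral_const_mul, h1, mul_zero]
    · have h1 := hodd k hk
      obtain ⟨m, hm⟩ := hk
      have : ∀ t, f t * sin (k * (t + π / 2)) = cos (m * π) * (f t * cos (k * t)) := by
        intro t
        have : (k : ℝ) * (t + π / 2) = (k * t + π / 2) + m * π := by rw [hm]; push_cast; ring
        rw [this, sin_add, sin_nat_mul_pi, sin_add_pi_div_two]; ring
      simp_rw [this]
      rw [integral_const_mul, h1, mul_zero]
  have hZ : ∀ k : ℤ, ∫ t in I, f t * sin (k * (t + π / 2)) = 0 := by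
    intro k
    obtain ⟨n, hn | hn⟩ := Int.eq_nat_or_neg k
    · rw [hn]; simpa using hN n
    · rw [hn]
      have := hN n
      simp only [Int.cast_neg, Int.cast_natCast, neg_mul, sin_neg, mul_neg]
      rw [integral_neg, this, neg_zero]
  have hpow : ∀ n : ℕ, ∀ k : ℤ,
      ∫ t in I, f t * (sin (k * (t + π / 2)) * cos (t + π / 2) ^ n) = 0 := by
    intro n
    induction n with
    | zero => intro k; simpa using hZ k
    | succ n ih =>
      intro k
      have e : ∀ t, f t * (sin (k * (t + π / 2)) * cos (t + π / 2) ^ (n + 1)) =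
          (1 / 2) * (f t * (sin (((k + 1 : ℤ) : ℝ) * (t + π / 2)) * cos (t + π / 2) ^ n) +
            f t * (sin (((k - 1 : ℤ) : ℝ) * (t + π / 2)) * cos (t + π / 2) ^ n)) := by
        intro t
        push_cast
        rw [add_mul, sub_mul, one_mul, sin_add (k * (t + π / 2)), sin_sub (k * (t + π / 2))]
        ring
      simp_rw [e]
      rw [integral_const_mul, integral_add (hint _ (by fun_prop)) (hint _ (by fun_prop)),
        ih, ih]
      simp
  have hpoly : ∀ p : Polynomial ℝ,
      ∫ t in I, f t * (sin (t + π / 2) * p.eval (cos (t + π / 2))) = 0 := by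
    intro p
    induction p using Polynomial.induction_on' with
    | add p q hp hq =>
      simp only [Polynomial.eval_add, mul_add]
      rw [integral_add (hint _ (by fun_prop)) (hint _ (by fun_prop)), hp, hq, add_zero]
    | monomial n a =>
      have := hpow n 1
      simp only [Int.cast_one, one_mul] at this
      have e : ∀ t, f t * (sin (t + π / 2) * (Polynomial.monomial n a).eval (cos (t + π / 2))) =
          a * (f t * (sin (t + π / 2) * cos (t + π / 2) ^ n)) := by
        intro t; rw [Polynomial.eval_monomial]; ring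
      simp_rw [e]
      rw [integral_const_mul, this, mul_zero]
  have hG : ∀ G : ℝ → ℝ, Continuous G → ∫ t in I, (f t * sin (t + π / 2)) * G t = 0 := by
    intro G hG
    have hψ : Continuous fun y => G (arccos y - π / 2) :=
      hG.comp (continuous_arccos.sub continuous_const)
    have hle : ∀ ε > 0, |∫ t in I, (f t * sin (t + π / 2)) * G t| ≤ ε * ∫ t in I, |f t| := by
      intro ε hε
      obtain ⟨p, hp⟩ := exists_polynomial_near_of_continuousOn (-1) 1 _ hψ.continuousOn ε hε
      have e : ∫ t in I, (f t * sin (t + π / 2)) * G t =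
          ∫ t in I, f t * (sin (t + π / 2) * (G t - p.eval (cos (t + π / 2)))) := by
        have := hpoly p
        simp_rw [mul_sub]
        rw [integral_sub (hint _ (by fun_prop)) (hint _ (by fun_prop)), this, sub_zero]
        simp_rw [mul_assoc]
      rw [e, ← integral_const_mul, ← Real.norm_eq_abs]
      refine norm_integral_le_of_norm_le (Integrable.const_mul hf.abs ε) ?_
      filter_upwards [ae_restrict_mem measurableSet_Ioo] with t ht
      have h1 := hp (cos (t + π / 2)) ⟨neg_one_le_cos _, cos_le_one _⟩
      rw [arccos_cos (by linarith [ht.1]) (by linarith [ht.2]), add_sub_cancel_right,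
        abs_sub_comm] at h1
      rw [Real.norm_eq_abs, abs_mul, abs_mul, mul_comm]
      have h2 := abs_sin_le_one (t + π / 2)
      have h3 : |sin (t + π / 2)| * |G t - p.eval (cos (t + π / 2))| ≤ ε := by
        have := abs_nonneg (G t - p.eval (cos (t + π / 2)))
        nlinarith
      exact mul_le_mul_of_nonneg_right h3 (abs_nonneg _)
    have hC : 0 ≤ ∫ t in I, |f t| := integral_nonneg fun t => abs_nonneg _
    rw [← abs_nonpos_iff]
    refine le_of_forall_pos_le_add fun ε hε => ?_
    have := hle (ε / ((∫ t in I, |f t|) + 1)) (by positivity)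
    refine this.trans ?_
    rw [zero_add, div_mul_eq_mul_div, div_le_iff₀ (by positivity)]
    nlinarith
  have h0 := ae_zero_of_cont _ _ _ (hint _ (by fun_prop)) hG
  filter_upwards [h0, ae_restrict_mem measurableSet_Ioo] with t h1 ht
  have : 0 < sin (t + π / 2) :=
    sin_pos_of_pos_of_lt_pi (by linarith [ht.1]) (by linarith [ht.2])
  rcases mul_eq_zero.1 h1 with h | h
  · exact h
  · linarith

end Pool.Agent.Work.MP_58debc_an
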