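import Pool.Agent.Work.MP_58debc_an.ODE
import Pool.Agent.Work.MP_58debc_an.Sine
import Pool.Agent.Work.MP_58debc_an.Energy

open Set Real MeasureTheory
open scoped Topology

namespace Pool.Agent.Work.MP_58debc_an

/-- admissible mode data: odd frequency cosines and even frequency sines -/
def Mode (k : ℕ) (x y : ℝ) : Prop :=
  (Odd k ∧ x = 1 ∧ y = 0) ∨ (Even k ∧ 0 < k ∧ x = 0 ∧ y = 1)

/-- the mode function -/
noncomputable def mode (k : ℕ) (x y t : ℝ) : ℝ := x * cos (k * t) + y * sin (k * t)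

/-- its derivative -/
noncomputable def mode' (k : ℕ) (x y t : ℝ) : ℝ := k * (-x * sin (k * t) + y * cos (k * t))

lemma Mode.pos {k : ℕ} {x y : ℝ} (h : Mode k x y) : (0 : ℝ) < k := by
  rcases h with h | h
  · exact_mod_cast h.1.pos
  · exact_mod_cast h.2.1

@[fun_prop] lemma continuous_mode (k : ℕ) (x y : ℝ) : Continuous (mode k x y) := by
  unfold mode; fun_prop

@[fun_prop] lemma continuous_mode' (k : ℕ) (x y : ℝ) : Continuous (mode' k x y) := by
  unfold mode'; fun_prop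

lemma contDiff_mode (k : ℕ) (x y : ℝ) : ContDiff ℝ (⊤ : ℕ∞) (mode k x y) := by
  unfold mode; fun_prop

lemma hasDerivAt_mode (k : ℕ) (x y t : ℝ) : HasDerivAt (mode k x y) (mode' k x y t) t := by
  have e : HasDerivAt (fun t : ℝ => (k : ℝ) * t) (k * 1) t := (hasDerivAt_id t).const_mul _
  refine HasDerivAt.congr_deriv ((e.cos.const_mul x).add (e.sin.const_mul y)) ?_
  unfold mode'; ring

lemma hasDerivAt_mode' (k : ℕ) (x y t : ℝ) :
    HasDerivAt (mode' k x y) (-(k : ℝ) ^ 2 * mode k x y t) t := by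
  have e : HasDerivAt (fun t : ℝ => (k : ℝ) * t) (k * 1) t := (hasDerivAt_id t).const_mul _
  refine HasDerivAt.congr_deriv (((e.sin.const_mul (-x)).add (e.cos.const_mul y)).const_mul
    (k : ℝ)) ?_
  unfold mode; ring

lemma Mode.right {k : ℕ} {x y : ℝ} (h : Mode k x y) : mode k x y (π / 2) = 0 := by
  unfold mode
  rcases h with ⟨⟨m, hm⟩, rfl, rfl⟩ | ⟨⟨m, hm⟩, -, rfl, rfl⟩
  · have : (k : ℝ) * (π / 2) = m * π + π / 2 := by rw [hm]; push_cast; ring
    rw [this, cos_add_pi_div_two, sin_nat_mul_pi]; simp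
  · have : (k : ℝ) * (π / 2) = m * π := by rw [hm]; push_cast; ring
    rw [this, sin_nat_mul_pi]; simp

lemma Mode.neg {k : ℕ} {x y : ℝ} (h : Mode k x y) (t : ℝ) :
    mode k x y (-t) = (x - y) * mode k x y t := by
  unfold mode
  rcases h with ⟨-, rfl, rfl⟩ | ⟨-, -, rfl, rfl⟩ <;> simp

lemma Mode.left {k : ℕ} {x y : ℝ} (h : Mode k x y) : mode k x y (-(π / 2)) = 0 := by
  rw [h.neg, h.right, mul_zero]

lemma Mode.isTest {k : ℕ} {x y : ℝ} (hm : Mode k x y) (h h' h'' : ℝ → ℝ)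
    (hd : ∀ t, HasDerivAt h (h' t) t) (hd' : ∀ t, HasDerivAt h' (h'' t) t) (hc : Continuous h'')
    (b0 : y * h 0 = 0) (b0' : x * h' 0 = 0) (bπ : y * h π = 0) (bπ' : x * h' π = 0) :
    IsTest (fun p => mode k x y p.1 * h p.2) (fun p => mode' k x y p.1 * h p.2)
      (fun p => mode k x y p.1 * h' p.2) (fun p => -(k : ℝ) ^ 2 * mode k x y p.1 * h p.2)
      (fun p => mode k x y p.1 * h'' p.2) := by
  have c0 : Continuous h := continuous_iff_continuousAt.2 fun t => (hd t).continuousAt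
  have c1 : Continuous h' := continuous_iff_continuousAt.2 fun t => (hd' t).continuousAt
  have hxy : (x = 1 ∧ y = 0) ∨ (x = 0 ∧ y = 1) := by
    rcases hm with h | h
    · exact Or.inl h.2
    · exact Or.inr h.2.2
  refine ⟨by fun_prop, by fun_prop, by fun_prop, by fun_prop, by fun_prop,
    fun s t => (hasDerivAt_mode k x y s).mul_const (h t),
    fun s t => (hasDerivAt_mode' k x y s).mul_const (h t),
    fun s t => (hd t).const_mul (mode k x y s), fun s t => (hd' t).const_mul (mode k x y s),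
    fun t => by simp [hm.left], fun t => by simp [hm.right], fun s => ?_, fun s => ?_,
    fun s => ?_, fun s => ?_⟩ <;> simp only [hm.neg] <;>
  rcases hxy with ⟨rfl, rfl⟩ | ⟨rfl, rfl⟩ <;> simp_all

lemma weak_vanish (B : ℝ → ℝ) (hB : Continuous B) (hB0 : ∀ t, 0 ≤ B t)
    (hBs : ∀ t, 2 * π / 3 ≤ t → B t = 0) (F W : ℝ × ℝ → ℝ) (hF : MemLp F 2 μQ)
    (hF0 : ∀ p : ℝ × ℝ, 2 * π / 3 ≤ p.2 → F p = 0) (hWm : Measurable W) (hW2 : MemLp W 2 μQ)
    (hW : ∀ Φ Φ1 Φ2 Φ11 Φ22 : ℝ × ℝ → ℝ, IsTest Φ Φ1 Φ2 Φ11 Φ22 →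
      ∫ p, W p * (Φ11 p + Φ22 p - B p.2 * Φ p) ∂μQ = ∫ p, F p * Φ p ∂μQ)
    (hI : ∀ k x y, Mode k x y → ∃ ψ ψ' : ℝ → ℝ, ψ 0 = x ∧ ψ' 0 = y ∧
      IsSol k B (fun _ => 0) ψ ψ' ∧ ∫ p, F p * (mode k x y p.1 * ψ p.2) ∂μQ = 0) :
    ∀ᵐ p ∂μQ, 2 * π / 3 < p.2 → W p = 0 := by
  have hWi : Integrable W μQ := hW2.integrable (by norm_num)
  have hFi : Integrable F μQ := hF.integrable (by norm_num)
  have step1 : ∀ k x y, Mode k x y → ∀ g : ℝ → ℝ, Continuous g → (∀ t, t ≤ 2 * π / 3 → g t = 0) →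
      ∫ p, W p * (mode k x y p.1 * g p.2) ∂μQ = 0 := by
    intro k x y hm g hg hg0
    obtain ⟨ψ, ψ', h0, h0', hψ, hIk⟩ := hI k x y hm
    obtain ⟨q, q', q0, q0', hq⟩ := exists_free k hm.pos g hg 0 0
    have hq0 := free_unique k 0 (2 * π / 3) hm.pos q q' hq.cont.continuousOn hq.cont'.continuousOn
      (fun t _ => (hq t).1) (fun t ht => by simpa [hg0 t ht.2.le] using (hq t).2)
      0 (left_mem_Icc.2 (by linarith [pi_pos])) q0 q0'
    have hxy : (x = 1 ∧ y = 0) ∨ (x = 0 ∧ y = 1) := by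
      rcases hm with h | h
      · exact Or.inl h.2
      · exact Or.inr h.2.2
    have hpos := hψ.pos hm.pos hB0 (by
      rw [h0, h0']; rcases hxy with ⟨rfl, rfl⟩ | ⟨rfl, rfl⟩ <;> simp) (by
      rw [h0, h0']; rcases hxy with ⟨rfl, rfl⟩ | ⟨rfl, rfl⟩ <;> simp)
    have n1 : ψ π ≠ 0 := fun h => by simp [h] at hpos
    have n2 : ψ' π ≠ 0 := fun h => by simp [h] at hpos
    obtain ⟨c, hc1, hc2⟩ : ∃ c, y * (q π + c * ψ π) = 0 ∧ x * (q' π + c * ψ' π) = 0 := by
      rcases hxy with ⟨rfl, rfl⟩ | ⟨rfl, rfl⟩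
      · exact ⟨-q' π / ψ' π, by simp, by field_simp; ring⟩
      · exact ⟨-q π / ψ π, by field_simp; ring, by simp⟩
    have cq := hq.cont
    have cψ := hψ.cont
    have ht := hm.isTest (fun t => q t + c * ψ t) (fun t => q' t + c * ψ' t)
      (fun t => ((k ^ 2 + 0) * q t + g t) + c * ((k ^ 2 + B t) * ψ t + 0))
      (fun t => (hq t).1.add ((hψ t).1.const_mul c))
      (fun t => (hq t).2.add ((hψ t).2.const_mul c)) (by fun_prop)
      (by rw [q0, h0]; rcases hxy with ⟨rfl, rfl⟩ | ⟨rfl, rfl⟩ <;> simp)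
      (by rw [q0', h0']; rcases hxy with ⟨rfl, rfl⟩ | ⟨rfl, rfl⟩ <;> simp) hc1 hc2
    have e := hW _ _ _ _ _ ht
    have e1 : ∫ p, F p * (mode k x y p.1 * (q p.2 + c * ψ p.2)) ∂μQ = 0 := by
      rw [← mul_zero c, ← hIk, ← integral_const_mul]
      refine integral_congr_ae ?_
      filter_upwards [ae_μQ] with p hp
      rcases le_total p.2 (2 * π / 3) with h | h
      · rw [(hq0 p.2 ⟨hp.2.1.le, h⟩).1]; ring
      · rw [hF0 p h]; ring
    rw [e1] at e
    refine Eq.trans ?_ e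
    refine integral_congr_ae ?_
    filter_upwards [ae_μQ] with p hp
    rcases le_total p.2 (2 * π / 3) with h | h
    · rw [(hq0 p.2 ⟨hp.2.1.le, h⟩).1]; ring
    · rw [hBs p.2 h]; ring
  have step2 : ∀ k x y, Mode k x y → ∀ᵐ t ∂(volume.restrict (Ioo 0 π)), 2 * π / 3 < t →
      ∫ s in Ioo (-(π / 2)) (π / 2), W (s, t) * mode k x y s = 0 := by
    intro k x y hm
    have hi : Integrable (fun p => W p * mode k x y p.1) μQ := int_mul_μQ hWi (by fun_prop)
    have hi2 : IntegrableOn (fun t => ∫ s in Ioo (-(π / 2)) (π / 2), W (s, t) * mode k x y s)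
        (Ioo 0 π) := by
      unfold μQ at hi
      exact hi.integral_prod_right
    have h := ae_zero_of_cont 0 π _
      (intOn_mul _ _ _ (fun t => max 0 (t - 2 * π / 3)) hi2 (by fun_prop)) (fun G hG => by
        have e := step1 k x y hm (fun t => max 0 (t - 2 * π / 3) * G t) (by fun_prop)
          (fun t ht => by rw [max_eq_left (by linarith), zero_mul])
        have hi3 : Integrable (fun p : ℝ × ℝ =>
            W p * (mode k x y p.1 * (max 0 (p.2 - 2 * π / 3) * G p.2))) μQ :=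
          int_mul_μQ hWi (by fun_prop)
        unfold μQ at e hi3
        rw [integral_prod_symm _ hi3] at e
        refine Eq.trans ?_ e
        refine integral_congr_ae (Filter.Eventually.of_forall fun t => ?_)
        simp only
        rw [mul_assoc, ← integral_mul_const]
        simp only [mul_assoc])
    filter_upwards [h] with t h1 h2
    rw [max_eq_right (by linarith)] at h1
    rcases mul_eq_zero.1 h1 with h3 | h3
    · exact h3
    · linarith
  have hodd : ∀ᵐ t ∂(volume.restrict (Ioo 0 π)), ∀ k : ℕ, Odd k → 2 * π / 3 < t →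
      ∫ s in Ioo (-(π / 2)) (π / 2), W (s, t) * cos (k * s) = 0 := by
    rw [ae_all_iff]
    intro k
    by_cases hk : Odd k
    · filter_upwards [step2 k 1 0 (Or.inl ⟨hk, rfl, rfl⟩)] with t h _ h2
      simpa [mode] using h h2
    · exact Filter.Eventually.of_forall fun t h => absurd h hk
  have heven : ∀ᵐ t ∂(volume.restrict (Ioo 0 π)), ∀ k : ℕ, Even k → 0 < k → 2 * π / 3 < t →
      ∫ s in Ioo (-(π / 2)) (π / 2), W (s, t) * sin (k * s) = 0 := by
    rw [ae_all_iff]
    intro k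
    by_cases hk : Even k ∧ 0 < k
    · filter_upwards [step2 k 0 1 (Or.inr ⟨hk.1, hk.2, rfl, rfl⟩)] with t h _ _ h2
      simpa [mode] using h h2
    · exact Filter.Eventually.of_forall fun t h h' => absurd ⟨h, h'⟩ hk
  have hmeas : MeasurableSet {p : ℝ × ℝ | 2 * π / 3 < p.2 → W p = 0} := by
    have : {p : ℝ × ℝ | 2 * π / 3 < p.2 → W p = 0} =
        {p : ℝ × ℝ | p.2 ≤ 2 * π / 3} ∪ W ⁻¹' {0} := by
      ext p
      simp only [mem_ofPred_eq, mem_union, mem_preimage, mem_singleton_iff]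
      constructor
      · intro h
        by_cases h1 : p.2 ≤ 2 * π / 3
        · exact Or.inl h1
        · exact Or.inr (h (not_le.1 h1))
      · rintro (h | h) h1
        · linarith
        · exact h
    rw [this]
    exact (measurableSet_le measurable_snd measurable_const).union
      (hWm (measurableSet_singleton 0))
  unfold μQ at hWi ⊢
  rw [Measure.ae_prod_iff_ae_ae hmeas,
    Measure.ae_ae_comm (p := fun s t => 2 * π / 3 < t → W (s, t) = 0) hmeas]
  filter_upwards [hodd, heven, hWi.prod_left_ae] with t h1 h2 h3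
  by_cases ht : 2 * π / 3 < t
  · filter_upwards [ae_zero_of_modes (fun s => W (s, t)) h3 (fun k hk => h1 k hk ht)
      (fun k hk hk' => h2 k hk hk' ht)] with s hs _
    exact hs
  · exact Filter.Eventually.of_forall fun s h => absurd h ht

end Pool.Agent.Work.MP_58debc_an
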