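import Pool.Agent.Work.MP_58debc_an.Coord
import Pool.Agent.Work.MP_58debc_an.Strip

open Set Real MeasureTheory
open scoped Topology

namespace Pool.Agent.Work.MP_58debc_an

lemma cos_log_eq (κ w s : ℂ) (hw : |w.im| < π / 2) (hs : s ^ 2 = Complex.cosh w ^ 2 - 1) :
    Complex.cos (κ * Complex.log (Complex.cosh w + s)) = Complex.cos (κ * w) ∧
      Complex.cosh w + s ∈ Complex.slitPlane := by
  rw [abs_lt] at hw
  have hp := pi_pos
  have hc : 0 < cos w.im := cos_pos_of_mem_Ioo ⟨hw.1, hw.2⟩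
  rw [← Complex.sinh_sq] at hs
  rcases sq_eq_sq_iff_eq_or_eq_neg.1 hs with h | h
  · rw [h, Complex.cosh_add_sinh, Complex.log_exp (by linarith) (by linarith)]
    refine ⟨rfl, Or.inl ?_⟩
    rw [Complex.exp_re]; positivity
  · rw [h, ← sub_eq_add_neg, Complex.cosh_sub_sinh,
      Complex.log_exp (by simp; linarith) (by simp; linarith), mul_neg, Complex.cos_neg]
    refine ⟨rfl, Or.inl ?_⟩
    rw [Complex.exp_re, Complex.neg_im, cos_neg]; positivity

/-- the holomorphic function `cos (κ arcosh (-z))` -/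
noncomputable def Gf (κ z : ℂ) : ℂ :=
  Complex.cos (κ * Complex.log (-z + ((-z) ^ 2 - 1) ^ (2⁻¹ : ℂ)))

lemma cosh_shift (p : ℝ × ℝ) : Complex.cosh (p.1 + (p.2 - π : ℝ) * Complex.I) = -Z p := by
  rw [← Z_eq (p.1, p.2 - π)]
  apply Complex.ext <;> simp [cos_sub_pi, sin_sub_pi]

lemma exists_w (z : ℂ) (hz : sc z < 0) : ∃ w : ℂ, |w.im| < π / 2 ∧ Complex.cosh w = -z := by
  obtain ⟨p, hp, rfl⟩ := exists_Z z
  refine ⟨p.1 + (p.2 - π : ℝ) * Complex.I, ?_, cosh_shift p⟩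
  rw [sc_Z] at hz
  have : π / 2 < p.2 := by
    by_contra h
    push Not at h
    have := cos_nonneg_of_mem_Icc (x := p.2) ⟨by linarith [hp.1, pi_pos], h⟩
    linarith
  simp only [Complex.add_im, Complex.ofReal_im, Complex.mul_im, Complex.ofReal_re, Complex.I_im,
    Complex.I_re, mul_one, mul_zero, add_zero, zero_add]
  rw [abs_lt]
  constructor <;> linarith [hp.2, pi_pos]

lemma sq_half (a : ℂ) : (a ^ (2⁻¹ : ℂ)) ^ 2 = a := Complex.cpow_ofNat_inv_pow a 2

lemma Gf_diff_ne (κ z : ℂ) (hz : sc z < 0) (h1 : z ≠ -1) : DifferentiableAt ℂ (Gf κ) z := by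
  have hne : (-z) ^ 2 - 1 ≠ 0 := by
    intro h
    have : (z - 1) * (z + 1) = 0 := by linear_combination h
    rcases mul_eq_zero.1 this with h2 | h2
    · have : z = 1 := by linear_combination h2
      rw [this] at hz
      unfold sc at hz
      norm_num at hz
    · exact h1 (by linear_combination h2)
  obtain ⟨w, hw, hwz⟩ := exists_w z hz
  rcases Complex.mem_slitPlane_or_neg_mem_slitPlane hne with h | h
  · have hs := (cos_log_eq κ w (((-z) ^ 2 - 1) ^ (2⁻¹ : ℂ)) hw (by rw [sq_half, hwz])).2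
    rw [hwz] at hs
    unfold Gf
    have hd : DifferentiableAt ℂ (fun z : ℂ => -z + ((-z) ^ 2 - 1) ^ (2⁻¹ : ℂ)) z :=
      differentiableAt_id.neg.add (DifferentiableAt.cpow_const
        (f := fun z : ℂ => (-z) ^ 2 - 1) (by fun_prop) h)
    exact ((hd.clog hs).const_mul κ).ccos
  · have hsq : ∀ ζ : ℂ, (Complex.I * (-(ζ ^ 2 - 1)) ^ (2⁻¹ : ℂ)) ^ 2 = ζ ^ 2 - 1 := by
      intro ζ
      rw [mul_pow, sq_half, Complex.I_sq]; ring
    have hs := (cos_log_eq κ w (Complex.I * (-((-z) ^ 2 - 1)) ^ (2⁻¹ : ℂ)) hw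
      (by rw [hsq, hwz])).2
    rw [hwz] at hs
    have he : Gf κ =ᶠ[𝓝 z] fun z => Complex.cos (κ * Complex.log
        (-z + Complex.I * (-((-z) ^ 2 - 1)) ^ (2⁻¹ : ℂ))) := by
      filter_upwards [(isOpen_lt continuous_sc continuous_const).mem_nhds hz] with y hy
      obtain ⟨v, hv, hvy⟩ := exists_w y hy
      have a := (cos_log_eq κ v (((-y) ^ 2 - 1) ^ (2⁻¹ : ℂ)) hv (by rw [sq_half, hvy])).1
      have b := (cos_log_eq κ v (Complex.I * (-((-y) ^ 2 - 1)) ^ (2⁻¹ : ℂ)) hv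
        (by rw [hsq, hvy])).1
      rw [hvy] at a b
      unfold Gf
      rw [a, b]
    refine DifferentiableAt.congr_of_eventuallyEq ?_ he
    have hd : DifferentiableAt ℂ
        (fun z : ℂ => -z + Complex.I * (-((-z) ^ 2 - 1)) ^ (2⁻¹ : ℂ)) z :=
      differentiableAt_id.neg.add ((DifferentiableAt.cpow_const
        (f := fun z : ℂ => -((-z) ^ 2 - 1)) (by fun_prop) h).const_mul _)
    exact ((hd.clog hs).const_mul κ).ccos

lemma sc_neg_one : sc (-1) = -1 := by unfold sc; norm_num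

lemma Gf_diff (κ z : ℂ) (hz : sc z < 0) : DifferentiableAt ℂ (Gf κ) z := by
  by_cases h1 : z = -1
  · subst h1
    refine (Complex.analyticAt_of_differentiable_on_punctured_nhds_of_continuousAt ?_
      ?_).differentiableAt
    · filter_upwards [self_mem_nhdsWithin, mem_nhdsWithin_of_mem_nhds
        ((isOpen_lt continuous_sc continuous_const).mem_nhds hz)] with y h1 h2
      exact Gf_diff_ne κ y h2 h1
    · have c1 : ContinuousAt (fun z : ℂ => ((-z) ^ 2 - 1) ^ (2⁻¹ : ℂ)) (-1) := by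
        have := Complex.continuousAt_cpow_const_of_re_pos (z := 0) (w := (2⁻¹ : ℂ))
          (Or.inl le_rfl) (by norm_num)
        exact ContinuousAt.comp_of_eq (g := fun z : ℂ => z ^ (2⁻¹ : ℂ))
          (f := fun z : ℂ => (-z) ^ 2 - 1) this (by fun_prop) (by norm_num)
      have c2 : ContinuousAt (fun z : ℂ => -z + ((-z) ^ 2 - 1) ^ (2⁻¹ : ℂ)) (-1) :=
        continuousAt_id.neg.add c1
      unfold Gf
      exact Complex.continuous_cos.continuousAt.comp
        (continuousAt_const.mul (c2.clog (by norm_num)))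
  · exact Gf_diff_ne κ z hz h1

lemma Gf_contDiffAt (κ z : ℂ) (hz : sc z < 0) : ContDiffAt ℝ (⊤ : ℕ∞) (Gf κ) z := by
  have ho : IsOpen {z | sc z < 0} := isOpen_lt continuous_sc continuous_const
  have hd : DifferentiableOn ℂ (Gf κ) {z | sc z < 0} := fun y hy =>
    (Gf_diff κ y hy).differentiableWithinAt
  exact ((hd.analyticOnNhd ho z hz).contDiffAt).restrict_scalars ℝ

lemma Gf_Z (k : ℝ) (p : ℝ × ℝ) (hp : π / 2 < p.2) (hp' : p.2 ≤ π) :
    (Gf k (Z p)).re = cos (k * p.1) * cosh (k * (π - p.2)) ∧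
      (Gf k (Z p)).im = sin (k * p.1) * sinh (k * (π - p.2)) := by
  have hw : |(p.1 + (p.2 - π : ℝ) * Complex.I : ℂ).im| < π / 2 := by
    simp only [Complex.add_im, Complex.ofReal_im, Complex.mul_im, Complex.ofReal_re, Complex.I_im,
      Complex.I_re, mul_one, mul_zero, add_zero, zero_add]
    rw [abs_lt]
    constructor <;> linarith [pi_pos]
  have a := (cos_log_eq k _ (((-Z p) ^ 2 - 1) ^ (2⁻¹ : ℂ)) hw (by rw [sq_half, cosh_shift])).1
  rw [cosh_shift] at a
  unfold Gf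
  rw [a]
  have : (k : ℂ) * (p.1 + (p.2 - π : ℝ) * Complex.I) =
      (k * p.1 : ℝ) - (k * (π - p.2) : ℝ) * Complex.I := by push_cast; ring
  rw [this, Complex.cos_sub, Complex.cos_mul_I, Complex.sin_mul_I, ← Complex.ofReal_cos,
    ← Complex.ofReal_sin, ← Complex.ofReal_cosh, ← Complex.ofReal_sinh]
  constructor <;> simp only [Complex.add_re, Complex.add_im, Complex.mul_re, Complex.mul_im,
    Complex.ofReal_re, Complex.ofReal_im, Complex.I_re, Complex.I_im] <;> ring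

lemma contDiffAt_sc (z : ℂ) (h : |sc z| < 1) : ContDiffAt ℝ (⊤ : ℕ∞) sc z := by
  have h1 : z + 1 ≠ 0 := fun h1 => by
    have : z = -1 := by linear_combination h1
    rw [this, sc_neg_one] at h; norm_num at h
  have h2 : z - 1 ≠ 0 := fun h1 => by
    have : z = 1 := by linear_combination h1
    rw [this] at h; unfold sc at h; norm_num at h
  unfold sc
  exact (((contDiffAt_id.add contDiffAt_const).norm ℝ h1).sub
    ((contDiffAt_id.sub contDiffAt_const).norm ℝ h2)).div_const 2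

lemma contDiffAt_eta (z : ℂ) (h : |sc z| < 1) :
    ContDiffAt ℝ (⊤ : ℕ∞) (fun z => arccos (sc z)) z := by
  have h' := abs_lt.1 h
  exact (contDiffAt_arccos (by linarith) (by linarith)).comp z (contDiffAt_sc z h)

lemma contDiffAt_xi (z : ℂ) (h : |sc z| < 1) :
    ContDiffAt ℝ (⊤ : ℕ∞) (fun z => (Zinv z).1) z := by
  have h' := abs_lt.1 h
  have hp : 0 < 1 - sc z ^ 2 := by nlinarith
  unfold Zinv
  refine ContDiffAt.arsinh (ContDiffAt.div Complex.imCLM.contDiff.contDiffAt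
    (ContDiffAt.sqrt (contDiffAt_const.sub ((contDiffAt_sc z h).pow 2)) hp.ne') ?_)
  exact (sqrt_pos.2 hp).ne'

lemma le_of_cos_le {t : ℝ} (ht : t ∈ Icc 0 π) (h : cos t ≤ -(1 / 2)) : 2 * π / 3 ≤ t := by
  by_contra h1
  push Not at h1
  have := cos_lt_cos_of_nonneg_of_le_pi ht.1 (by linarith [pi_pos]) h1
  rw [show 2 * π / 3 = π - π / 3 by ring, cos_pi_sub, cos_pi_div_three] at this
  linarith

lemma lt_of_cos_lt {t : ℝ} (ht : t ∈ Icc 0 π) (h : cos t < -(1 / 2)) : 2 * π / 3 < t := by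
  refine lt_of_le_of_ne (le_of_cos_le ht h.le) fun h1 => ?_
  rw [← h1, show 2 * π / 3 = π - π / 3 by ring, cos_pi_sub, cos_pi_div_three] at h
  linarith

lemma le_of_le_cos {t : ℝ} (ht : t ∈ Icc 0 π) (h : 1 / 2 ≤ cos t) : t ≤ π / 3 := by
  by_contra h1
  push Not at h1
  have := cos_lt_cos_of_nonneg_of_le_pi (by linarith [pi_pos]) ht.2 h1
  rw [cos_pi_div_three] at this
  linarith

lemma exists_descent (k : ℕ) (x y c : ℝ) (hxy : (x = 1 ∧ y = 0) ∨ (x = 0 ∧ y = 1)) (h : ℝ → ℝ)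
    (hh : ContDiff ℝ (⊤ : ℕ∞) h) (h0 : ∀ t ∈ Icc 0 (π / 3), h t = 0)
    (h1 : ∀ t ∈ Icc (2 * π / 3) π, h t = c * (x * cosh (k * (π - t)) + y * sinh (k * (π - t)))) :
    ∃ φ : ℂ → ℝ, ContDiff ℝ (⊤ : ℕ∞) φ ∧ (∀ z, 1 / 2 < sc z → φ z = 0) ∧
      ∀ p : ℝ × ℝ, p.2 ∈ Icc 0 π → φ (Z p) = mode k x y p.1 * h p.2 := by
  classical
  let φ : ℂ → ℝ := fun z => if sc z ≤ -(1 / 2) then
    c * (x * (Gf (k : ℝ) z).re + y * (Gf (k : ℝ) z).im) else mode k x y (Zinv z).1 * h (Zinv z).2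
  have val : ∀ p : ℝ × ℝ, p.2 ∈ Icc 0 π → φ (Z p) = mode k x y p.1 * h p.2 := by
    intro p hp
    simp only [φ]
    split_ifs with hc
    · rw [sc_Z] at hc
      have h2 := le_of_cos_le hp hc
      obtain ⟨a, b⟩ := Gf_Z k p (by linarith [pi_pos]) hp.2
      rw [a, b, h1 p.2 ⟨h2, hp.2⟩]
      unfold mode
      rcases hxy with ⟨rfl, rfl⟩ | ⟨rfl, rfl⟩ <;> ring
    · rcases eq_or_lt_of_le hp.1 with h2 | h2
      · have : (Zinv (Z p)).2 = p.2 := Zinv_snd p hp
        rw [this, ← h2, h0 0 (left_mem_Icc.2 (by linarith [pi_pos]))]; simp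
      · rw [Zinv_Z p ⟨h2, lt_of_le_of_ne hp.2 fun h3 => hc ?_⟩]
        rw [sc_Z, h3, cos_pi]; norm_num
  have zero : ∀ z, 1 / 2 < sc z → φ z = 0 := by
    intro z hz
    obtain ⟨p, hp, rfl⟩ := exists_Z z
    rw [sc_Z] at hz
    rw [val p hp, h0 p.2 ⟨hp.1, le_of_le_cos hp hz.le⟩, mul_zero]
  refine ⟨φ, contDiff_iff_contDiffAt.2 fun z => ?_, zero, val⟩
  by_cases c1 : sc z < -(1 / 2)
  · have he : φ =ᶠ[𝓝 z] fun z => c * (x * (Gf (k : ℝ) z).re + y * (Gf (k : ℝ) z).im) := by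
      filter_upwards [(isOpen_lt continuous_sc continuous_const).mem_nhds c1] with v hv
      simp only [φ]
      rw [if_pos (le_of_lt hv)]
    refine ContDiffAt.congr_of_eventuallyEq ?_ he
    have g := Gf_contDiffAt (k : ℝ) z (by linarith)
    exact contDiffAt_const.mul ((contDiffAt_const.mul
      (Complex.reCLM.contDiff.contDiffAt.comp z g)).add
      (contDiffAt_const.mul (Complex.imCLM.contDiff.contDiffAt.comp z g)))
  by_cases c2 : 1 / 2 < sc z
  · have he : φ =ᶠ[𝓝 z] fun _ => 0 := by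
      filter_upwards [(isOpen_lt continuous_const continuous_sc).mem_nhds c2] with v hv
      exact zero v hv
    exact contDiffAt_const.congr_of_eventuallyEq he
  have c3 : |sc z| < 1 := by
    rw [abs_lt]; constructor <;> linarith [not_lt.1 c1, not_lt.1 c2]
  have he : φ =ᶠ[𝓝 z] fun z => mode k x y (Zinv z).1 * h (arccos (sc z)) := by
    filter_upwards [(isOpen_lt continuous_sc.abs continuous_const).mem_nhds c3] with v hv
    obtain ⟨p, hp, rfl⟩ := exists_Z v
    have hv' : |cos p.2| < 1 := by rw [← sc_Z]; exact hv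
    have hp' : p.2 ∈ Ioo 0 π := by
      refine ⟨lt_of_le_of_ne hp.1 fun h3 => ?_, lt_of_le_of_ne hp.2 fun h3 => ?_⟩
      · rw [← h3] at hv'; simp at hv'
      · rw [h3] at hv'; simp at hv'
    rw [val p hp, Zinv_Z p hp', Zinv_snd p hp]
  refine ContDiffAt.congr_of_eventuallyEq ?_ he
  exact ((contDiff_mode k x y).contDiffAt.comp z (contDiffAt_xi z c3)).mul
    (hh.contDiffAt.comp z (contDiffAt_eta z c3))

end Pool.Agent.Work.MP_58debc_an
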