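import Pool.Agent.Work.MP_58debc_an.Chain
import Pool.Agent.Work.MP_58debc_an.Descent

open Set Real MeasureTheory Laplacian
open scoped Topology

namespace Pool.Agent.Work.MP_58debc_an

/-- admissible angular profiles -/
structure Adm (B : ℝ → ℝ) : Prop where
  smooth : ContDiff ℝ (⊤ : ℕ∞) B
  nonneg : ∀ t, 0 ≤ B t
  left : ∀ t, t ≤ π / 3 → B t = 0
  right : ∀ t, 2 * π / 3 ≤ t → B t = 0

lemma Adm.flip {B : ℝ → ℝ} (h : Adm B) : Adm fun t => B (π - t) :=
  ⟨h.smooth.comp (contDiff_const.sub contDiff_id), fun _ => h.nonneg _,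
    fun t ht => h.right _ (by linarith), fun t ht => h.left _ (by linarith)⟩

/-- the potential with angular profile `B` -/
noncomputable def pot (B : ℝ → ℝ) (z : ℂ) : ℝ := B (arccos (sc z)) / (‖z + 1‖ * ‖z - 1‖)

lemma J_pos (p : ℝ × ℝ) (hp : p.2 ∈ Ioo 0 π) : 0 < J p := by
  have := sin_pos_of_pos_of_lt_pi hp.1 hp.2
  unfold J; positivity

lemma J_pot (B : ℝ → ℝ) (p : ℝ × ℝ) (hp : p.2 ∈ Ioo 0 π) : J p * pot B (Z p) = B p.2 := by
  unfold pot
  rw [J_eq, Zinv_snd p (Ioo_subset_Icc_self hp), mul_div_cancel₀ _ (J_pos p hp).ne']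

lemma Adm.contDiff_pot {B : ℝ → ℝ} (h : Adm B) : ContDiff ℝ (⊤ : ℕ∞) (pot B) := by
  refine contDiff_iff_contDiffAt.2 fun z => ?_
  by_cases c : 1 / 2 < |sc z|
  · have he : pot B =ᶠ[𝓝 z] fun _ => 0 := by
      filter_upwards [(isOpen_lt continuous_const continuous_sc.abs).mem_nhds c] with v hv
      obtain ⟨p, hp, rfl⟩ := exists_Z v
      have hv' : 1 / 2 < |cos p.2| := by rw [← sc_Z]; exact hv
      unfold pot
      rw [Zinv_snd p hp]
      rcases lt_abs.1 hv' with h1 | h1
      · rw [h.left _ (le_of_le_cos hp h1.le), zero_div]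
      · rw [h.right _ (le_of_cos_le hp (by linarith)), zero_div]
    exact contDiffAt_const.congr_of_eventuallyEq he
  · have c3 : |sc z| < 1 := by linarith [not_lt.1 c]
    have h1 : z + 1 ≠ 0 := fun h1 => by
      have : z = -1 := by linear_combination h1
      rw [this, sc_neg_one] at c3; norm_num at c3
    have h2 : z - 1 ≠ 0 := fun h1 => by
      have : z = 1 := by linear_combination h1
      rw [this] at c3; unfold sc at c3; norm_num at c3
    unfold pot
    exact (h.smooth.contDiffAt.comp z (contDiffAt_eta z c3)).div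
      (((contDiffAt_id.add contDiffAt_const).norm ℝ h1).mul
        ((contDiffAt_id.sub contDiffAt_const).norm ℝ h2))
      (mul_ne_zero (norm_ne_zero_iff.2 h1) (norm_ne_zero_iff.2 h2))

lemma Om_subset : Om ⊆ Metric.closedBall 0 (cosh (π / 2)) := by
  intro z hz
  obtain ⟨p, -, rfl⟩ := exists_Z z
  have hp := (Z_mem_Om p).1 hz
  have h1 : cosh p.1 ≤ cosh (π / 2) := by
    rw [cosh_le_cosh, abs_of_pos (by linarith [pi_pos] : 0 < π / 2), abs_le]
    exact ⟨hp.1.le, hp.2.le⟩
  have h2 := norm_add_le (Z p + 1) (Z p - 1)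
  rw [norm_Z_add, norm_Z_sub, show Z p + 1 + (Z p - 1) = 2 * Z p by ring, norm_mul] at h2
  simp only [Complex.norm_ofNat] at h2
  rw [mem_closedBall_zero_iff]
  linarith

instance : IsFiniteMeasure (volume.restrict Om) :=
  isFiniteMeasure_restrict.2
    ((measure_mono Om_subset).trans_lt (isCompact_closedBall _ _).measure_lt_top).ne

lemma int_mul_Om {u G : ℂ → ℝ} (hu : IntegrableOn u Om) (hG : Continuous G) :
    IntegrableOn (fun z => u z * G z) Om :=
  hu.mul_continuousOn_of_subset hG.continuousOn isOpen_Om.measurableSet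
    (isCompact_closedBall _ _) Om_subset

/-- real Green pairing on the ellipse -/
noncomputable def gr (q u φ : ℂ → ℝ) : ℝ := ∫ z in Om, u z * (Δ φ z - q z * φ z)

lemma gr_add_right {q u φ ψ : ℂ → ℝ} (hq : Continuous q) (hu : IntegrableOn u Om)
    (hφ : ContDiff ℝ (⊤ : ℕ∞) φ) (hψ : ContDiff ℝ (⊤ : ℕ∞) ψ) :
    gr q u (φ + ψ) = gr q u φ + gr q u ψ := by
  unfold gr
  have a := continuous_laplacian hφ
  have b := continuous_laplacian hψ
  have c := hφ.continuous
  have d := hψ.continuous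
  rw [← integral_add (int_mul_Om hu (by fun_prop)) (int_mul_Om hu (by fun_prop))]
  congr 1
  ext z
  rw [ContDiffAt.laplacian_add (contDiff_infty.1 hφ 2).contDiffAt
    (contDiff_infty.1 hψ 2).contDiffAt]
  simp only [Pi.add_apply]
  ring

lemma gr_eq (B : ℝ → ℝ) (u φ : ℂ → ℝ) (D : ℝ × ℝ → ℝ) (hD : ∀ p, D p = J p * Δ φ (Z p)) :
    gr (pot B) u φ = ∫ p, u (Z p) * (D p - B p.2 * φ (Z p)) ∂μQ := by
  unfold gr
  rw [integral_Om]
  refine integral_congr_ae ?_
  filter_upwards [ae_μQ] with p hp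
  rw [hD, ← J_pot B p hp.2]
  ring

lemma mode_pairing {B : ℝ → ℝ} (hB : Adm B) (u : ℂ → ℝ)
    (H : ∀ φ : ℂ → ℝ, ContDiff ℝ (⊤ : ℕ∞) φ → (∀ z ∈ frontier Om, φ z = 0) →
      (∀ z, 1 / 2 < sc z → φ z = 0) → gr (pot B) u φ = 0)
    (k : ℕ) (x y : ℝ) (hm : Mode k x y) :
    ∃ ψ ψ' : ℝ → ℝ, ψ 0 = x ∧ ψ' 0 = y ∧ IsSol k (fun t => B (π - t)) (fun _ => 0) ψ ψ' ∧
      ∫ p, (B (π - p.2) - B p.2) * u (Z p) * (mode k x y p.1 * ψ p.2) ∂μQ = 0 := by
  have hp := pi_pos
  have hp4 := pi_le_four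
  have hex : ∀ C : ℝ → ℝ, Adm C → ∃ φ φ' : ℝ → ℝ, φ 0 = x ∧ φ' 0 = y ∧
      IsSol k C (fun _ => 0) φ φ' := fun C hC =>
    exists_sol k hm.pos C hC.smooth.continuous (fun t ht => by
      rcases ht with ht | ht
      · exact hC.left t (by linarith)
      · exact hC.right t (by linarith)) x y
  obtain ⟨ψ, ψ', ψ0, ψ0', hψ⟩ := hex _ hB.flip
  obtain ⟨f, f', f0, f0', hf⟩ := hex _ hB
  refine ⟨ψ, ψ', ψ0, ψ0', hψ, ?_⟩
  have hxy : (x = 1 ∧ y = 0) ∨ (x = 0 ∧ y = 1) := by
    rcases hm with h | h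
    · exact Or.inl h.2
    · exact Or.inr h.2.2
  have hd : ∀ t, HasDerivAt (fun t => ψ t - f t) (ψ' t - f' t) t := fun t => (hψ t).1.sub (hf t).1
  have hd' : ∀ t, HasDerivAt (fun t => ψ' t - f' t)
      ((k ^ 2 + B t) * (ψ t - f t) + (B (π - t) - B t) * ψ t) t := fun t =>
    ((hψ t).2.sub (hf t).2).congr_deriv (by ring)
  have hc : Continuous fun t => ψ t - f t := hψ.cont.sub hf.cont
  have hc' : Continuous fun t => ψ' t - f' t := hψ.cont'.sub hf.cont'
  have z0 := free_unique k 0 (π / 3) hm.pos _ _ hc.continuousOn hc'.continuousOn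
    (fun t _ => hd t) (fun t ht => (hd' t).congr_deriv (by
      rw [hB.left t ht.2.le, hB.right (π - t) (by linarith [ht.2])]; ring))
    0 (left_mem_Icc.2 (by linarith)) (by rw [ψ0, f0, sub_self]) (by rw [ψ0', f0', sub_self])
  have hw := wronskian hf hψ
  rw [ψ0, ψ0', f0, f0'] at hw
  have hk := hm.pos
  obtain ⟨c, hc1, hc2⟩ : ∃ c, ψ π - f π = c * x ∧ ψ' π - f' π = -(c * k * y) := by
    rcases hxy with ⟨rfl, rfl⟩ | ⟨rfl, rfl⟩
    · exact ⟨ψ π - f π, by ring, by linarith⟩
    · exact ⟨-(ψ' π - f' π) / k, by linarith, by field_simp⟩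
  have r : ∀ t : ℝ, HasDerivAt (fun t : ℝ => (k : ℝ) * (π - t)) (-k) t := fun t =>
    (((hasDerivAt_id t).const_sub π).const_mul (k : ℝ)).congr_deriv (by ring)
  have z1 := free_unique k (2 * π / 3) π hm.pos
    (fun t => (ψ t - f t) - c * (x * cosh (k * (π - t)) + y * sinh (k * (π - t))))
    (fun t => (ψ' t - f' t) + c * k * (x * sinh (k * (π - t)) + y * cosh (k * (π - t))))
    (Continuous.continuousOn (hc.sub (by fun_prop)))
    (Continuous.continuousOn (hc'.add (by fun_prop)))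
    (fun t _ => ((hd t).sub ((((r t).cosh.const_mul x).add
      ((r t).sinh.const_mul y)).const_mul c)).congr_deriv (by ring))
    (fun t ht => ((hd' t).add ((((r t).sinh.const_mul x).add
      ((r t).cosh.const_mul y)).const_mul (c * k))).congr_deriv (by
        rw [hB.right t ht.1.le, hB.left (π - t) (by linarith [ht.1])]; ring))
    π (right_mem_Icc.2 (by linarith)) (by simp [hc1]) (by simp [hc2])
  obtain ⟨φ, hφ, hφ0, hφv⟩ := exists_descent k x y c hxy (fun t => ψ t - f t)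
    ((hψ.contDiff hB.flip.smooth).sub (hf.contDiff hB.smooth)) (fun t ht => (z0 t ht).1)
    (fun t ht => by linarith [(z1 t ht).1])
  have hfr : ∀ z ∈ frontier Om, φ z = 0 := by
    intro z hz
    obtain ⟨p, hp', rfl⟩ := exists_Z z
    rw [frontier_Om] at hz
    rw [hφv p hp']
    rcases (rho_Z_eq p).1 hz with h | h
    · rw [h, hm.right, zero_mul]
    · rw [h, hm.left, zero_mul]
  obtain ⟨Φ1, Φ2, Φ11, Φ22, ht, hL⟩ := exists_test φ hφ hfr
  have e := H φ hφ hfr hφ0
  rw [gr_eq B u φ _ hL] at e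
  refine Eq.trans (integral_congr_ae ?_) e
  filter_upwards [ae_μQ] with p hp'
  obtain ⟨s, t⟩ := p
  have ht' : t ∈ Ioo 0 π := hp'.2
  have a1 : ∀ s, Φ1 (s, t) = mode' k x y s * (ψ t - f t) := fun s => by
    have := ht.d1 s t
    simp only [hφv (_, t) (Ioo_subset_Icc_self ht')] at this
    exact this.unique ((hasDerivAt_mode k x y s).mul_const (ψ t - f t))
  have a11 : Φ11 (s, t) = -(k : ℝ) ^ 2 * mode k x y s * (ψ t - f t) := by
    have := ht.d11 s t
    simp only [a1] at this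
    exact this.unique ((hasDerivAt_mode' k x y s).mul_const (ψ t - f t))
  have a2 : ∀ v ∈ Ioo 0 π, Φ2 (s, v) = mode k x y s * (ψ' v - f' v) := fun v hv => by
    refine (ht.d2 s v).unique (((hd v).const_mul (mode k x y s)).congr_of_eventuallyEq ?_)
    filter_upwards [Ioo_mem_nhds hv.1 hv.2] with v' hv'
    exact hφv (s, v') (Ioo_subset_Icc_self hv')
  have a22 : Φ22 (s, t) =
      mode k x y s * ((k ^ 2 + B t) * (ψ t - f t) + (B (π - t) - B t) * ψ t) := by
    refine (ht.d22 s t).unique (((hd' t).const_mul (mode k x y s)).congr_of_eventuallyEq ?_)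
    filter_upwards [Ioo_mem_nhds ht'.1 ht'.2] with v' hv'
    exact a2 v' hv'
  simp only [a11, a22, hφv (s, t) (Ioo_subset_Icc_self ht')]
  ring

theorem transfer {B : ℝ → ℝ} (hB : Adm B) (u : ℂ → ℝ) (hu : MemLp u 2 (volume.restrict Om))
    (H : ∀ φ : ℂ → ℝ, ContDiff ℝ (⊤ : ℕ∞) φ → (∀ z ∈ frontier Om, φ z = 0) →
      (∀ z, 1 / 2 < sc z → φ z = 0) → gr (pot B) u φ = 0) :
    ∃ v : ℂ → ℝ, MemLp v 2 (volume.restrict Om) ∧ ∀ φ : ℂ → ℝ, ContDiff ℝ (⊤ : ℕ∞) φ →
      (∀ z ∈ frontier Om, -(3 / 4 * cosh (π / 2)) ≤ z.re → φ z = 0) →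
      gr (pot fun t => B (π - t)) v φ = gr (pot B) u φ := by
  set B' : ℝ → ℝ := fun t => B (π - t) with hB'
  have hBf : Adm B' := hB.flip
  have cq := hB.contDiff_pot.continuous
  have cq' := hBf.contDiff_pot.continuous
  have hui : IntegrableOn u Om := hu.integrable (by norm_num)
  have hu2 : IntegrableOn (fun z => u z ^ 2) Om := hu.integrable_sq
  let F : ℝ × ℝ → ℝ := fun p => (B' p.2 - B p.2) * u (Z p)
  have hF : MemLp F 2 μQ := by
    have i1 := (integrable_Om _).1 (int_mul_Om hui (cq'.sub cq))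
    have i2 := (integrable_Om _).1 (int_mul_Om hu2
      (by fun_prop : Continuous fun z : ℂ => ‖z + 1‖ * ‖z - 1‖ * (pot B' z - pot B z) ^ 2))
    have m : AEStronglyMeasurable F μQ := by
      refine i1.aestronglyMeasurable.congr ?_
      filter_upwards [ae_μQ] with p hp
      simp only [F, Pi.sub_apply]
      rw [← J_pot B p hp.2, ← J_pot B' p hp.2]; ring
    rw [memLp_two_iff_integrable_sq m]
    refine i2.congr ?_
    filter_upwards [ae_μQ] with p hp
    simp only [F]
    rw [← J_pot B p hp.2, ← J_pot B' p hp.2, J_eq]; ring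
  obtain ⟨W, hWm, hW2, hW⟩ := exists_weak B' hBf.smooth.continuous hBf.nonneg F hF
  have hW0 := weak_vanish B' hBf.smooth.continuous hBf.nonneg hBf.right F W hF
    (fun p hp => by simp only [F]; rw [hB.right _ hp, hBf.right _ hp]; simp) hWm hW2 hW
    (mode_pairing hB u H)
  let w : ℂ → ℝ := fun z => W (Zinv z)
  have hw : MemLp w 2 (volume.restrict Om) := by
    refine (memLp_two_iff_integrable_sq (hWm.comp measurable_Zinv).aestronglyMeasurable).2 ?_
    refine (integrable_Om _).2 ((int_mul_μQ hW2.integrable_sq continuous_J).congr ?_)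
    filter_upwards [ae_μQ] with p hp
    simp only [Function.comp]
    rw [Zinv_Z p hp.2]; ring
  have hwi : IntegrableOn w Om := hw.integrable (by norm_num)
  have key : ∀ φ : ℂ → ℝ, ContDiff ℝ (⊤ : ℕ∞) φ → (∀ z ∈ frontier Om, φ z = 0) →
      gr (pot B') (u + w) φ = gr (pot B) u φ := by
    intro φ hφ h0
    obtain ⟨Φ1, Φ2, Φ11, Φ22, ht, hL⟩ := exists_test φ hφ h0
    have e := hW _ _ _ _ _ ht
    have c := hφ.continuous
    have c' := continuous_laplacian hφ
    have e1 : gr (pot B') w φ = ∫ z in Om, u z * ((pot B' z - pot B z) * φ z) := by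
      rw [gr_eq B' w φ _ hL, integral_Om]
      refine Eq.trans (integral_congr_ae ?_) (e.trans (integral_congr_ae ?_))
      · filter_upwards [ae_μQ] with p hp
        simp only [w]
        rw [Zinv_Z p hp.2]
      · filter_upwards [ae_μQ] with p hp
        simp only [F]
        rw [← J_pot B p hp.2, ← J_pot B' p hp.2]; ring
    unfold gr at e1 ⊢
    simp only [Pi.add_apply, add_mul]
    rw [integral_add (int_mul_Om hui (by fun_prop)) (int_mul_Om hwi (by fun_prop)), e1,
      ← integral_add (int_mul_Om hui (by fun_prop)) (int_mul_Om hui (by fun_prop))]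
    congr 1
    ext z
    ring
  refine ⟨u + w, hu.add hw, fun φ hφ h0 => ?_⟩
  have hA := one_lt_A
  let χ : ℂ → ℝ := fun z => smoothTransition ((-z.re - 5 / 8 * cosh (π / 2)) / (cosh (π / 2) / 8))
  have hχ : ContDiff ℝ (⊤ : ℕ∞) χ :=
    smoothTransition.contDiff.comp
      ((Complex.reCLM.contDiff.neg.sub contDiff_const).div_const _)
  have hb : ContDiff ℝ (⊤ : ℕ∞) fun z => χ z * φ z := hχ.mul hφ
  have ha : ContDiff ℝ (⊤ : ℕ∞) fun z => φ z - χ z * φ z := hφ.sub hb
  have split : φ = (fun z => φ z - χ z * φ z) + fun z => χ z * φ z := by ext z; simp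
  rw [split, gr_add_right cq' (hui.add hwi) ha hb, gr_add_right cq hui ha hb, key _ ha]
  · congr 1
    unfold gr
    rw [integral_Om, integral_Om]
    refine integral_congr_ae ?_
    filter_upwards [ae_μQ, hW0] with p hp hp0
    by_cases hre : -(5 / 8 * cosh (π / 2)) < (Z p).re
    · have he : (fun z => χ z * φ z) =ᶠ[𝓝 (Z p)] fun _ => 0 := by
        filter_upwards [(isOpen_lt continuous_const Complex.continuous_re).mem_nhds hre] with v hv
        have hv' : -(5 / 8 * cosh (π / 2)) < v.re := hv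
        simp only [χ]
        rw [smoothTransition.zero_of_nonpos (div_nonpos_of_nonpos_of_nonneg (by linarith)
          (by linarith)), zero_mul]
      rw [(InnerProductSpace.laplacian_congr_nhds he).eq_of_nhds, he.eq_of_nhds]
      simp
    · have h1 : cosh p.1 ≤ cosh (π / 2) := by
        rw [cosh_le_cosh, abs_of_pos (by linarith [pi_pos] : 0 < π / 2), abs_le]
        exact ⟨hp.1.1.le, hp.1.2.le⟩
      have h2 : cos p.2 < -(1 / 2) := by
        by_contra h3
        push Not at h3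
        apply hre
        rw [Z_re]
        nlinarith [one_le_cosh p.1]
      have h3 := lt_of_cos_lt (Ioo_subset_Icc_self hp.2) h2
      have q0 : ∀ C : ℝ → ℝ, Adm C → pot C (Z p) = 0 := fun C hC => by
        unfold pot
        rw [Zinv_snd p (Ioo_subset_Icc_self hp.2), hC.right _ h3.le, zero_div]
      simp only [Pi.add_apply, w]
      rw [q0 B hB, q0 B' hBf, Zinv_Z p hp.2, hp0 h3, add_zero]
  · intro z hz
    by_cases hre : -(3 / 4 * cosh (π / 2)) ≤ z.re
    · rw [h0 z hz hre]; simp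
    · simp only [χ]
      rw [smoothTransition.one_of_one_le, one_mul, sub_self]
      rw [le_div_iff₀ (by linarith)]
      linarith [not_le.1 hre]

end Pool.Agent.Work.MP_58debc_an
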