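import Pool.Agent.Work.MP_58debc_an.Main

open Set Real MeasureTheory Laplacian
open scoped Topology

namespace Pool.Agent.Work.MP_58debc_an

/-- the Euclidean plane -/
abbrev E2 := EuclideanSpace ℝ (Fin 2)

/-- the identification of the complex plane with the Euclidean plane -/
noncomputable def ee : ℂ ≃ₗᵢ[ℝ] E2 := Complex.orthonormalBasisOneI.repr

/-- the ellipse in the Euclidean plane -/
def Om2 : Set E2 := ee.symm ⁻¹' Om

lemma frontier_Om2 : frontier Om2 = ee.symm ⁻¹' frontier Om :=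
  (ee.symm.toHomeomorph.preimage_frontier Om).symm

lemma isOpen_Om2 : IsOpen Om2 := isOpen_Om.preimage ee.symm.continuous

lemma lap_comp (φ : E2 → ℝ) (hφ : ContDiff ℝ (⊤ : ℕ∞) φ) (z : ℂ) :
    Δ (φ ∘ ee) z = Δ φ (ee z) := by
  rw [InnerProductSpace.laplacian_eq_iteratedFDeriv_orthonormalBasis (φ ∘ ee)
      Complex.orthonormalBasisOneI,
    InnerProductSpace.laplacian_eq_iteratedFDeriv_orthonormalBasis φ
      (Complex.orthonormalBasisOneI.map ee)]
  refine Finset.sum_congr rfl fun i _ => ?_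
  have := (ee.toContinuousLinearEquiv : ℂ →L[ℝ] E2).iteratedFDeriv_comp_right
    (contDiff_infty.1 hφ 2) z (i := 2) le_rfl
  have e : (φ ∘ ee) = φ ∘ (ee.toContinuousLinearEquiv : ℂ →L[ℝ] E2) := rfl
  rw [e, this, ContinuousMultilinearMap.compContinuousLinearMap_apply]
  congr 1
  ext1 j
  fin_cases j <;> rfl

lemma mp_ee : MeasurePreserving ee (volume.restrict Om) (volume.restrict Om2) := by
  have := ee.measurePreserving.restrict_preimage (s := Om2) isOpen_Om2.measurableSet
  have e : ee ⁻¹' Om2 = Om := by ext z; simp [Om2]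
  rwa [e] at this

lemma mp_ee_symm : MeasurePreserving ee.symm (volume.restrict Om2) (volume.restrict Om) :=
  ee.symm.measurePreserving.restrict_preimage isOpen_Om.measurableSet

/-- real Green pairing on the Euclidean ellipse -/
noncomputable def gr2 (q u φ : E2 → ℝ) : ℝ := ∫ x in Om2, u x * (Δ φ x - q x * φ x)

lemma gr2_eq (q : ℂ → ℝ) (u φ : E2 → ℝ) (hφ : ContDiff ℝ (⊤ : ℕ∞) φ) :
    gr2 (q ∘ ee.symm) u φ = gr q (u ∘ ee) (φ ∘ ee) := by
  unfold gr2 gr
  rw [← mp_ee.integral_comp ee.toHomeomorph.measurableEmbedding]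
  simp [lap_comp φ hφ]

theorem transfer2 {B : ℝ → ℝ} (hB : Adm B) (u : E2 → ℝ) (hu : MemLp u 2 (volume.restrict Om2))
    (H : ∀ φ : E2 → ℝ, ContDiff ℝ (⊤ : ℕ∞) φ → (∀ x ∈ frontier Om2, φ x = 0) →
      (∀ x, 1 / 2 < sc (ee.symm x) → φ x = 0) → gr2 (pot B ∘ ee.symm) u φ = 0) :
    ∃ v : E2 → ℝ, MemLp v 2 (volume.restrict Om2) ∧ ∀ φ : E2 → ℝ, ContDiff ℝ (⊤ : ℕ∞) φ →
      (∀ x ∈ frontier Om2, -(3 / 4 * cosh (π / 2)) ≤ (ee.symm x).re → φ x = 0) →
      gr2 ((pot fun t => B (π - t)) ∘ ee.symm) v φ = gr2 (pot B ∘ ee.symm) u φ := by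
  obtain ⟨v, hv, h⟩ := transfer hB (u ∘ ee) (hu.comp_measurePreserving mp_ee) (fun φ hφ h0 h1 => by
    have hs : ContDiff ℝ (⊤ : ℕ∞) (φ ∘ ee.symm) := hφ.comp ee.symm.contDiff
    have := H (φ ∘ ee.symm) hs (fun x hx => h0 _ (by rwa [frontier_Om2] at hx))
      (fun x hx => h1 _ hx)
    rw [gr2_eq _ _ _ hs] at this
    have e : (φ ∘ ee.symm) ∘ ee = φ := by ext z; simp
    rwa [e] at this)
  refine ⟨v ∘ ee.symm, hv.comp_measurePreserving mp_ee_symm, fun φ hφ h0 => ?_⟩
  rw [gr2_eq _ _ _ hφ, gr2_eq _ _ _ hφ]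
  have e : (v ∘ ee.symm) ∘ ee = v := by ext z; simp
  rw [e]
  refine h _ (hφ.comp ee.contDiff) fun z hz hre => h0 _ ?_ (by simpa using hre)
  rw [frontier_Om2]
  simpa using hz

lemma continuous_laplacian2 {φ : E2 → ℝ} (hφ : ContDiff ℝ (⊤ : ℕ∞) φ) : Continuous (Δ φ) := by
  have : Δ φ = (Δ (φ ∘ ee)) ∘ ee.symm := by
    ext x; simp [lap_comp φ hφ]
  rw [this]
  exact (continuous_laplacian (hφ.comp ee.contDiff)).comp ee.symm.continuous

lemma Om2_subset : Om2 ⊆ Metric.closedBall 0 (cosh (π / 2)) := by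
  intro x hx
  have := Om_subset hx
  rw [mem_closedBall_zero_iff] at this ⊢
  rwa [ee.symm.norm_map] at this

instance : IsFiniteMeasure (volume.restrict Om2) :=
  isFiniteMeasure_restrict.2
    ((measure_mono Om2_subset).trans_lt (isCompact_closedBall _ _).measure_lt_top).ne

lemma int_mul_Om2 {u G : E2 → ℝ} (hu : IntegrableOn u Om2) (hG : Continuous G) :
    IntegrableOn (fun z => u z * G z) Om2 :=
  hu.mul_continuousOn_of_subset hG.continuousOn isOpen_Om2.measurableSet
    (isCompact_closedBall _ _) Om2_subset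

lemma memLp_top_Om2 {G : E2 → ℝ} (hG : Continuous G) : MemLp G ⊤ (volume.restrict Om2) := by
  obtain ⟨C, hC⟩ := (isCompact_closedBall (0 : E2) (cosh (π / 2))).exists_bound_of_continuousOn
    hG.continuousOn
  refine memLp_top_of_bound hG.aestronglyMeasurable C ?_
  filter_upwards [ae_restrict_mem isOpen_Om2.measurableSet] with x hx
  exact hC x (Om2_subset hx)

lemma gr2_add_right {q u φ ψ : E2 → ℝ} (hq : Continuous q) (hu : IntegrableOn u Om2)
    (hφ : ContDiff ℝ (⊤ : ℕ∞) φ) (hψ : ContDiff ℝ (⊤ : ℕ∞) ψ) :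
    gr2 q u (φ + ψ) = gr2 q u φ + gr2 q u ψ := by
  unfold gr2
  have a := continuous_laplacian2 hφ
  have b := continuous_laplacian2 hψ
  have c := hφ.continuous
  have d := hψ.continuous
  rw [← integral_add (int_mul_Om2 hu (by fun_prop)) (int_mul_Om2 hu (by fun_prop))]
  congr 1
  ext z
  rw [ContDiffAt.laplacian_add (contDiff_infty.1 hφ 2).contDiffAt
    (contDiff_infty.1 hψ 2).contDiffAt]
  simp only [Pi.add_apply]
  ring

lemma complex_split {q : E2 → ℝ} (hq : Continuous q) {u : E2 → ℂ}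
    (hu : MemLp u 2 (volume.restrict Om2)) {φ : E2 → ℝ} (hφ : ContDiff ℝ (⊤ : ℕ∞) φ) :
    ∫ x in Om2, u x * (((Δ φ x : ℝ) : ℂ) - (q x : ℂ) * (φ x : ℂ)) =
      (gr2 q (fun x => (u x).re) φ : ℂ) + (gr2 q (fun x => (u x).im) φ : ℂ) * Complex.I := by
  have a := continuous_laplacian2 hφ
  have c := hφ.continuous
  have i1 : IntegrableOn (fun x => (u x).re * (Δ φ x - q x * φ x)) Om2 :=
    int_mul_Om2 (hu.re.integrable (by norm_num)) (by fun_prop)
  have i2 : IntegrableOn (fun x => (u x).im * (Δ φ x - q x * φ x)) Om2 :=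
    int_mul_Om2 (hu.im.integrable (by norm_num)) (by fun_prop)
  unfold gr2
  have j1 : IntegrableOn (fun x => (((u x).re * (Δ φ x - q x * φ x) : ℝ) : ℂ)) Om2 := i1.ofReal
  have j2 : IntegrableOn (fun x => (((u x).im * (Δ φ x - q x * φ x) : ℝ) : ℂ)) Om2 := i2.ofReal
  rw [← integral_complex_ofReal, ← integral_complex_ofReal, ← integral_mul_const,
    ← integral_add j1 (j2.mul_const _)]
  congr 1
  ext x
  apply Complex.ext <;> simp

lemma convex_Om : Convex ℝ Om := by
  intro x hx y hy a b ha hb hab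
  have hx' : rho x < 0 := hx
  have hy' : rho y < 0 := hy
  show rho _ < 0
  unfold rho at *
  have hA : 0 < cosh (π / 2) ^ 2 := by have := one_lt_A; positivity
  have hS : 0 < sinh (π / 2) ^ 2 := by have := sinh_half_pos; positivity
  have sq : ∀ s t c : ℝ, 0 < c → (a * s + b * t) ^ 2 / c ≤ a * (s ^ 2 / c) + b * (t ^ 2 / c) := by
    intro s t c hc
    rw [← mul_div_assoc, ← mul_div_assoc, ← add_div]
    refine div_le_div_of_nonneg_right ?_ hc.le
    have : b = 1 - a := by linarith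
    subst this
    nlinarith [mul_nonneg ha hb, sq_nonneg (s - t), mul_nonneg (mul_nonneg ha hb) (sq_nonneg (s - t))]
  have h1 := sq x.re y.re _ hA
  have h2 := sq x.im y.im _ hS
  simp only [Complex.add_re, Complex.add_im, Complex.smul_re, Complex.smul_im, smul_eq_mul]
  rcases eq_or_lt_of_le ha with h | h
  · have : b = 1 := by linarith
    subst h; subst this
    simpa using hy'
  · nlinarith [mul_pos h (neg_pos.2 hx'), mul_nonneg hb (neg_pos.2 hy').le]

lemma convex_Om2 : Convex ℝ Om2 :=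
  convex_Om.linear_preimage (ee.symm.toLinearEquiv : E2 →ₗ[ℝ] ℂ)

lemma zero_mem_Om : (0 : ℂ) ∈ Om := by
  show rho 0 < 0
  simp [rho]

lemma connected_frontier : IsConnected (frontier Om2) := by
  have : frontier Om2 = range fun t : ℝ => ee (Z (π / 2, t)) := by
    rw [frontier_Om2, frontier_Om]
    ext x
    constructor
    · intro hx
      obtain ⟨p, -, hp⟩ := exists_Z (ee.symm x)
      have hx' : rho (Z p) = 0 := by rw [hp]; exact hx
      rcases (rho_Z_eq p).1 hx' with h | h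
      · refine ⟨p.2, ?_⟩
        simp only
        rw [← h, Prod.mk.eta, hp]; simp
      · refine ⟨-p.2, ?_⟩
        have : Z (π / 2, -p.2) = Z p := by apply Complex.ext <;> simp [h]
        simp only
        rw [this, hp]; simp
    · rintro ⟨t, rfl⟩
      show rho (ee.symm (ee _)) = 0
      rw [ee.symm_apply_apply]
      exact (rho_Z_eq _).2 (Or.inl rfl)
  rw [this]
  exact isConnected_range (ee.continuous.comp (by fun_prop))

lemma contDiff_rho2 : ContDiff ℝ (⊤ : ℕ∞) (rho ∘ ee.symm) := contDiff_rho.comp ee.symm.contDiff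

lemma gradient_ne (x : E2) (hx : (rho ∘ ee.symm) x = 0) : gradient (rho ∘ ee.symm) x ≠ 0 := by
  intro h
  have h1 : fderiv ℝ (rho ∘ ee.symm) x = 0 := by
    unfold gradient at h
    exact (LinearIsometryEquiv.map_eq_zero_iff _).1 h
  have d1 : HasDerivAt (fun t : ℝ => t • x) x 1 := by
    simpa using (hasDerivAt_id (1 : ℝ)).smul_const x
  have d2 : HasFDerivAt (rho ∘ ee.symm) (fderiv ℝ (rho ∘ ee.symm) x) ((1 : ℝ) • x) := by
    rw [one_smul]; exact (contDiff_rho2.differentiable (by simp) x).hasFDerivAt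
  have d3 := d2.comp_hasDerivAt (1 : ℝ) d1
  rw [h1] at d3
  have e : ((rho ∘ ee.symm) ∘ fun t : ℝ => t • x) = fun t => t ^ 2 - 1 := by
    ext t
    have hx' : rho (ee.symm x) = 0 := hx
    simp only [Function.comp, map_smul]
    unfold rho at *
    simp only [Complex.smul_re, Complex.smul_im, smul_eq_mul]
    linear_combination t ^ 2 * hx'
  rw [e] at d3
  have d4 : HasDerivAt (fun t : ℝ => t ^ 2 - 1) 2 1 := by
    simpa using ((hasDerivAt_id (1 : ℝ)).pow 2).sub_const 1
  have := d3.unique d4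
  simp at this

lemma re_frontier (x : E2) (hx : x ∈ frontier Om2) :
    (ee.symm x).re = cosh (π / 2) * sc (ee.symm x) := by
  rw [frontier_Om2, frontier_Om] at hx
  obtain ⟨p, -, hp⟩ := exists_Z (ee.symm x)
  have hx' : rho (Z p) = 0 := by rw [hp]; exact hx
  rw [← hp, sc_Z, Z_re]
  rcases (rho_Z_eq p).1 hx' with h | h <;> simp [h]

/-- a concrete asymmetric profile -/
noncomputable def B0 (t : ℝ) : ℝ := expNegInvGlue (t - π / 3) * expNegInvGlue (π / 2 - t)

lemma adm_B0 : Adm B0 := by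
  refine ⟨?_, fun t => mul_nonneg (expNegInvGlue.nonneg _) (expNegInvGlue.nonneg _),
    fun t ht => ?_, fun t ht => ?_⟩
  · exact (expNegInvGlue.contDiff.comp (contDiff_id.sub contDiff_const)).mul
      (expNegInvGlue.contDiff.comp (contDiff_const.sub contDiff_id))
  · unfold B0; rw [expNegInvGlue.zero_of_nonpos (by linarith), zero_mul]
  · unfold B0; rw [expNegInvGlue.zero_of_nonpos (x := π / 2 - t) (by linarith [pi_pos]), mul_zero]

lemma pot_ne : ¬ (pot B0 ∘ ee.symm) =ᵐ[volume.restrict Om2]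
    ((pot fun t => B0 (π - t)) ∘ ee.symm) := by
  intro h
  have hp := pi_pos
  have e := Measure.eqOn_open_of_ae_eq h isOpen_Om2
    (adm_B0.contDiff_pot.continuous.comp ee.symm.continuous).continuousOn
    (adm_B0.flip.contDiff_pot.continuous.comp ee.symm.continuous).continuousOn
  have hm : ee (Z (0, 5 * π / 12)) ∈ Om2 := by
    show ee.symm (ee _) ∈ Om
    rw [ee.symm_apply_apply, Z_mem_Om]
    constructor <;> simp only <;> linarith
  have e1 := e hm
  simp only [Function.comp, ee.symm_apply_apply] at e1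
  have a := J_pot B0 (0, 5 * π / 12) ⟨by simp only; linarith, by simp only; linarith⟩
  have b := J_pot (fun t => B0 (π - t)) (0, 5 * π / 12)
    ⟨by simp only; linarith, by simp only; linarith⟩
  rw [e1, b] at a
  simp only [B0] at a
  rw [expNegInvGlue.zero_of_nonpos (x := π / 2 - (π - 5 * π / 12)) (by linarith), mul_zero] at a
  have := mul_pos (expNegInvGlue.pos_of_pos (x := 5 * π / 12 - π / 3) (by linarith))
    (expNegInvGlue.pos_of_pos (x := π / 2 - 5 * π / 12) (by linarith))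
  linarith

lemma pot_nonneg {B : ℝ → ℝ} (hB : Adm B) (z : ℂ) : 0 ≤ pot B z :=
  div_nonneg (hB.nonneg _) (by positivity)

end Pool.Agent.Work.MP_58debc_an
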